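import Pool.Agent.Q265.LC.F
import Pool.Agent.Q265.LO.Big

/-! # Localisation: final statements -/

set_option autoImplicit false

open Finset Polynomial Filter Topology

namespace Q265.LC

open Q241.AC (R)

/-! ## Belyi maps in terms of the number of points of the fibres -/

lemma exists_radC {P : ℚ[X]} (hP : P ≠ 0) {n : ℕ} (h : (P.rootSet ℂ).ncard ≤ n) :
    ∃ (r : ℚ[X]) (NN : ℕ), r ∣ P ∧ P ∣ r ^ NN ∧ r.natDegree ≤ n := by
  classical
  obtain ⟨NN, hNN⟩ := UniqueFactorizationMonoid.exists_dvd_radical_self_pow hP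
  refine ⟨UniqueFactorizationMonoid.radical P, NN, UniqueFactorizationMonoid.radical_dvd_self,
    hNN, ?_⟩
  have hsq : Squarefree (UniqueFactorizationMonoid.radical P) :=
    UniqueFactorizationMonoid.squarefree_radical
  have hsep : (UniqueFactorizationMonoid.radical P).Separable :=
    PerfectField.separable_iff_squarefree.2 hsq
  have hcard : Fintype.card ((UniqueFactorizationMonoid.radical P).rootSet ℂ) =
      (UniqueFactorizationMonoid.radical P).natDegree :=
    card_rootSet_eq_natDegree hsep (IsAlgClosed.splits _)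
  have hsub : (UniqueFactorizationMonoid.radical P).rootSet ℂ ⊆ P.rootSet ℂ := by
    intro x hx
    rw [mem_rootSet] at hx ⊢
    refine ⟨hP, ?_⟩
    obtain ⟨c, hc⟩ : UniqueFactorizationMonoid.radical P ∣ P :=
      UniqueFactorizationMonoid.radical_dvd_self
    rw [hc, map_mul, hx.2, zero_mul]
  rw [← hcard, ← Nat.card_eq_fintype_card, Nat.card_coe_set_eq]
  exact (Set.ncard_le_ncard hsub (rootSet_finite _ _)).trans h

theorem bel_of {F G : ℚ[X]} {d : ℕ} (hd : 1 ≤ d) (hcop : IsCoprime F G)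
    (hdeg : max F.natDegree G.natDegree = d) (h0 : (F * G * (F - G)).eval 0 = 0)
    (h1 : (F * G * (F - G)).eval 1 = 0)
    (hinf : F.natDegree < d ∨ G.natDegree < d ∨ (F - G).natDegree < d)
    (hun : ((F * G * (F - G)).rootSet ℂ).ncard ≤ d + 1) : Bel F G d := by
  have hFd : F.natDegree ≤ d := by rw [← hdeg]; exact le_max_left _ _
  have hGd : G.natDegree ≤ d := by rw [← hdeg]; exact le_max_right _ _
  have hor : F.natDegree = d ∨ G.natDegree = d := by
    rcases max_choice F.natDegree G.natDegree with h | h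
    · exact Or.inl (by omega)
    · exact Or.inr (by omega)
  have hnotu : ¬ (IsUnit F ∧ IsUnit G) := by
    rintro ⟨a, b⟩
    have := natDegree_eq_zero_of_isUnit a
    have := natDegree_eq_zero_of_isUnit b
    omega
  have hF0 : F ≠ 0 := by
    rintro rfl
    have hu : IsUnit G := isCoprime_zero_left.1 hcop
    have := natDegree_eq_zero_of_isUnit hu
    rw [natDegree_zero] at hor
    omega
  have hG0 : G ≠ 0 := by
    rintro rfl
    have hu : IsUnit F := isCoprime_zero_right.1 hcop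
    have := natDegree_eq_zero_of_isUnit hu
    rw [natDegree_zero] at hor
    omega
  have hFG0 : F - G ≠ 0 := by
    intro h
    have h2 := sub_eq_zero.1 h
    rw [h2] at hcop
    have hu : IsUnit G := isCoprime_self.1 hcop
    exact hnotu ⟨by rw [h2]; exact hu, hu⟩
  have hne : F * G * (F - G) ≠ 0 := mul_ne_zero (mul_ne_zero hF0 hG0) hFG0
  have hX : X ∣ F * G * (F - G) := by
    rw [X_dvd_iff, coeff_zero_eq_eval_zero]
    exact h0
  have hX1' : X - C 1 ∣ F * G * (F - G) := dvd_iff_isRoot.2 h1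
  have hX1 : X - 1 ∣ F * G * (F - G) := by rwa [C_1] at hX1'
  obtain ⟨r, N, hr1, hr2, hr3⟩ := exists_radC hne hun
  have hr0 : r ≠ 0 := by
    rintro rfl
    exact hne (zero_dvd_iff.1 hr1)
  have hXr : X ∣ r := prime_X.dvd_of_dvd_pow (hX.trans hr2)
  have hX1r : X - C 1 ∣ r := (prime_X_sub_C 1).dvd_of_dvd_pow (hX1'.trans hr2)
  have hcopX : IsCoprime (X : ℚ[X]) (X - C 1) := by
    have := isCoprime_X_sub_C_of_isUnit_sub (R := ℚ) (a := 0) (b := 1) (by norm_num)
    rwa [C_0, sub_zero] at this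
  obtain ⟨E, hE⟩ := hcopX.mul_dvd hXr hX1r
  have hE0 : E ≠ 0 := by
    rintro rfl
    rw [mul_zero] at hE
    exact hr0 hE
  refine ⟨hd, hcop, hFd, hGd, hor, hX, hX1, ?_, E, N, ?_, hE0, hne, ?_⟩
  · have k1 := natDegree_mul_le (p := F * G) (q := F - G)
    have k2 := natDegree_mul_le (p := F) (q := G)
    have k3 := natDegree_sub_le F G
    have k4 : max F.natDegree G.natDegree ≤ d := hdeg.le
    omega
  · have k1 : r.natDegree = 2 + E.natDegree := by
      rw [hE, natDegree_mul (mul_ne_zero X_ne_zero (X_sub_C_ne_zero 1)) hE0,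
        natDegree_mul X_ne_zero (X_sub_C_ne_zero 1), natDegree_X, natDegree_X_sub_C]
    omega
  · rw [C_1] at hE
    rw [← hE]
    exact hr2

/-! ## The inequality for integers -/

lemma R_natAbs (n : ℤ) : (1 : ℝ) ≤ R n.natAbs := Q241.AC.R_one_le _

lemma num_den {a c : ℤ} (hc : c ≠ 0) (hac : IsCoprime a c) :
    ((a : ℚ) / c).num.natAbs = a.natAbs ∧ ((a : ℚ) / c).den = c.natAbs ∧
      (((a : ℚ) / c).num - ((a : ℚ) / c).den).natAbs = (a - c).natAbs := by
  have hcop : Nat.Coprime a.natAbs c.natAbs := Int.isCoprime_iff_gcd_eq_one.1 hac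
  rcases lt_or_gt_of_ne hc with h | h
  · have h1 : (0 : ℤ) < -c := by omega
    have h2 : Nat.Coprime (-a).natAbs (-c).natAbs := by rwa [Int.natAbs_neg, Int.natAbs_neg]
    have e : (a : ℚ) / c = ((-a : ℤ) : ℚ) / ((-c : ℤ) : ℚ) := by
      push_cast
      rw [neg_div_neg_eq]
    have n1 := Rat.num_div_eq_of_coprime h1 h2
    have n2 := Rat.den_div_eq_of_coprime h1 h2
    rw [← e] at n1 n2
    refine ⟨by rw [n1, Int.natAbs_neg], by omega, ?_⟩
    rw [n1, n2]
    omega
  · have n1 := Rat.num_div_eq_of_coprime h hcop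
    have n2 := Rat.den_div_eq_of_coprime h hcop
    refine ⟨by rw [n1], by omega, ?_⟩
    rw [n1, n2]

/-- the abc inequality for integers and for rational numbers -/
theorem ineq_iff (T : Set ℚ) : Ineq T ↔ ∀ ε : ℝ, 0 < ε → ∃ κ : ℝ, ∀ a b c : ℤ, a ≠ 0 → b ≠ 0 →
    c ≠ 0 → IsCoprime a b → a + b = c → (a : ℚ) / c ∈ T →
      ((max |a| (max |b| |c|) : ℤ) : ℝ) ≤ κ * (R (a * b * c).natAbs : ℝ) ^ (1 + ε) := by
  constructor
  · intro h ε hε
    obtain ⟨C, hC⟩ := h ε hε
    refine ⟨2 * Real.exp C, fun a b c ha hb hc hab habc hT => ?_⟩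
    obtain ⟨t, ht⟩ : ∃ t, t = (a : ℚ) / c := ⟨_, rfl⟩
    have hac : IsCoprime a c := by
      rw [← habc]
      exact (IsCoprime.add_mul_left_right_iff (z := 1)).2 hab |> fun h => by simpa [add_comm] using h
    obtain ⟨n1, n2, n3⟩ := num_den hc hac
    rw [← ht] at n1 n2 n3 hT
    have hcq : (c : ℚ) ≠ 0 := by exact_mod_cast hc
    have ht0 : t ≠ 0 := by
      rw [ht]
      exact div_ne_zero (by exact_mod_cast ha) hcq
    have ht1 : t ≠ 1 := by
      rw [ht]
      intro h1
      rw [div_eq_one_iff_eq hcq] at h1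
      have : a = c := by exact_mod_cast h1
      omega
    have h1 := hC t hT ht0 ht1
    have hR : Rd t = R (a * b * c).natAbs := by
      unfold Rd Tp
      rw [n3, n1, n2]
      congr 1
      rw [Int.natAbs_mul, Int.natAbs_mul]
      have : (a - c).natAbs = b.natAbs := by omega
      rw [this]
      ring
    rw [hR] at h1
    obtain ⟨r, hr⟩ : ∃ r : ℝ, r = (R (a * b * c).natAbs : ℝ) := ⟨_, rfl⟩
    have hr1 : 1 ≤ r := by rw [hr]; exact R_natAbs _
    rw [← hr] at h1 ⊢
    have hH : H t ≤ Real.exp C * r ^ (1 + ε) := by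
      have h2 : H t = Real.exp (Real.log (H t)) :=
        (Real.exp_log (lt_of_lt_of_le one_pos (one_le_H t))).symm
      rw [h2]
      calc Real.exp (Real.log (H t)) ≤ Real.exp ((1 + ε) * Real.log r + C) := Real.exp_le_exp.2 h1
        _ = Real.exp C * r ^ (1 + ε) := by
          rw [Real.exp_add, mul_comm, Real.rpow_def_of_pos (by linarith), mul_comm (1 + ε)]
    have hHa : ((|a| : ℤ) : ℝ) ≤ H t := by
      have : ((|a| : ℤ) : ℝ) = |(t.num : ℝ)| := by
        have : |a| = |t.num| := by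
          rw [Int.abs_eq_natAbs, Int.abs_eq_natAbs, n1]
        rw [this]
        push_cast
        rfl
      rw [this]
      exact le_max_left _ _
    have hHc : ((|c| : ℤ) : ℝ) ≤ H t := by
      have : ((|c| : ℤ) : ℝ) = (t.den : ℝ) := by
        rw [Int.abs_eq_natAbs, n2, Int.cast_natCast]
      rw [this]
      exact le_max_right _ _
    have hb' : |b| ≤ |c| + |a| := by
      have : b = c - a := by omega
      rw [this]
      exact abs_sub c a
    have hb'' : ((|b| : ℤ) : ℝ) ≤ ((|c| : ℤ) : ℝ) + ((|a| : ℤ) : ℝ) := by exact_mod_cast hb'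
    have h0 : 0 < H t := lt_of_lt_of_le one_pos (one_le_H t)
    have hmax : ((max |a| (max |b| |c|) : ℤ) : ℝ) ≤ 2 * H t := by
      rw [Int.cast_max, Int.cast_max]
      refine max_le (by linarith) (max_le (by linarith) (by linarith))
    calc _ ≤ 2 * H t := hmax
      _ ≤ 2 * (Real.exp C * r ^ (1 + ε)) := by gcongr
      _ = _ := by ring
  · intro h ε hε
    obtain ⟨κ, hκ⟩ := h ε hε
    refine ⟨Real.log (max κ 1), fun t ht ht0 ht1 => ?_⟩
    have hden : (t.den : ℤ) ≠ 0 := by exact_mod_cast t.pos.ne'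
    have hnum : t.num ≠ 0 := Rat.num_ne_zero.2 ht0
    have hb : (t.den : ℤ) - t.num ≠ 0 := by
      intro h0
      apply ht1
      have : t.num = t.den := by omega
      rw [← Rat.num_div_den t, this]
      exact div_self (by exact_mod_cast t.pos.ne')
    have hcop : IsCoprime t.num ((t.den : ℤ) - t.num) := by
      have h1 : IsCoprime t.num (t.den : ℤ) := Int.isCoprime_iff_gcd_eq_one.2 (by
        have := t.reduced
        rwa [Int.gcd, Int.natAbs_natCast])
      have h2 : (t.den : ℤ) - t.num = t.den + t.num * (-1) := by ring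
      rw [h2]
      exact (IsCoprime.add_mul_left_right_iff).2 h1
    have h1 := hκ t.num (t.den - t.num) t.den hnum hb hden hcop (by ring) (by
      have : ((t.num : ℤ) : ℚ) / ((t.den : ℤ) : ℚ) = t := by
        exact_mod_cast Rat.num_div_den t
      rw [this]
      exact ht)
    have hR : Rd t = R (t.num * (t.den - t.num) * t.den).natAbs := by
      unfold Rd Tp
      congr 1
      rw [Int.natAbs_mul, Int.natAbs_mul, Int.natAbs_natCast]
      have : (t.num - (t.den : ℤ)).natAbs = ((t.den : ℤ) - t.num).natAbs := by omega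
      rw [this]
      ring
    rw [← hR] at h1
    have hr1 := one_le_Rd t
    have hH : H t ≤ max κ 1 * (Rd t : ℝ) ^ (1 + ε) := by
      have h2 : H t ≤ ((max |t.num| (max |(t.den : ℤ) - t.num| |(t.den : ℤ)|) : ℤ) : ℝ) := by
        unfold H
        rw [Int.cast_max, Int.cast_max]
        refine max_le ?_ ?_
        · refine le_trans ?_ (le_max_left _ _)
          push_cast
          exact le_rfl
        · refine le_trans ?_ ((le_max_right _ _).trans (le_max_right _ _))
          push_cast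
          exact le_abs_self _
      refine h2.trans (h1.trans ?_)
      gcongr
      exact le_max_left _ _
    have h3 := Real.log_le_log (lt_of_lt_of_le one_pos (one_le_H t)) hH
    rw [Real.log_mul (by positivity) (by positivity), Real.log_rpow (by linarith)] at h3
    linarith

/-- the abc conjecture for positive integers and for all integers -/
theorem abc_iff : Ineq Set.univ ↔ ∀ ε : ℝ, 0 < ε → ∃ κ : ℝ, ∀ a b c : ℕ, 0 < a → 0 < b →
    Nat.Coprime a b → a + b = c → (c : ℝ) ≤ κ * (R (a * b * c) : ℝ) ^ (1 + ε) := by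
  rw [ineq_iff]
  constructor
  · intro h ε hε
    obtain ⟨κ, hκ⟩ := h ε hε
    refine ⟨κ, fun a b c ha hb hab hc => ?_⟩
    have h1 := hκ a b c (by omega) (by omega) (by omega) (Nat.isCoprime_iff_coprime.2 hab)
      (by omega) (Set.mem_univ _)
    have h2 : ((a : ℤ) * b * c).natAbs = a * b * c := by
      have : ((a : ℤ) * b * c) = ((a * b * c : ℕ) : ℤ) := by push_cast; ring
      rw [this, Int.natAbs_natCast]
    rw [h2] at h1
    refine le_trans ?_ h1
    have h3 : (c : ℤ) ≤ max |(a : ℤ)| (max |(b : ℤ)| |(c : ℤ)|) :=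
      (le_abs_self _).trans ((le_max_right _ _).trans (le_max_right _ _))
    exact_mod_cast h3
  · intro h ε hε
    obtain ⟨κ, hκ⟩ := h ε hε
    refine ⟨κ, fun a b c ha hb hc hab habc _ => ?_⟩
    have hcop1 : Nat.Coprime a.natAbs b.natAbs := Int.isCoprime_iff_gcd_eq_one.1 hab
    have hac : IsCoprime a c := by
      have : c = b + a * 1 := by omega
      rw [this]
      exact (IsCoprime.add_mul_left_right_iff).2 hab
    have hbc : IsCoprime b c := by
      have : c = a + b * 1 := by omega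
      rw [this]
      exact (IsCoprime.add_mul_left_right_iff).2 hab.symm
    have hcop2 : Nat.Coprime a.natAbs c.natAbs := Int.isCoprime_iff_gcd_eq_one.1 hac
    have hcop3 : Nat.Coprime b.natAbs c.natAbs := Int.isCoprime_iff_gcd_eq_one.1 hbc
    have ha' : 0 < a.natAbs := Int.natAbs_pos.2 ha
    have hb' : 0 < b.natAbs := Int.natAbs_pos.2 hb
    have hc' : 0 < c.natAbs := Int.natAbs_pos.2 hc
    have hprod : (a * b * c).natAbs = a.natAbs * b.natAbs * c.natAbs := by
      rw [Int.natAbs_mul, Int.natAbs_mul]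
    rw [hprod]
    have key : ∀ x y z : ℕ, x + y = z → x * y * z = a.natAbs * b.natAbs * c.natAbs → 0 < x → 0 < y →
        Nat.Coprime x y → (max |a| (max |b| |c|)) ≤ (z : ℤ) →
        ((max |a| (max |b| |c|) : ℤ) : ℝ) ≤
          κ * (R (a.natAbs * b.natAbs * c.natAbs) : ℝ) ^ (1 + ε) := by
      intro x y z hxyz hp hx hy hxy hle
      have h1 := hκ x y z hx hy hxy hxyz
      rw [hp] at h1
      refine le_trans ?_ h1
      exact_mod_cast hle
    rcases (by omega : a.natAbs + b.natAbs = c.natAbs ∨ a.natAbs + c.natAbs = b.natAbs ∨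
      b.natAbs + c.natAbs = a.natAbs) with h1 | h1 | h1
    · refine key _ _ _ h1 rfl ha' hb' hcop1 ?_
      rw [Int.abs_eq_natAbs, Int.abs_eq_natAbs, Int.abs_eq_natAbs]
      omega
    · refine key _ _ _ h1 (by ring) ha' hc' hcop2 ?_
      rw [Int.abs_eq_natAbs, Int.abs_eq_natAbs, Int.abs_eq_natAbs]
      omega
    · refine key _ _ _ h1 (by ring) hb' hc' hcop3 ?_
      rw [Int.abs_eq_natAbs, Int.abs_eq_natAbs, Int.abs_eq_natAbs]
      omega

/-! ## The main theorem for the values of a Belyi map -/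

variable {ι : Type} [Fintype ι] {P : ι → ℕ} [∀ i, Fact (P i).Prime] {I : Set ℚ → Prop}

variable (P) in
/-- the values of `F / G` near the values at a point -/
def Near (F G : ℚ[X]) (x : ℝ) (y : ∀ i, ℚ_[P i]) (δ : ℝ) : Set ℚ :=
  {s | (∃ t : ℚ, G.eval t ≠ 0 ∧ s = F.eval t / G.eval t) ∧
    |(s : ℝ) - aeval x F / aeval x G| < δ ∧
    ∀ i, ‖(s : ℚ_[P i]) - aeval (y i) F / aeval (y i) G‖ < δ}

variable (P) in
/-- the inequality for the rational numbers which are compactly bounded at the places in `E` -/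
def Bdd (I : Set ℚ → Prop) (E : Set (Option ι)) : Prop :=
  ∀ (K : Set ℝ) (J : ∀ i, Set ℚ_[P i]), IsCompact K → (0 : ℝ) ∉ K → (1 : ℝ) ∉ K →
    (∀ i, IsCompact (J i) ∧ (0 : ℚ_[P i]) ∉ J i ∧ (1 : ℚ_[P i]) ∉ J i) →
    I {t : ℚ | (none ∈ E → (t : ℝ) ∈ K) ∧ ∀ i, some i ∈ E → (t : ℚ_[P i]) ∈ J i}

lemma one_cusp {F G : ℚ[X]} {d : ℕ} (hB : Bel F G d) {K : Type*} [Field K] [Algebra ℚ K]
    (h1 : aeval (1 : K) G ≠ 0) (h2 : aeval (1 : K) F ≠ 0) : aeval (1 : K) F = aeval (1 : K) G := by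
  obtain ⟨Q, hQ⟩ := hB.h1
  have h3 := congrArg (aeval (1 : K)) hQ
  simp only [map_mul, map_sub, aeval_X, map_one, sub_self, zero_mul] at h3
  rcases mul_eq_zero.1 h3 with h4 | h4
  · exact absurd h4 (mul_ne_zero h2 h1)
  · exact sub_eq_zero.1 h4

lemma zero_val {F G : ℚ[X]} {d : ℕ} (hB : Bel F G d) (hF : F.eval 0 = 0) {K : Type*} [Field K]
    [Algebra ℚ K] : aeval (0 : K) F = 0 ∧ aeval (0 : K) G ≠ 0 := by
  have h0 : ∀ Q : ℚ[X], aeval (0 : K) Q = algebraMap ℚ K (Q.eval 0) := fun Q => by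
    have := aeval_algebraMap_apply K (0 : ℚ) Q
    simpa using this
  refine ⟨by rw [h0, hF, map_zero], ?_⟩
  rw [h0]
  intro h
  have h1 : G.eval 0 = 0 := by
    have := (algebraMap ℚ K).injective
    exact (map_eq_zero_iff _ this).1 h
  obtain ⟨u, v, huv⟩ := hB.cop
  have := congrArg (eval 0) huv
  rw [eval_add, eval_mul, eval_mul, hF, h1, mul_zero, mul_zero, add_zero, eval_one] at this
  exact zero_ne_one this

/-- **Localisation for the values of a Belyi map** -/
theorem local_main (hI : IsTr I) (hP : Function.Injective P) {F G : ℚ[X]} {d : ℕ}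
    (hB : Bel F G d) (hF0 : F.eval 0 = 0) {E : Set (Option ι)} {x : ℝ} {y : ∀ i, ℚ_[P i]}
    (hx1 : none ∈ E → aeval x G ≠ 0 ∧ aeval x F ≠ 0 ∧ aeval x F ≠ aeval x G)
    (hx0 : none ∉ E → x = 0)
    (hy1 : ∀ i, some i ∈ E → aeval (y i) G ≠ 0 ∧ aeval (y i) F ≠ 0 ∧ aeval (y i) F ≠ aeval (y i) G)
    (hy0 : ∀ i, some i ∉ E → y i = 0) {δ : ℝ} (hδ : 0 < δ) (h : I (Near P F G x y δ)) :
    Bdd P I E := by
  intro K J hK hK0 hK1 hJ
  obtain ⟨w, hw⟩ : ∃ w : Pt P, w = (x, y) := ⟨_, rfl⟩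
  have hNZ : NZ G w := by
    rw [hw]
    refine ⟨?_, fun i => ?_⟩
    · show aeval x G ≠ 0
      by_cases hE : none ∈ E
      · exact (hx1 hE).1
      · rw [hx0 hE]
        exact (zero_val hB hF0).2
    · show aeval (y i) G ≠ 0
      by_cases hE : some i ∈ E
      · exact (hy1 i hE).1
      · rw [hy0 i hE]
        exact (zero_val hB hF0).2
  have hgood : Good I w := by
    obtain ⟨U, hU⟩ : ∃ U : Set (Pt P), U = Metric.ball (app F G w) δ := ⟨_, rfl⟩
    refine ⟨app F G ⁻¹' U, cont_app F G hNZ (by rw [hU]; exact Metric.ball_mem_nhds _ hδ),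
      hI.tr hB h fun t ht hGt => ?_⟩
    rw [Set.mem_ofPred_eq, Set.mem_preimage, app_emb, hU, Metric.mem_ball, Prod.dist_eq,
      max_lt_iff, dist_pi_lt_iff hδ] at ht
    refine ⟨⟨t, hGt, rfl⟩, ?_, fun i => ?_⟩
    · have := ht.1
      rw [Real.dist_eq, hw] at this
      exact this
    · have := ht.2 i
      rw [dist_eq_norm, hw] at this
      exact this
  have hmain := main hI hP (RC := none ∉ E) (CC := fun i => some i ∉ E) (K := K) (J := J) hgood
  refine hI.mono (hmain ?_ ?_ ?_ ?_ ?_ ?_) ?_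
  · intro hE
    rw [hw]
    exact hx0 hE
  · intro hE
    rw [not_not] at hE
    rw [hw]
    show x ≠ 0 ∧ x ≠ 1
    obtain ⟨h1, h2, h3⟩ := hx1 hE
    refine ⟨?_, ?_⟩
    · rintro rfl
      exact h2 (zero_val hB hF0).1
    · rintro rfl
      exact h3 (one_cusp hB h1 h2)
  · intro i hE
    rw [hw]
    exact hy0 i hE
  · intro i hE
    rw [not_not] at hE
    rw [hw]
    show y i ≠ 0 ∧ y i ≠ 1
    obtain ⟨h1, h2, h3⟩ := hy1 i hE
    refine ⟨?_, ?_⟩
    · intro h
      rw [h] at h2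
      exact h2 (zero_val hB hF0).1
    · intro h
      rw [h] at h1 h2 h3
      exact h3 (one_cusp hB h1 h2)
  · intro _
    exact ⟨hK, hK0, hK1⟩
  · intro i _
    exact hJ i
  · intro t ht
    refine ⟨fun hE => ht.1 (not_not.1 hE), fun i hE => ht.2 i (not_not.1 hE)⟩

/-- the converse for small neighbourhoods -/
theorem local_conv (hI : IsTr I) (F G : ℚ[X]) {E : Set (Option ι)} {x : ℝ}
    {y : ∀ i, ℚ_[P i]}
    (hx1 : none ∈ E → aeval x G ≠ 0 ∧ aeval x F ≠ 0 ∧ aeval x F ≠ aeval x G)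
    (hy1 : ∀ i, some i ∈ E → aeval (y i) G ≠ 0 ∧ aeval (y i) F ≠ 0 ∧
      aeval (y i) F ≠ aeval (y i) G) :
    ∃ δ₀ : ℝ, 0 < δ₀ ∧ ∀ δ ≤ δ₀, Bdd P I E → I (Near P F G x y δ) := by
  classical
  obtain ⟨a, ha⟩ : ∃ a : ℝ, a = aeval x F / aeval x G := ⟨_, rfl⟩
  obtain ⟨b, hb⟩ : ∃ b : ∀ i, ℚ_[P i], b = fun i => aeval (y i) F / aeval (y i) G := ⟨_, rfl⟩
  have ha' : none ∈ E → a ≠ 0 ∧ a ≠ 1 := by
    intro hE
    obtain ⟨h1, h2, h3⟩ := hx1 hE
    rw [ha]
    exact ⟨div_ne_zero h2 h1, fun h => h3 ((div_eq_one_iff_eq h1).1 h)⟩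
  have hb' : ∀ i, some i ∈ E → b i ≠ 0 ∧ b i ≠ 1 := by
    intro i hE
    obtain ⟨h1, h2, h3⟩ := hy1 i hE
    rw [hb]
    exact ⟨div_ne_zero h2 h1, fun h => h3 ((div_eq_one_iff_eq h1).1 h)⟩
  obtain ⟨r, hr0, hr1⟩ : ∃ r : ℝ, 0 < r ∧ (none ∈ E → r < |a| ∧ r < |a - 1|) := by
    by_cases hE : none ∈ E
    · obtain ⟨h1, h2⟩ := ha' hE
      have h3 : 0 < |a| := abs_pos.2 h1
      have h4 : 0 < |a - 1| := abs_pos.2 (sub_ne_zero.2 h2)
      have h5 : 0 < min |a| |a - 1| := lt_min h3 h4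
      exact ⟨min |a| |a - 1| / 2, by positivity, fun _ =>
        ⟨(half_lt_self h5).trans_le (min_le_left _ _), (half_lt_self h5).trans_le (min_le_right _ _)⟩⟩
    · exact ⟨1, one_pos, fun h => absurd h hE⟩
  have hs : ∀ i, ∃ s : ℝ, 0 < s ∧ s ≤ 1 ∧ (some i ∈ E → s < ‖b i‖ ∧ s < ‖b i - 1‖) := by
    intro i
    by_cases hE : some i ∈ E
    · obtain ⟨h1, h2⟩ := hb' i hE
      have h3 : 0 < ‖b i‖ := norm_pos_iff.2 h1
      have h4 : 0 < ‖b i - 1‖ := norm_pos_iff.2 (sub_ne_zero.2 h2)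
      have h5 : 0 < min 1 (min ‖b i‖ ‖b i - 1‖) := lt_min one_pos (lt_min h3 h4)
      have h6 := half_lt_self h5
      refine ⟨min 1 (min ‖b i‖ ‖b i - 1‖) / 2, by positivity, ?_, fun _ => ⟨?_, ?_⟩⟩
      · exact (h6.trans_le (min_le_left _ _)).le
      · exact h6.trans_le ((min_le_right _ _).trans (min_le_left _ _))
      · exact h6.trans_le ((min_le_right _ _).trans (min_le_right _ _))
    · exact ⟨1, one_pos, le_rfl, fun h => absurd h hE⟩
  choose s hs0 hs1 hs2 using hs
  have hprod : 0 < ∏ i, s i := prod_pos fun i _ => hs0 i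
  have hple : ∀ i, ∏ i, s i ≤ s i := by
    intro i
    rw [← mul_prod_erase univ s (mem_univ i)]
    have : ∏ j ∈ univ.erase i, s j ≤ 1 := prod_le_one (fun j _ => (hs0 j).le) fun j _ => hs1 j
    exact mul_le_of_le_one_right (hs0 i).le this
  refine ⟨min r (∏ i, s i), lt_min hr0 hprod, fun δ hδ hbd => ?_⟩
  have hδr : δ ≤ r := hδ.trans (min_le_left _ _)
  have hδs : ∀ i, δ ≤ s i := fun i => (hδ.trans (min_le_right _ _)).trans (hple i)
  refine hI.mono (hbd (if none ∈ E then Metric.closedBall a r else ∅)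
    (fun i => if some i ∈ E then Metric.closedBall (b i) (s i) else ∅) ?_ ?_ ?_ ?_) ?_
  · split_ifs
    · exact isCompact_closedBall _ _
    · exact isCompact_empty
  · split_ifs with hE
    · rw [Metric.mem_closedBall, Real.dist_eq, zero_sub, abs_neg]
      exact not_le.2 (hr1 hE).1
    · exact Set.notMem_empty _
  · split_ifs with hE
    · rw [Metric.mem_closedBall, Real.dist_eq, abs_sub_comm]
      exact not_le.2 (hr1 hE).2
    · exact Set.notMem_empty _
  · intro i
    split_ifs with hE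
    · refine ⟨isCompact_closedBall _ _, ?_, ?_⟩
      · rw [Metric.mem_closedBall, dist_eq_norm, zero_sub, norm_neg]
        exact not_le.2 (hs2 i hE).1
      · rw [Metric.mem_closedBall, dist_eq_norm, ← norm_neg, neg_sub]
        exact not_le.2 (hs2 i hE).2
    · exact ⟨isCompact_empty, Set.notMem_empty _, Set.notMem_empty _⟩
  · rintro t ⟨-, h1, h2⟩
    refine ⟨fun hE => ?_, fun i hE => ?_⟩
    · rw [if_pos hE, Metric.mem_closedBall, Real.dist_eq, ha]
      exact (h1.le).trans hδr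
    · rw [if_pos hE, Metric.mem_closedBall, dist_eq_norm, hb]
      exact ((h2 i).le).trans (hδs i)

omit [Fintype ι] in
/-- the case `E = ∅` -/
theorem bdd_empty (hI : IsTr I) : Bdd P I ∅ ↔ I Set.univ := by
  constructor
  · intro h
    refine hI.mono (h ∅ (fun i => ∅) isCompact_empty (Set.notMem_empty _) (Set.notMem_empty _)
      fun i => ⟨isCompact_empty, Set.notMem_empty _, Set.notMem_empty _⟩) fun t _ => ?_
    exact ⟨fun h => h.elim, fun i h => h.elim⟩
  · intro h K J _ _ _ _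
    exact hI.mono h (Set.subset_univ _)

end Q265.LC
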