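import Mathlib
import Pool.Agent.Q265.LO.Map
import Pool.Agent.Q265.BM.A

/-! # Transfer of the abc inequality by Belyi maps over the rationals -/

set_option autoImplicit false

open Finset Polynomial

namespace Q265.LC

open Q241.AC (R)

/-- the height of a rational number -/
noncomputable def H (t : ℚ) : ℝ := max |(t.num : ℝ)| (t.den : ℝ)

/-- the product of the three members of the triple of a rational number -/
def Tp (t : ℚ) : ℕ := t.num.natAbs * t.den * (t.num - t.den).natAbs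

/-- the radical of a rational number -/
def Rd (t : ℚ) : ℕ := R (Tp t)

/-- the abc inequality for the rational numbers in `T` -/
def Ineq (T : Set ℚ) : Prop := ∀ ε : ℝ, 0 < ε → ∃ C : ℝ, ∀ t ∈ T, t ≠ 0 → t ≠ 1 →
  Real.log (H t) ≤ (1 + ε) * Real.log (Rd t) + C

lemma den_pos' (t : ℚ) : (1 : ℝ) ≤ t.den := by exact_mod_cast t.pos

lemma one_le_H (t : ℚ) : 1 ≤ H t := (den_pos' t).trans (le_max_right _ _)

lemma one_le_Rd (t : ℚ) : (1 : ℝ) ≤ Rd t := Q241.AC.R_one_le _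

lemma Ineq.mono {T T' : Set ℚ} (h : Ineq T') (hs : T ⊆ T') : Ineq T := fun ε hε => by
  obtain ⟨C, hC⟩ := h ε hε
  exact ⟨C, fun t ht => hC t (hs ht)⟩

lemma Ineq.union {T T' : Set ℚ} (h : Ineq T) (h' : Ineq T') : Ineq (T ∪ T') := fun ε hε => by
  obtain ⟨C, hC⟩ := h ε hε
  obtain ⟨C', hC'⟩ := h' ε hε
  refine ⟨max C C', fun t ht h0 h1 => ?_⟩
  rcases ht with ht | ht
  · exact (hC t ht h0 h1).trans (by gcongr; exact le_max_left _ _)
  · exact (hC' t ht h0 h1).trans (by gcongr; exact le_max_right _ _)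

lemma Ineq.finite {T : Set ℚ} (h : T.Finite) : Ineq T := fun ε hε => by
  refine ⟨∑ t ∈ h.toFinset, Real.log (H t), fun t ht _ _ => ?_⟩
  have h1 : Real.log (H t) ≤ ∑ t ∈ h.toFinset, Real.log (H t) :=
    single_le_sum (f := fun t => Real.log (H t)) (fun s _ => Real.log_nonneg (one_le_H s))
      (h.mem_toFinset.2 ht)
  have h2 : 0 ≤ Real.log (Rd t) := Real.log_nonneg (one_le_Rd t)
  have h3 : 0 ≤ (1 + ε) * Real.log (Rd t) := by positivity
  linarith

/-- bounded denominators of the values of a polynomial -/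
def Hom (P : ℚ[X]) (D : ℕ) : Prop := ∃ B : ℝ, 0 ≤ B ∧ ∀ n, P.natDegree ≤ n → ∀ t : ℚ, ∃ z : ℤ,
  (z : ℚ) = D * (t.den : ℚ) ^ n * P.eval t ∧ |(z : ℝ)| ≤ B * H t ^ n

lemma Hom.mul {P : ℚ[X]} {D : ℕ} (h : Hom P D) (k : ℕ) : Hom P (k * D) := by
  obtain ⟨B, hB, h⟩ := h
  refine ⟨k * B, by positivity, fun n hn t => ?_⟩
  obtain ⟨z, h1, h2⟩ := h n hn t
  refine ⟨k * z, by push_cast; rw [h1]; ring, ?_⟩
  push_cast
  rw [abs_mul, Nat.abs_cast, mul_assoc]
  gcongr

lemma hom_exists (P : ℚ[X]) : ∃ D : ℕ, 0 < D ∧ Hom P D := by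
  obtain ⟨m, hm⟩ : ∃ m, m = P.natDegree := ⟨_, rfl⟩
  obtain ⟨D, hD⟩ : ∃ D, D = ∏ i ∈ range (m + 1), (P.coeff i).den := ⟨_, rfl⟩
  have hk : ∀ i, ∃ k : ℤ, i < m + 1 → (k : ℚ) = D * P.coeff i := by
    intro i
    by_cases hi : i < m + 1
    · have h1 : (P.coeff i).den ∣ D := by
        rw [hD]
        exact dvd_prod_of_mem (fun i => (P.coeff i).den) (mem_range.2 hi)
      obtain ⟨e, he⟩ := h1
      refine ⟨e * (P.coeff i).num, fun _ => ?_⟩
      have h2 := Rat.mul_den_eq_num (P.coeff i)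
      rw [he]
      push_cast
      rw [← h2]
      ring
    · exact ⟨0, fun h => absurd h hi⟩
  choose k hk using hk
  refine ⟨D, ?_, ∑ i ∈ range (m + 1), |(k i : ℝ)|, sum_nonneg fun i _ => abs_nonneg _, ?_⟩
  · rw [hD]
    exact prod_pos fun i _ => (P.coeff i).pos
  · intro n hn t
    rw [← hm] at hn
    refine ⟨∑ i ∈ range (m + 1), k i * (t.num ^ i * (t.den : ℤ) ^ (n - i)), ?_, ?_⟩
    · rw [eval_eq_sum_range, ← hm, mul_sum]
      push_cast
      refine sum_congr rfl fun i hi => ?_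
      have hi' := mem_range.1 hi
      rw [hk i hi']
      have h1 : (t.den : ℚ) ^ n = (t.den : ℚ) ^ (n - i) * (t.den : ℚ) ^ i := by
        rw [← pow_add]
        congr 1
        omega
      have h2 : ((t.num : ℤ) : ℚ) = t * t.den := (Rat.mul_den_eq_num t).symm
      rw [h1, h2]
      ring
    · push_cast
      rw [sum_mul]
      refine (abs_sum_le_sum_abs _ _).trans (sum_le_sum fun i hi => ?_)
      have hi' := mem_range.1 hi
      rw [abs_mul, abs_mul, abs_pow, abs_pow, Nat.abs_cast]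
      have h1 : H t ^ n = H t ^ i * H t ^ (n - i) := by
        rw [← pow_add]
        congr 1
        omega
      rw [h1]
      have h2 := one_le_H t
      gcongr
      · exact le_max_left _ _
      · exact le_max_right _ _

/-- the first certificate -/
lemma cert1 {p q : ℚ[X]} {d : ℕ} (hd : 1 ≤ d) (hcop : IsCoprime p q) (hp : p.natDegree ≤ d)
    (hq : q.natDegree ≤ d) (hpq : p.natDegree = d ∨ q.natDegree = d) :
    ∃ a b : ℚ[X], a.natDegree ≤ d - 1 ∧ b.natDegree ≤ d - 1 ∧ a * p + b * q = 1 := by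
  have main : ∀ p q : ℚ[X], IsCoprime p q → p.natDegree = d → q.natDegree ≤ d →
      ∃ a b : ℚ[X], a.natDegree ≤ d - 1 ∧ b.natDegree ≤ d - 1 ∧ a * p + b * q = 1 := by
    intro p q hcop hp hq
    obtain ⟨a, b, hab⟩ := hcop
    have hp0 : p ≠ 0 := by
      intro h
      rw [h, natDegree_zero] at hp
      omega
    obtain ⟨b', hb'⟩ : ∃ b' : ℚ[X], b' = b % p := ⟨_, rfl⟩
    obtain ⟨c, hc⟩ : ∃ c : ℚ[X], c = b / p := ⟨_, rfl⟩
    have hdiv : p * c + b' = b := by
      rw [hc, hb']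
      exact EuclideanDomain.div_add_mod _ _
    have hb'd : b'.natDegree ≤ d - 1 := by
      have h1 : b'.degree < p.degree := by
        rw [hb']
        exact EuclideanDomain.mod_lt _ hp0
      by_cases h0 : b' = 0
      · rw [h0, natDegree_zero]
        omega
      · have := natDegree_lt_natDegree h0 h1
        omega
    have hid : (a + c * q) * p + b' * q = 1 := by
      rw [← hab]
      linear_combination q * hdiv
    refine ⟨a + c * q, b', ?_, hb'd, hid⟩
    by_cases h0 : a + c * q = 0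
    · rw [h0, natDegree_zero]
      omega
    · have h1 : (a + c * q) * p = 1 - b' * q := by
        linear_combination hid
      have h2 : ((a + c * q) * p).natDegree ≤ 2 * d - 1 := by
        rw [h1]
        refine (natDegree_sub_le _ _).trans (max_le ?_ ?_)
        · rw [natDegree_one]
          omega
        · refine natDegree_mul_le.trans ?_
          omega
      rw [natDegree_mul h0 hp0, hp] at h2
      omega
  rcases hpq with h | h
  · exact main p q hcop h hq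
  · obtain ⟨a, b, h1, h2, h3⟩ := main q p hcop.symm h hp
    exact ⟨b, a, h2, h1, by rw [← h3]; ring⟩

/-- A map `F / G` of degree `d` for which the fibres over `0`, `1`, `∞` contain `0`, `1`, `∞`
(`h0`, `h1`, `hinf`) and besides at most `d - 1` points, the roots of `E`. -/
structure Bel (F G : ℚ[X]) (d : ℕ) : Prop where
  hd : 1 ≤ d
  cop : IsCoprime F G
  hF : F.natDegree ≤ d
  hG : G.natDegree ≤ d
  hFG : F.natDegree = d ∨ G.natDegree = d
  h0 : X ∣ F * G * (F - G)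
  h1 : (X - 1) ∣ F * G * (F - G)
  hinf : (F * G * (F - G)).natDegree < 3 * d
  ex : ∃ (E : ℚ[X]) (N : ℕ), E.natDegree ≤ d - 1 ∧ E ≠ 0 ∧ F * G * (F - G) ≠ 0 ∧
    F * G * (F - G) ∣ (X * (X - 1) * E) ^ N

lemma R_le_mul {m n k : ℕ} (hm : m ≠ 0) (hn : n ≠ 0) (hk : k ≠ 0)
    (h : ∀ ℓ : ℕ, ℓ.Prime → ℓ ∣ k → ℓ ∣ m * n) : R k ≤ R m * n := by
  refine le_trans ?_ (Q265.LO.R_mul_le hm hn)
  unfold R
  refine prod_le_prod_of_subset_of_one_le' (fun ℓ hℓ => ?_) fun ℓ hℓ _ =>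
    (Nat.prime_of_mem_primeFactors hℓ).one_le
  have hp := Nat.prime_of_mem_primeFactors hℓ
  exact Nat.mem_primeFactors.2 ⟨hp, h ℓ hp (Nat.dvd_of_mem_primeFactors hℓ), Nat.mul_ne_zero hm hn⟩

/-- the values of a Belyi map -/
theorem values {F G : ℚ[X]} {d : ℕ} (hB : Bel F G d) : ∃ C1 C2 : ℝ, 0 < C1 ∧ 0 < C2 ∧
    ∃ C3 : ℝ, 0 < C3 ∧ ∃ Δ : ℕ, Δ ≠ 0 ∧
    ∃ Z : Set ℚ, Z.Finite ∧ ∀ t : ℚ, t ∉ Z → G.eval t ≠ 0 ∧ F.eval t / G.eval t ≠ 0 ∧
      F.eval t / G.eval t ≠ 1 ∧ H t ^ d ≤ C1 * H (F.eval t / G.eval t) ∧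
      (Rd (F.eval t / G.eval t) : ℝ) ≤ C2 * Rd t * H t ^ (d - 1) ∧
      H (F.eval t / G.eval t) ≤ C3 * H t ^ d ∧
      ∀ ℓ : ℕ, ℓ.Prime → ℓ ∣ Tp t → ℓ ∣ Tp (F.eval t / G.eval t) ∨ ℓ ∣ Δ := by
  classical
  obtain ⟨hd, cop, hF, hG, hFG, ⟨Q0, hQ0⟩, ⟨Q1, hQ1⟩, hinf, E, N, hE, hE0, hne, W, hW⟩ := hB
  obtain ⟨U, V, hU, hV, hUV⟩ := cert1 hd cop hF hG hFG
  obtain ⟨U', V', hU', hV', hUV'⟩ := Q265.BM.cert2 hd cop hF hG hFG
  obtain ⟨D1, p1, k1⟩ := hom_exists F
  obtain ⟨D2, p2, k2⟩ := hom_exists G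
  obtain ⟨D3, p3, k3⟩ := hom_exists U
  obtain ⟨D4, p4, k4⟩ := hom_exists V
  obtain ⟨D5, p5, k5⟩ := hom_exists U'
  obtain ⟨D6, p6, k6⟩ := hom_exists V'
  obtain ⟨D7, p7, k7⟩ := hom_exists E
  obtain ⟨D8, p8, k8⟩ := hom_exists W
  obtain ⟨M0, q0, l0⟩ := hom_exists Q0
  obtain ⟨M1, q1, l1⟩ := hom_exists Q1
  obtain ⟨M2, q2, l2⟩ := hom_exists (F * G * (F - G))
  obtain ⟨D, hD⟩ : ∃ D, D = D1 * D2 * D3 * D4 * D5 * D6 * D7 * D8 := ⟨_, rfl⟩
  have hDpos : 0 < D := by rw [hD]; positivity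
  have e1 : Hom F D := by
    rw [hD, show D1 * D2 * D3 * D4 * D5 * D6 * D7 * D8 = D2 * D3 * D4 * D5 * D6 * D7 * D8 * D1 by ring]
    exact k1.mul _
  have e2 : Hom G D := by
    rw [hD, show D1 * D2 * D3 * D4 * D5 * D6 * D7 * D8 = D1 * D3 * D4 * D5 * D6 * D7 * D8 * D2 by ring]
    exact k2.mul _
  have e3 : Hom U D := by
    rw [hD, show D1 * D2 * D3 * D4 * D5 * D6 * D7 * D8 = D1 * D2 * D4 * D5 * D6 * D7 * D8 * D3 by ring]
    exact k3.mul _
  have e4 : Hom V D := by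
    rw [hD, show D1 * D2 * D3 * D4 * D5 * D6 * D7 * D8 = D1 * D2 * D3 * D5 * D6 * D7 * D8 * D4 by ring]
    exact k4.mul _
  have e5 : Hom U' D := by
    rw [hD, show D1 * D2 * D3 * D4 * D5 * D6 * D7 * D8 = D1 * D2 * D3 * D4 * D6 * D7 * D8 * D5 by ring]
    exact k5.mul _
  have e6 : Hom V' D := by
    rw [hD, show D1 * D2 * D3 * D4 * D5 * D6 * D7 * D8 = D1 * D2 * D3 * D4 * D5 * D7 * D8 * D6 by ring]
    exact k6.mul _
  have e7 : Hom E D := by
    rw [hD, show D1 * D2 * D3 * D4 * D5 * D6 * D7 * D8 = D1 * D2 * D3 * D4 * D5 * D6 * D8 * D7 by ring]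
    exact k7.mul _
  have e8 : Hom W D := by
    rw [hD]
    exact k8.mul _
  obtain ⟨B1, b1, f1⟩ := e1
  obtain ⟨B2, b2, f2⟩ := e2
  obtain ⟨B3, b3, f3⟩ := e3
  obtain ⟨B4, b4, f4⟩ := e4
  obtain ⟨B5, b5, f5⟩ := e5
  obtain ⟨B6, b6, f6⟩ := e6
  obtain ⟨B7, b7, f7⟩ := e7
  obtain ⟨B8, b8, f8⟩ := e8
  obtain ⟨B, hBB⟩ : ∃ B : ℝ, B = B3 + B4 + B5 + B6 + 1 := ⟨_, rfl⟩
  have hB0 : 0 < B := by rw [hBB]; positivity
  refine ⟨B, D * (B7 + 1), hB0, by positivity, B1 + B2 + 1, by positivity, M0 * M1 * M2 * D,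
    Nat.mul_ne_zero (Nat.mul_ne_zero (Nat.mul_ne_zero q0.ne' q1.ne') q2.ne') hDpos.ne',
    {t | (F * G * (F - G) * (X * (X - 1) * E)).eval t = 0}, ?_, ?_⟩
  · have hne' : F * G * (F - G) * (X * (X - 1) * E) ≠ 0 := by
      refine mul_ne_zero hne (mul_ne_zero (mul_ne_zero X_ne_zero ?_) hE0)
      exact X_sub_C_ne_zero (1 : ℚ)
    refine ((F * G * (F - G) * (X * (X - 1) * E)).roots.toFinset.finite_toSet).subset fun t ht => ?_
    rw [Set.mem_ofPred_eq] at ht
    simp only [mem_coe, Multiset.mem_toFinset]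
    exact (mem_roots hne').2 ht
  intro t ht
  rw [Set.mem_ofPred_eq] at ht
  simp only [eval_mul, eval_sub, eval_X, eval_one, mul_eq_zero, not_or] at ht
  obtain ⟨⟨⟨hFt, hGt⟩, hFGt⟩, ⟨ht0, ht1⟩, hEt⟩ := ht
  have hsub : F.eval t ≠ G.eval t := fun h => hFGt (by rw [h, sub_self])
  refine ⟨hGt, div_ne_zero hFt hGt, fun h => hsub ((div_eq_one_iff_eq hGt).1 h), ?_⟩
  obtain ⟨y, hy⟩ : ∃ y, y = F.eval t / G.eval t := ⟨_, rfl⟩
  rw [← hy]
  obtain ⟨a, ha⟩ : ∃ a, a = t.num := ⟨_, rfl⟩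
  obtain ⟨c, hc⟩ : ∃ c, c = t.den := ⟨_, rfl⟩
  have hcpos : 0 < c := by rw [hc]; exact t.pos
  have hcq : (c : ℚ) ≠ 0 := by exact_mod_cast hcpos.ne'
  have hta : (a : ℚ) = t * c := by rw [ha, hc]; exact (Rat.mul_den_eq_num t).symm
  have hcop : IsCoprime (a : ℤ) (c : ℤ) := by
    rw [ha, hc]
    exact Int.isCoprime_iff_gcd_eq_one.2 (by
      have := t.reduced
      rwa [Int.gcd, Int.natAbs_natCast])
  obtain ⟨h, hh⟩ : ∃ h, h = H t := ⟨_, rfl⟩
  have hh1 : 1 ≤ h := by rw [hh]; exact one_le_H t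
  obtain ⟨zF, g1, i1⟩ := f1 d hF t
  obtain ⟨zG, g2, i2⟩ := f2 d hG t
  obtain ⟨zU, g3, i3⟩ := f3 (d - 1) hU t
  obtain ⟨zV, g4, i4⟩ := f4 (d - 1) hV t
  obtain ⟨zU', g5, i5⟩ := f5 (d - 1) hU' t
  obtain ⟨zV', g6, i6⟩ := f6 (d - 1) hV' t
  obtain ⟨zE, g7, i7⟩ := f7 (d - 1) hE t
  obtain ⟨zW, g8, i8⟩ := f8 W.natDegree le_rfl t
  rw [← hc] at g1 g2 g3 g4 g5 g6 g7 g8
  rw [← hh] at i1 i2 i3 i4 i5 i6 i7 i8
  rw [← hh]
  have hDq : (D : ℚ) ≠ 0 := by exact_mod_cast hDpos.ne'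
  have hzF : zF ≠ 0 := by
    intro h0
    rw [h0, Int.cast_zero] at g1
    exact mul_ne_zero (mul_ne_zero hDq (pow_ne_zero _ hcq)) hFt g1.symm
  have hzG : zG ≠ 0 := by
    intro h0
    rw [h0, Int.cast_zero] at g2
    exact mul_ne_zero (mul_ne_zero hDq (pow_ne_zero _ hcq)) hGt g2.symm
  have hzE : zE ≠ 0 := by
    intro h0
    rw [h0, Int.cast_zero] at g7
    exact mul_ne_zero (mul_ne_zero hDq (pow_ne_zero _ hcq)) hEt g7.symm
  have hyz : y = (zF : ℚ) / zG := by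
    rw [hy, g1, g2, mul_div_mul_left _ _ (mul_ne_zero hDq (pow_ne_zero _ hcq))]
  obtain ⟨g, hg1, hg2⟩ := Rat.exists_eq_mul_div_num_and_eq_mul_div_den zF hzG
  rw [← hyz] at hg1 hg2
  have hpw : d + (d - 1) = 2 * d - 1 := by omega
  have c1 : zU * zF + zV * zG = (D : ℤ) ^ 2 * (c : ℤ) ^ (2 * d - 1) := by
    have : ((zU * zF + zV * zG : ℤ) : ℚ) = (((D : ℤ) ^ 2 * (c : ℤ) ^ (2 * d - 1) : ℤ) : ℚ) := by
      push_cast
      rw [g1, g2, g3, g4, ← hpw, pow_add]
      have h1 : (U * F + V * G).eval t = 1 := by rw [hUV, eval_one]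
      rw [eval_add, eval_mul, eval_mul] at h1
      linear_combination (D : ℚ) ^ 2 * (c : ℚ) ^ d * (c : ℚ) ^ (d - 1) * h1
    exact_mod_cast this
  have c2 : zU' * zF + zV' * zG = (D : ℤ) ^ 2 * (a : ℤ) ^ (2 * d - 1) := by
    have : ((zU' * zF + zV' * zG : ℤ) : ℚ) = (((D : ℤ) ^ 2 * (a : ℤ) ^ (2 * d - 1) : ℤ) : ℚ) := by
      push_cast
      rw [g1, g2, g5, g6, hta, mul_pow, ← hpw, pow_add (c : ℚ)]
      have h1 : (U' * F + V' * G).eval t = t ^ (d + (d - 1)) := by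
        rw [hUV', eval_pow, eval_X, hpw]
      rw [eval_add, eval_mul, eval_mul] at h1
      linear_combination (D : ℚ) ^ 2 * (c : ℚ) ^ d * (c : ℚ) ^ (d - 1) * h1
    exact_mod_cast this
  -- the gcd
  have hgD : g ∣ (D : ℤ) ^ 2 := by
    have h1 : g ∣ (D : ℤ) ^ 2 * (c : ℤ) ^ (2 * d - 1) := by
      rw [← c1]
      exact dvd_add (Dvd.dvd.mul_left ⟨_, hg1⟩ _) (Dvd.dvd.mul_left ⟨_, hg2⟩ _)
    have h2 : g ∣ (D : ℤ) ^ 2 * (a : ℤ) ^ (2 * d - 1) := by
      rw [← c2]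
      exact dvd_add (Dvd.dvd.mul_left ⟨_, hg1⟩ _) (Dvd.dvd.mul_left ⟨_, hg2⟩ _)
    obtain ⟨x, z, hxz⟩ := (hcop.pow (m := 2 * d - 1) (n := 2 * d - 1))
    have h3 : (D : ℤ) ^ 2 = x * ((D : ℤ) ^ 2 * (a : ℤ) ^ (2 * d - 1)) +
        z * ((D : ℤ) ^ 2 * (c : ℤ) ^ (2 * d - 1)) := by
      linear_combination -(D : ℤ) ^ 2 * hxz
    rw [h3]
    exact dvd_add (Dvd.dvd.mul_left h2 _) (Dvd.dvd.mul_left h1 _)
  have hDp : (0 : ℤ) < (D : ℤ) ^ 2 := by positivity
  have hgle : |(g : ℝ)| ≤ (D : ℝ) ^ 2 := by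
    have h1 := Int.le_of_dvd hDp ((abs_dvd g _).2 hgD)
    exact_mod_cast h1
  have hmax : max |(zF : ℝ)| |(zG : ℝ)| ≤ (D : ℝ) ^ 2 * H y := by
    unfold H
    have h1 : (zF : ℝ) = g * (y.num : ℝ) := by exact_mod_cast hg1
    have h2 : (zG : ℝ) = g * (y.den : ℝ) := by exact_mod_cast hg2
    rw [h1, h2, abs_mul, abs_mul, Nat.abs_cast]
    refine max_le ?_ ?_
    · gcongr
      exact le_max_left _ _
    · gcongr
      exact le_max_right _ _
  have hy0 : y.num ≠ 0 := by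
    intro h0
    rw [h0, mul_zero] at hg1
    exact hzF hg1
  have hzz : zF ≠ zG := by
    intro h0
    apply hsub
    have h1 : (D : ℚ) * (c : ℚ) ^ d * F.eval t = D * (c : ℚ) ^ d * G.eval t := by
      rw [← g1, ← g2, h0]
    exact mul_left_cancel₀ (mul_ne_zero hDq (pow_ne_zero _ hcq)) h1
  have hy1 : y.num - y.den ≠ 0 := by
    intro h0
    apply hzz
    rw [hg1, hg2, sub_eq_zero.1 h0]
  refine ⟨?_, ?_, ?_, ?_⟩
  · -- the height
    obtain ⟨M, hM⟩ : ∃ M, M = max |(zF : ℝ)| |(zG : ℝ)| := ⟨_, rfl⟩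
    rw [← hM] at hmax
    have hM1 : |(zF : ℝ)| ≤ M := by rw [hM]; exact le_max_left _ _
    have hM2 : |(zG : ℝ)| ≤ M := by rw [hM]; exact le_max_right _ _
    have hM0 : 0 ≤ M := (abs_nonneg _).trans hM1
    have h3 : (D : ℝ) ^ 2 * (c : ℝ) ^ (2 * d - 1) ≤ (B * h ^ (d - 1)) * M := by
      have h1 : (zU * zF + zV * zG : ℝ) = (D : ℝ) ^ 2 * (c : ℝ) ^ (2 * d - 1) := by exact_mod_cast c1
      rw [← h1]
      calc (zU * zF + zV * zG : ℝ) ≤ |(zU * zF + zV * zG : ℝ)| := le_abs_self _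
        _ ≤ |(zU * zF : ℝ)| + |(zV * zG : ℝ)| := abs_add_le _ _
        _ = |(zU : ℝ)| * |(zF : ℝ)| + |(zV : ℝ)| * |(zG : ℝ)| := by rw [abs_mul, abs_mul]
        _ ≤ (B3 * h ^ (d - 1)) * M + (B4 * h ^ (d - 1)) * M := by gcongr
        _ = (B3 + B4) * h ^ (d - 1) * M := by ring
        _ ≤ (B * h ^ (d - 1)) * M := by
          gcongr
          rw [hBB]
          linarith
    have h4 : (D : ℝ) ^ 2 * |(a : ℝ)| ^ (2 * d - 1) ≤ (B * h ^ (d - 1)) * M := by
      have h1 : (zU' * zF + zV' * zG : ℝ) = (D : ℝ) ^ 2 * (a : ℝ) ^ (2 * d - 1) := by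
        exact_mod_cast c2
      have h2 : (D : ℝ) ^ 2 * |(a : ℝ)| ^ (2 * d - 1) = |(zU' * zF + zV' * zG : ℝ)| := by
        rw [h1, abs_mul, abs_pow, abs_pow, Nat.abs_cast]
      rw [h2]
      calc |(zU' * zF + zV' * zG : ℝ)| ≤ |(zU' * zF : ℝ)| + |(zV' * zG : ℝ)| := abs_add_le _ _
        _ = |(zU' : ℝ)| * |(zF : ℝ)| + |(zV' : ℝ)| * |(zG : ℝ)| := by rw [abs_mul, abs_mul]
        _ ≤ (B5 * h ^ (d - 1)) * M + (B6 * h ^ (d - 1)) * M := by gcongr
        _ = (B5 + B6) * h ^ (d - 1) * M := by ring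
        _ ≤ (B * h ^ (d - 1)) * M := by
          gcongr
          rw [hBB]
          linarith
    have h5 : (D : ℝ) ^ 2 * h ^ (2 * d - 1) ≤ (B * h ^ (d - 1)) * M := by
      rcases le_total |(a : ℝ)| (c : ℝ) with hac | hac
      · have : h = c := by rw [hh]; unfold H; rw [← ha, ← hc]; exact max_eq_right hac
        rw [this] at h3 ⊢
        exact h3
      · have : h = |(a : ℝ)| := by rw [hh]; unfold H; rw [← ha, ← hc]; exact max_eq_left hac
        rw [this] at h4 ⊢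
        exact h4
    have h6 : h ^ (2 * d - 1) = h ^ d * h ^ (d - 1) := by rw [← hpw, pow_add]
    have h7 : (D : ℝ) ^ 2 * h ^ d ≤ B * M := by
      have hp : 0 < h ^ (d - 1) := by positivity
      rw [h6] at h5
      have : (D : ℝ) ^ 2 * h ^ d * h ^ (d - 1) ≤ B * M * h ^ (d - 1) := by linarith
      exact le_of_mul_le_mul_right this hp
    have h8 : (D : ℝ) ^ 2 * h ^ d ≤ (D : ℝ) ^ 2 * (B * H y) := by
      calc (D : ℝ) ^ 2 * h ^ d ≤ B * M := h7
        _ ≤ B * ((D : ℝ) ^ 2 * H y) := by gcongr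
        _ = (D : ℝ) ^ 2 * (B * H y) := by ring
    have hDr : (0 : ℝ) < (D : ℝ) ^ 2 := by positivity
    exact le_of_mul_le_mul_left h8 hDr
  · -- the radical
    have hid : zF * zG * (zF - zG) * (zW * ((D : ℤ) * (c : ℤ) ^ (d + 1)) ^ N) =
        (D : ℤ) ^ 4 * (c : ℤ) ^ (3 * d + W.natDegree) * (a * (a - c) * zE) ^ N := by
      have h1 : (F * G * (F - G) * W).eval t = ((X * (X - 1) * E) ^ N).eval t := by rw [hW]
      simp only [eval_mul, eval_sub, eval_pow, eval_X, eval_one] at h1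
      have h2 : (a : ℚ) * (a - c) * zE = (D : ℚ) * (c : ℚ) ^ (d + 1) * (t * (t - 1) * E.eval t) := by
        rw [g7, hta, show d + 1 = (d - 1) + 2 by omega, pow_add]
        ring
      have : ((zF * zG * (zF - zG) * (zW * ((D : ℤ) * (c : ℤ) ^ (d + 1)) ^ N) : ℤ) : ℚ) =
          (((D : ℤ) ^ 4 * (c : ℤ) ^ (3 * d + W.natDegree) * (a * (a - c) * zE) ^ N : ℤ) : ℚ) := by
        push_cast
        rw [h2, g1, g2, g8, mul_pow _ (t * (t - 1) * E.eval t), ← h1, pow_add (c : ℚ) (3 * d),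
          pow_mul']
        ring
      exact_mod_cast this
    have ha0 : a ≠ 0 := by
      intro h0
      rw [h0, Int.cast_zero] at hta
      rcases mul_eq_zero.1 hta.symm with h1 | h1
      · exact ht0 h1
      · exact hcq h1
    have hac0 : a - c ≠ 0 := by
      intro h0
      have h1 : (a : ℚ) = c := by exact_mod_cast sub_eq_zero.1 h0
      rw [hta] at h1
      have h2 : (t - 1) * c = 0 := by linear_combination h1
      rcases mul_eq_zero.1 h2 with h3 | h3
      · exact ht1 h3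
      · exact hcq h3
    have hRn : Rd y ≤ R (a.natAbs * c * (a - c).natAbs) * (D * zE.natAbs) := by
      refine R_le_mul ?_ ?_ ?_ ?_
      · exact Nat.mul_ne_zero (Nat.mul_ne_zero (Int.natAbs_ne_zero.2 ha0) hcpos.ne')
          (Int.natAbs_ne_zero.2 hac0)
      · exact Nat.mul_ne_zero hDpos.ne' (Int.natAbs_ne_zero.2 hzE)
      · exact Nat.mul_ne_zero (Nat.mul_ne_zero (Int.natAbs_ne_zero.2 hy0) y.pos.ne')
          (Int.natAbs_ne_zero.2 hy1)
      · intro ℓ hℓ hdv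
        have hℓ' : Prime (ℓ : ℤ) := Nat.prime_iff_prime_int.1 hℓ
        have h1 : (ℓ : ℤ) ∣ zF * zG * (zF - zG) := by
          have h2 : (ℓ : ℤ) ∣ y.num * y.den * (y.num - y.den) := by
            rw [← Int.dvd_natAbs]
            have : (y.num * y.den * (y.num - y.den)).natAbs =
                y.num.natAbs * y.den * (y.num - y.den).natAbs := by
              rw [Int.natAbs_mul, Int.natAbs_mul, Int.natAbs_natCast]
            rw [this]
            exact_mod_cast hdv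
          have h3 : zF * zG * (zF - zG) = g ^ 3 * (y.num * y.den * (y.num - y.den)) := by
            rw [hg1, hg2]
            ring
          rw [h3]
          exact Dvd.dvd.mul_left h2 _
        have h2 : (ℓ : ℤ) ∣ (D : ℤ) ^ 4 * (c : ℤ) ^ (3 * d + W.natDegree) * (a * (a - c) * zE) ^ N := by
          rw [← hid]
          exact Dvd.dvd.mul_right h1 _
        have h3 : (ℓ : ℤ) ∣ a * c * (a - c) * (D * zE) := by
          rcases hℓ'.dvd_or_dvd h2 with h4 | h4
          · rcases hℓ'.dvd_or_dvd h4 with h5 | h5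
            · exact (hℓ'.dvd_of_dvd_pow h5).trans ⟨a * c * (a - c) * zE, by ring⟩
            · exact (hℓ'.dvd_of_dvd_pow h5).trans ⟨a * (a - c) * (D * zE), by ring⟩
          · exact (hℓ'.dvd_of_dvd_pow h4).trans ⟨c * D, by ring⟩
        have h4 : (a * c * (a - c) * (D * zE)).natAbs =
            a.natAbs * c * (a - c).natAbs * (D * zE.natAbs) := by
          rw [Int.natAbs_mul, Int.natAbs_mul, Int.natAbs_mul, Int.natAbs_mul, Int.natAbs_natCast,
            Int.natAbs_natCast]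
        rw [← h4]
        exact Int.natCast_dvd.1 h3
    have hRd : R (a.natAbs * c * (a - c).natAbs) = Rd t := by
      rw [ha, hc]
      rfl
    rw [hRd] at hRn
    have h1 : (Rd y : ℝ) ≤ Rd t * (D * |(zE : ℝ)|) := by
      have h2 : ((Rd y : ℕ) : ℝ) ≤ ((Rd t * (D * zE.natAbs) : ℕ) : ℝ) := by exact_mod_cast hRn
      have h3 : ((zE.natAbs : ℕ) : ℝ) = |(zE : ℝ)| := by
        rw [Nat.cast_natAbs, Int.cast_abs]
      push_cast at h2
      rw [← h3]
      simpa using h2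
    calc (Rd y : ℝ) ≤ Rd t * (D * |(zE : ℝ)|) := h1
      _ ≤ Rd t * (D * (B7 * h ^ (d - 1))) := by gcongr
      _ ≤ Rd t * (D * ((B7 + 1) * h ^ (d - 1))) := by
        gcongr
        linarith
      _ = D * (B7 + 1) * Rd t * h ^ (d - 1) := by ring
  · -- the upper bound of the height
    have hg0 : g ≠ 0 := by
      rintro rfl
      rw [zero_mul] at hg2
      exact hzG hg2
    have hg1' : (1 : ℝ) ≤ |(g : ℝ)| := by
      have := Int.one_le_abs hg0
      exact_mod_cast this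
    have hup : H y ≤ max |(zF : ℝ)| |(zG : ℝ)| := by
      unfold H
      have h1 : (zF : ℝ) = g * (y.num : ℝ) := by exact_mod_cast hg1
      have h2 : (zG : ℝ) = g * (y.den : ℝ) := by exact_mod_cast hg2
      rw [h1, h2, abs_mul, abs_mul, Nat.abs_cast]
      refine max_le ?_ ?_
      · refine le_trans ?_ (le_max_left _ _)
        exact le_mul_of_one_le_left (abs_nonneg _) hg1'
      · refine le_trans ?_ (le_max_right _ _)
        exact le_mul_of_one_le_left (Nat.cast_nonneg _) hg1'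
    refine hup.trans (max_le (i1.trans ?_) (i2.trans ?_))
    · gcongr
      linarith
    · gcongr
      linarith
  · -- the primes
    intro ℓ hℓ hdv
    have hℓ' : Prime (ℓ : ℤ) := Nat.prime_iff_prime_int.1 hℓ
    by_cases hD' : ℓ ∣ M0 * M1 * M2 * D
    · exact Or.inr hD'
    left
    have n0 : ¬ ℓ ∣ M0 := fun h => hD' (((h.mul_right _).mul_right _).mul_right _)
    have n1 : ¬ ℓ ∣ M1 := fun h => hD' (((h.mul_left _).mul_right _).mul_right _)
    have n2 : ¬ ℓ ∣ M2 := fun h => hD' ((h.mul_left _).mul_right _)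
    have n3 : ¬ ℓ ∣ D := fun h => hD' (h.mul_left _)
    have hpr : (zF * zG * (zF - zG) : ℚ) = (D : ℚ) ^ 3 * (c : ℚ) ^ (3 * d) *
        (F * G * (F - G)).eval t := by
      rw [g1, g2, eval_mul, eval_mul, eval_sub]
      ring
    have key : (ℓ : ℤ) ∣ zF * zG * (zF - zG) → ℓ ∣ Tp y := by
      intro h1
      have h3 : zF * zG * (zF - zG) = g ^ 3 * (y.num * y.den * (y.num - y.den)) := by
        rw [hg1, hg2]
        ring
      rw [h3] at h1
      rcases hℓ'.dvd_or_dvd h1 with h4 | h4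
      · exfalso
        have h5 := (hℓ'.dvd_of_dvd_pow h4).trans hgD
        exact n3 (Int.natCast_dvd_natCast.1 (hℓ'.dvd_of_dvd_pow h5))
      · have : (y.num * y.den * (y.num - y.den)).natAbs = Tp y := by
          unfold Tp
          rw [Int.natAbs_mul, Int.natAbs_mul, Int.natAbs_natCast]
        rw [← this]
        exact Int.natCast_dvd.1 h4
    apply key
    -- the three cases
    have hdv' : (ℓ : ℤ) ∣ a * c * (a - c) := by
      have : (a * c * (a - c)).natAbs = Tp t := by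
        unfold Tp
        rw [Int.natAbs_mul, Int.natAbs_mul, Int.natAbs_natCast, ha, hc]
      rw [← this] at hdv
      exact Int.natCast_dvd.2 hdv
    have hnz : F * G * (F - G) ≠ 0 := hne
    rcases hℓ'.dvd_or_dvd hdv' with h5 | h5
    · rcases hℓ'.dvd_or_dvd h5 with h6 | h6
      · -- `ℓ ∣ a`
        have hQdeg : Q0.natDegree ≤ 3 * d - 1 := by
          have hq0 : Q0 ≠ 0 := by
            rintro rfl
            rw [mul_zero] at hQ0
            exact hnz hQ0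
          have h7 := natDegree_mul (X_ne_zero (R := ℚ)) hq0
          rw [← hQ0, natDegree_X] at h7
          omega
        obtain ⟨B0, -, f0⟩ := l0
        obtain ⟨z, hz, -⟩ := f0 _ hQdeg t
        rw [← hc] at hz
        have h8 : (M0 : ℤ) * (zF * zG * (zF - zG)) = (D : ℤ) ^ 3 * (a * z) := by
          have : (((M0 : ℤ) * (zF * zG * (zF - zG)) : ℤ) : ℚ) = (((D : ℤ) ^ 3 * (a * z) : ℤ) : ℚ) := by
            push_cast
            rw [hpr, hQ0, eval_mul, eval_X, hz, hta]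
            have h9 : (c : ℚ) ^ (3 * d) = c * (c : ℚ) ^ (3 * d - 1) := by
              rw [← pow_succ']
              congr 1
              omega
            rw [h9]
            ring
          exact_mod_cast this
        have h9 : (ℓ : ℤ) ∣ (M0 : ℤ) * (zF * zG * (zF - zG)) := by
          rw [h8]
          exact (h6.mul_right z).mul_left _
        rcases hℓ'.dvd_or_dvd h9 with h10 | h10
        · exact absurd (Int.natCast_dvd_natCast.1 h10) n0
        · exact h10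
      · -- `ℓ ∣ c`
        obtain ⟨B0, -, f0⟩ := l2
        obtain ⟨z, hz, -⟩ := f0 (3 * d - 1) (by omega) t
        rw [← hc] at hz
        have h8 : (M2 : ℤ) * (zF * zG * (zF - zG)) = (D : ℤ) ^ 3 * (c * z) := by
          have : (((M2 : ℤ) * (zF * zG * (zF - zG)) : ℤ) : ℚ) = (((D : ℤ) ^ 3 * (c * z) : ℤ) : ℚ) := by
            push_cast
            rw [hpr, hz]
            have h9 : (c : ℚ) ^ (3 * d) = c * (c : ℚ) ^ (3 * d - 1) := by
              rw [← pow_succ']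
              congr 1
              omega
            rw [h9]
            ring
          exact_mod_cast this
        have h9 : (ℓ : ℤ) ∣ (M2 : ℤ) * (zF * zG * (zF - zG)) := by
          rw [h8]
          exact (h6.mul_right z).mul_left _
        rcases hℓ'.dvd_or_dvd h9 with h10 | h10
        · exact absurd (Int.natCast_dvd_natCast.1 h10) n2
        · exact h10
    · -- `ℓ ∣ a - c`
      have hX1 : (X - 1 : ℚ[X]) = X - C 1 := by rw [C_1]
      have hQdeg : Q1.natDegree ≤ 3 * d - 1 := by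
        have hq0 : Q1 ≠ 0 := by
          rintro rfl
          rw [mul_zero] at hQ1
          exact hnz hQ1
        have h7 := natDegree_mul (X_sub_C_ne_zero (1 : ℚ)) hq0
        rw [← hX1, ← hQ1, hX1, natDegree_X_sub_C] at h7
        omega
      obtain ⟨B0, -, f0⟩ := l1
      obtain ⟨z, hz, -⟩ := f0 _ hQdeg t
      rw [← hc] at hz
      have h8 : (M1 : ℤ) * (zF * zG * (zF - zG)) = (D : ℤ) ^ 3 * ((a - c) * z) := by
        have : (((M1 : ℤ) * (zF * zG * (zF - zG)) : ℤ) : ℚ) =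
            (((D : ℤ) ^ 3 * ((a - c) * z) : ℤ) : ℚ) := by
          push_cast
          rw [hpr, hQ1, eval_mul, eval_sub, eval_X, eval_one, hz, hta]
          have h9 : (c : ℚ) ^ (3 * d) = c * (c : ℚ) ^ (3 * d - 1) := by
            rw [← pow_succ']
            congr 1
            omega
          rw [h9]
          ring
        exact_mod_cast this
      have h9 : (ℓ : ℤ) ∣ (M1 : ℤ) * (zF * zG * (zF - zG)) := by
        rw [h8]
        exact (h5.mul_right z).mul_left _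
      rcases hℓ'.dvd_or_dvd h9 with h10 | h10
      · exact absurd (Int.natCast_dvd_natCast.1 h10) n1
      · exact h10

/-- **the transfer of the inequality** -/
theorem transfer {F G : ℚ[X]} {d : ℕ} (hB : Bel F G d) {T T' : Set ℚ} (hT' : Ineq T')
    (h : ∀ t ∈ T, G.eval t ≠ 0 → F.eval t / G.eval t ∈ T') : Ineq T := by
  obtain ⟨C1, C2, hC1, hC2, C3, hC3, Δ, hΔ, Z, hZ, hv⟩ := values hB
  have hd := hB.hd
  have key : Ineq (T \ Z) := by
    intro ε hε
    obtain ⟨e, he⟩ : ∃ e : ℝ, e = (d - 1 : ℝ) := ⟨_, rfl⟩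
    have he0 : 0 ≤ e := by
      rw [he]
      have : (1 : ℝ) ≤ d := by exact_mod_cast hd
      linarith
    obtain ⟨δ, hδ⟩ : ∃ δ : ℝ, δ = ε / ((1 + ε) * e + 1) := ⟨_, rfl⟩
    have hden : 0 < (1 + ε) * e + 1 := by positivity
    have hδ0 : 0 < δ := by rw [hδ]; positivity
    have hδ1 : δ * ((1 + ε) * e + 1) = ε := by rw [hδ]; field_simp
    obtain ⟨η, hη⟩ : ∃ η : ℝ, η = 1 - e * δ := ⟨_, rfl⟩
    have hη1 : 1 + δ = (1 + ε) * η := by rw [hη]; linarith
    have hη0 : 0 < η := by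
      by_contra hcon
      push Not at hcon
      have : (1 + ε) * η ≤ 0 := mul_nonpos_of_nonneg_of_nonpos (by linarith) hcon
      linarith
    obtain ⟨C, hC⟩ := hT' δ hδ0
    refine ⟨(Real.log C1 + (1 + δ) * Real.log C2 + C) / η, fun t ht ht0 ht1 => ?_⟩
    obtain ⟨hG, hy0, hy1, hH, hR, -, -⟩ := hv t ht.2
    have h1 := hC _ (h t ht.1 hG) hy0 hy1
    obtain ⟨y, hy⟩ : ∃ y, y = F.eval t / G.eval t := ⟨_, rfl⟩
    rw [← hy] at h1 hH hR
    have hh := one_le_H t
    have hyy := one_le_H y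
    have hr := one_le_Rd t
    have hry := one_le_Rd y
    have k1 : d * Real.log (H t) ≤ Real.log C1 + Real.log (H y) := by
      rw [← Real.log_mul hC1.ne' (by positivity), ← Real.log_pow]
      exact Real.log_le_log (by positivity) hH
    have k2 : Real.log (Rd y) ≤ Real.log C2 + Real.log (Rd t) + e * Real.log (H t) := by
      have h2 := Real.log_le_log (by linarith) hR
      have h3 : Real.log (C2 * Rd t * H t ^ (d - 1)) =
          Real.log C2 + Real.log (Rd t) + (d - 1 : ℕ) * Real.log (H t) := by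
        rw [Real.log_mul (by positivity) (by positivity), Real.log_mul hC2.ne' (by positivity),
          Real.log_pow]
      rw [h3, Nat.cast_sub hd, Nat.cast_one, ← he] at h2
      exact h2
    have hde : (d : ℝ) = e + 1 := by rw [he]; ring
    obtain ⟨x, hx⟩ : ∃ x, x = Real.log (H t) := ⟨_, rfl⟩
    obtain ⟨r, hr'⟩ : ∃ r, r = Real.log (Rd t) := ⟨_, rfl⟩
    rw [← hx] at k1 k2 ⊢
    rw [← hr'] at k2 ⊢
    rw [hde] at k1
    have h5 : (1 + δ) * Real.log (Rd y) ≤ (1 + δ) * (Real.log C2 + r + e * x) := by gcongr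
    have h6 : η * x ≤ (1 + δ) * r + (Real.log C1 + (1 + δ) * Real.log C2 + C) := by
      rw [hη]
      nlinarith
    rw [hη1] at h6 ⊢
    have h7 : x = (η * x) / η := by field_simp
    rw [h7]
    calc η * x / η ≤ ((1 + ε) * η * r + (Real.log C1 + (1 + ε) * η * Real.log C2 + C)) / η := by
          gcongr
      _ = (1 + ε) * r + (Real.log C1 + (1 + ε) * η * Real.log C2 + C) / η := by
        field_simp
  refine (key.union (Ineq.finite hZ)).mono fun t ht => ?_
  by_cases h : t ∈ Z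
  · exact Or.inr h
  · exact Or.inl ⟨ht, h⟩

end Q265.LC
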