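import Pool.Agent.Q265.LC.A

/-! # Examples of Belyi maps, and the points at several places -/

set_option autoImplicit false

open Finset Polynomial Filter Topology

namespace Q265.LC

/-! ## Examples -/

lemma bel_one_sub : Bel (1 - X) 1 1 where
  hd := le_rfl
  cop := isCoprime_one_right
  hF := by
    refine (natDegree_sub_le _ _).trans (max_le ?_ ?_) <;> simp
  hG := by simp
  hFG := Or.inl (by
    have : (1 - X : ℚ[X]) = -(X - C 1) := by rw [C_1]; ring
    rw [this, natDegree_neg, natDegree_X_sub_C])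
  h0 := ⟨-(1 - X), by ring⟩
  h1 := ⟨X, by ring⟩
  hinf := by
    have : (1 - X : ℚ[X]) * 1 * (1 - X - 1) = C 1 * X ^ 2 + C (-1) * X + C 0 := by
      rw [C_0, C_neg, C_1]
      ring
    rw [this]
    exact lt_of_le_of_lt natDegree_quadratic_le (by norm_num)
  ex := by
    refine ⟨1, 1, by simp, one_ne_zero, ?_, ?_⟩
    · have h1 : (1 - X : ℚ[X]) ≠ 0 := by
        have : (1 - X : ℚ[X]) = -(X - C 1) := by rw [C_1]; ring
        rw [this]
        exact neg_ne_zero.2 (X_sub_C_ne_zero 1)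
      have h2 : (1 - X - 1 : ℚ[X]) ≠ 0 := by
        have : (1 - X - 1 : ℚ[X]) = -X := by ring
        rw [this]
        exact neg_ne_zero.2 X_ne_zero
      exact mul_ne_zero (mul_ne_zero h1 one_ne_zero) h2
    · exact ⟨1, by ring⟩

lemma bel_inv : Bel 1 X 1 where
  hd := le_rfl
  cop := isCoprime_one_left
  hF := by simp
  hG := by simp
  hFG := Or.inr (by simp)
  h0 := ⟨1 - X, by ring⟩
  h1 := ⟨-X, by ring⟩
  hinf := by
    have : (1 : ℚ[X]) * X * (1 - X) = C (-1) * X ^ 2 + C 1 * X + C 0 := by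
      rw [C_0, C_neg, C_1]
      ring
    rw [this]
    exact lt_of_le_of_lt natDegree_quadratic_le (by norm_num)
  ex := by
    refine ⟨1, 1, by simp, one_ne_zero, ?_, ?_⟩
    · have h1 : (1 - X : ℚ[X]) ≠ 0 := by
        have : (1 - X : ℚ[X]) = -(X - C 1) := by rw [C_1]; ring
        rw [this]
        exact neg_ne_zero.2 (X_sub_C_ne_zero 1)
      exact mul_ne_zero (mul_ne_zero one_ne_zero X_ne_zero) h1
    · exact ⟨-1, by ring⟩

lemma bel_pow {m : ℕ} (hm : 1 ≤ m) : Bel (X ^ m) 1 m where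
  hd := hm
  cop := isCoprime_one_right
  hF := by simp
  hG := by simp
  hFG := Or.inl (by simp)
  h0 := by
    refine Dvd.dvd.mul_right (Dvd.dvd.mul_right ?_ _) _
    exact dvd_pow_self _ (by omega)
  h1 := by
    refine Dvd.dvd.mul_left ?_ _
    rw [← geom_sum_mul X m]
    exact dvd_mul_left _ _
  hinf := by
    have h1 : (X ^ m - 1 : ℚ[X]).natDegree ≤ m := by
      refine (natDegree_sub_le _ _).trans (max_le ?_ ?_)
      · rw [natDegree_X_pow]
      · simp
    refine lt_of_le_of_lt natDegree_mul_le ?_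
    rw [mul_one, natDegree_X_pow]
    omega
  ex := by
    have hg : (∑ i ∈ range m, (X : ℚ[X]) ^ i) * (X - 1) = X ^ m - 1 := geom_sum_mul X m
    have hne : (X ^ m - 1 : ℚ[X]) ≠ 0 := by
      have := X_pow_sub_C_ne_zero (R := ℚ) hm 1
      rwa [C_1] at this
    have hS : (∑ i ∈ range m, (X : ℚ[X]) ^ i) ≠ 0 := by
      intro h
      rw [h, zero_mul] at hg
      exact hne hg.symm
    refine ⟨∑ i ∈ range m, X ^ i, m, ?_, hS, ?_, ?_⟩
    · refine natDegree_sum_le_of_forall_le _ _ fun i hi => ?_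
      rw [natDegree_X_pow]
      have := mem_range.1 hi
      omega
    · exact mul_ne_zero (mul_ne_zero (pow_ne_zero _ X_ne_zero) one_ne_zero) hne
    · obtain ⟨k, rfl⟩ : ∃ k, m = k + 1 := ⟨m - 1, by omega⟩
      rw [mul_one, show (X * (X - 1) * ∑ i ∈ range (k + 1), X ^ i : ℚ[X]) =
        X * ((∑ i ∈ range (k + 1), X ^ i) * (X - 1)) by ring, hg, mul_pow]
      exact mul_dvd_mul (dvd_refl _) (dvd_pow_self _ (by omega))

lemma bel_four : Bel (C 4 * X * (1 - X)) 1 2 where
  hd := by norm_num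
  cop := isCoprime_one_right
  hF := by
    have : (C 4 * X * (1 - X) : ℚ[X]) = C (-4) * X ^ 2 + C 4 * X + C 0 := by
      rw [C_0, C_neg]
      ring
    rw [this]
    exact natDegree_quadratic_le
  hG := by simp
  hFG := Or.inl (by
    have : (C 4 * X * (1 - X) : ℚ[X]) = C (-4) * X ^ 2 + C 4 * X + C 0 := by
      rw [C_0, C_neg]
      ring
    rw [this]
    exact natDegree_quadratic (by norm_num))
  h0 := ⟨C 4 * (1 - X) * (C 4 * X * (1 - X) - 1), by ring⟩
  h1 := ⟨-(C 4 * X) * (C 4 * X * (1 - X) - 1), by ring⟩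
  hinf := by
    have h1 : (C 4 * X * (1 - X) : ℚ[X]).natDegree ≤ 2 := by
      have : (C 4 * X * (1 - X) : ℚ[X]) = C (-4) * X ^ 2 + C 4 * X + C 0 := by
        rw [C_0, C_neg]
        ring
      rw [this]
      exact natDegree_quadratic_le
    have h2 : (C 4 * X * (1 - X) - 1 : ℚ[X]).natDegree ≤ 2 := by
      refine (natDegree_sub_le _ _).trans (max_le h1 ?_)
      simp
    refine lt_of_le_of_lt natDegree_mul_le ?_
    rw [mul_one]
    omega
  ex := by
    have h4 : (C 4 : ℚ[X]) = 4 := map_ofNat C 4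
    have h2 : (C 2 : ℚ[X]) = 2 := map_ofNat C 2
    have hE : (C 2 * X - 1 : ℚ[X]) ≠ 0 := by
      intro h
      have := congrArg (eval 0) h
      simp at this
    have h1 : (1 - X : ℚ[X]) ≠ 0 := by
      have : (1 - X : ℚ[X]) = -(X - C 1) := by rw [C_1]; ring
      rw [this]
      exact neg_ne_zero.2 (X_sub_C_ne_zero 1)
    have hid : (C 4 * X * (1 - X) - 1 : ℚ[X]) = -(C 2 * X - 1) ^ 2 := by
      rw [h4, h2]
      ring
    refine ⟨C 2 * X - 1, 2, ?_, hE, ?_, ?_⟩
    · have : (C 2 * X - 1 : ℚ[X]) = C 2 * X + C (-1) := by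
        rw [C_neg, C_1]
        ring
      rw [this]
      exact natDegree_linear_le
    · rw [hid, mul_one]
      exact mul_ne_zero (mul_ne_zero (mul_ne_zero (by rw [Ne, C_eq_zero]; norm_num) X_ne_zero) h1)
        (neg_ne_zero.2 (pow_ne_zero _ hE))
    · rw [hid]
      refine Dvd.intro (C (1 / 4) * (X * (X - 1))) ?_
      have h5 : (C 4 * C (1 / 4) : ℚ[X]) = 1 := by
        rw [← C_mul]
        norm_num
      linear_combination (X * (1 - X) * -(C 2 * X - 1) ^ 2 * (X * (X - 1))) * h5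

/-- the Belyi maps of the second kind -/
lemma bel_fr {p q : ℕ} (hp : 0 < p) (hpq : p < q) :
    Bel (X ^ (q - p) * (X - 1) ^ p) ((X - C ((p : ℚ) / q)) ^ q) q := by
  obtain ⟨r, hr⟩ : ∃ r : ℚ, r = (p : ℚ) / q := ⟨_, rfl⟩
  rw [← hr]
  have hq : (0 : ℚ) < q := by
    have : 0 < q := by omega
    exact_mod_cast this
  have hp' : (0 : ℚ) < p := by exact_mod_cast hp
  have hpq' : (p : ℚ) < q := by exact_mod_cast hpq
  have hr0 : r ≠ 0 := by rw [hr]; positivity
  have hr1 : r ≠ 1 := by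
    rw [hr]
    intro h
    rw [div_eq_one_iff_eq hq.ne'] at h
    linarith
  have hX1 : (X - 1 : ℚ[X]) = X - C 1 := by rw [C_1]
  have m1 : (X ^ (q - p) : ℚ[X]).Monic := monic_X_pow _
  have m2 : ((X - 1) ^ p : ℚ[X]).Monic := by rw [hX1]; exact (monic_X_sub_C 1).pow p
  have m3 : ((X - C r) ^ q : ℚ[X]).Monic := (monic_X_sub_C r).pow q
  have mF : (X ^ (q - p) * (X - 1) ^ p : ℚ[X]).Monic := m1.mul m2
  have dF : (X ^ (q - p) * (X - 1) ^ p : ℚ[X]).natDegree = q := by
    rw [m1.natDegree_mul m2, natDegree_X_pow, hX1, (monic_X_sub_C (1 : ℚ)).natDegree_pow,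
      natDegree_X_sub_C]
    omega
  have dG : ((X - C r) ^ q : ℚ[X]).natDegree = q := by
    rw [(monic_X_sub_C r).natDegree_pow, natDegree_X_sub_C, mul_one]
  have nF : (X ^ (q - p) * (X - 1) ^ p : ℚ[X]).nextCoeff = -p := by
    rw [m1.nextCoeff_mul m2, hX1, (monic_X_sub_C (1 : ℚ)).nextCoeff_pow, monic_X.nextCoeff_pow,
      nextCoeff_X_sub_C]
    have : (X : ℚ[X]).nextCoeff = 0 := by
      have := nextCoeff_X_add_C (0 : ℚ)
      rwa [C_0, add_zero] at this
    rw [this]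
    simp
  have nG : ((X - C r) ^ q : ℚ[X]).nextCoeff = -p := by
    rw [(monic_X_sub_C r).nextCoeff_pow, nextCoeff_X_sub_C, nsmul_eq_mul, hr]
    field_simp
  obtain ⟨F, hF⟩ : ∃ F : ℚ[X], F = X ^ (q - p) * (X - 1) ^ p := ⟨_, rfl⟩
  obtain ⟨G, hG⟩ : ∃ G : ℚ[X], G = (X - C r) ^ q := ⟨_, rfl⟩
  rw [← hF] at mF dF nF ⊢
  rw [← hG] at m3 dG nG ⊢
  have hFr : F.eval r ≠ 0 := by
    rw [hF]
    simp only [eval_mul, eval_pow, eval_X, eval_sub, eval_one]
    exact mul_ne_zero (pow_ne_zero _ hr0) (pow_ne_zero _ (sub_ne_zero.2 hr1))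
  have hGr : G.eval r = 0 := by
    rw [hG]
    simp only [eval_pow, eval_X, eval_sub, eval_C, sub_self]
    exact zero_pow (by omega)
  have hFG : F - G ≠ 0 := by
    intro h
    have := congrArg (eval r) h
    rw [eval_sub, hGr, sub_zero, eval_zero] at this
    exact hFr this
  have hdeg : (F - G).natDegree ≤ q - 2 := by
    rw [natDegree_le_iff_coeff_eq_zero]
    intro n hn
    rw [coeff_sub]
    rcases lt_trichotomy n q with h | h | h
    · have hn' : n = q - 1 := by omega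
      have c1 : F.coeff n = -p := by
        rw [← nF, nextCoeff_of_natDegree_pos (by omega), dF, hn']
      have c2 : G.coeff n = -p := by
        rw [← nG, nextCoeff_of_natDegree_pos (by omega), dG, hn']
      rw [c1, c2, sub_self]
    · have c1 : F.coeff n = 1 := by
        have := mF.coeff_natDegree
        rwa [dF, ← h] at this
      have c2 : G.coeff n = 1 := by
        have := m3.coeff_natDegree
        rwa [dG, ← h] at this
      rw [c1, c2, sub_self]
    · rw [coeff_eq_zero_of_natDegree_lt (by omega), coeff_eq_zero_of_natDegree_lt (by omega),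
        sub_self]
  refine ⟨by omega, ?_, dF.le, dG.le, Or.inl dF, ?_, ?_, ?_,
    (X - C r) * (F - G), q, ?_, ?_, ?_, ?_⟩
  rotate_left
  · rw [hF]
    exact Dvd.dvd.mul_right (Dvd.dvd.mul_right (Dvd.dvd.mul_right (dvd_pow_self _ (by omega)) _) _) _
  · rw [hF]
    exact Dvd.dvd.mul_right (Dvd.dvd.mul_right (Dvd.dvd.mul_left (dvd_pow_self _ (by omega)) _) _) _
  · refine lt_of_le_of_lt natDegree_mul_le ?_
    have := natDegree_mul_le (p := F) (q := G)
    omega
  rotate_right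
  · rw [hF, hG]
    have k1 : IsCoprime (X : ℚ[X]) (X - C r) := by
      have := isCoprime_X_sub_C_of_isUnit_sub (R := ℚ) (a := 0) (b := r)
        (sub_ne_zero.2 (Ne.symm hr0)).isUnit
      rwa [C_0, sub_zero] at this
    have k2 : IsCoprime (X - 1 : ℚ[X]) (X - C r) := by
      rw [hX1]
      exact isCoprime_X_sub_C_of_isUnit_sub (sub_ne_zero.2 (Ne.symm hr1)).isUnit
    exact (IsCoprime.pow k1).mul_left (IsCoprime.pow k2)
  · refine natDegree_mul_le.trans ?_
    rw [natDegree_X_sub_C]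
    omega
  · exact mul_ne_zero (X_sub_C_ne_zero r) hFG
  · exact mul_ne_zero (mul_ne_zero mF.ne_zero m3.ne_zero) hFG
  · have e1 : (X * (X - 1) * ((X - C r) * (F - G)) : ℚ[X]) ^ q =
        (X ^ q * (X - 1) ^ q) * (X - C r) ^ q * (F - G) ^ q := by
      rw [mul_pow, mul_pow, mul_pow, mul_assoc (X ^ q * (X - 1) ^ q)]
    rw [e1]
    refine mul_dvd_mul (mul_dvd_mul ?_ ?_) (dvd_pow_self _ (by omega))
    · rw [hF]
      exact mul_dvd_mul (pow_dvd_pow _ (by omega)) (pow_dvd_pow _ (by omega))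
    · rw [hG]

/-! ## The inequalities -/

/-- the properties of an inequality for rational numbers which are used -/
structure IsTr (I : Set ℚ → Prop) : Prop where
  mono : ∀ {T T' : Set ℚ}, I T' → T ⊆ T' → I T
  union : ∀ {T T' : Set ℚ}, I T → I T' → I (T ∪ T')
  fin : ∀ {T : Set ℚ}, T.Finite → I T
  tr : ∀ {F G : ℚ[X]} {d : ℕ}, Bel F G d → ∀ {T T' : Set ℚ}, I T' →
    (∀ t ∈ T, G.eval t ≠ 0 → F.eval t / G.eval t ∈ T') → I T

/-- the abc inequality has these properties -/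
theorem isTr_abc : IsTr Ineq where
  mono := fun h hs => h.mono hs
  union := fun h h' => h.union h'
  fin := fun h => Ineq.finite h
  tr := fun hB => transfer hB

/-! ## Points -/

variable {ι : Type} (P : ι → ℕ) [∀ i, Fact (P i).Prime]

/-- the points of the product of the completions -/
abbrev Pt : Type := ℝ × (∀ i, ℚ_[P i])

/-- a rational number as a point -/
noncomputable def emb (t : ℚ) : Pt P := ((t : ℝ), fun _ => (t : ℚ_[_]))

variable {P}

variable {I : Set ℚ → Prop}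

variable (I) in
/-- the points near which the inequality holds -/
def Good (x : Pt P) : Prop := ∃ U ∈ 𝓝 x, I {t | emb P t ∈ U}

lemma Good.eventually {x : Pt P} (h : Good I x) : ∀ᶠ y in 𝓝 x, Good I y := by
  obtain ⟨U, hU, h⟩ := h
  filter_upwards [eventually_eventually_nhds.2 hU] with y hy
  exact ⟨U, hy, h⟩

/-- the value of `F / G` at a point -/
noncomputable def app (F G : ℚ[X]) (x : Pt P) : Pt P :=
  (aeval x.1 F / aeval x.1 G, fun i => aeval (x.2 i) F / aeval (x.2 i) G)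

lemma app_emb (F G : ℚ[X]) (t : ℚ) : app F G (emb P t) = emb P (F.eval t / G.eval t) := by
  unfold app emb
  have h1 : ∀ Q : ℚ[X], aeval ((t : ℚ) : ℝ) Q = ((Q.eval t : ℚ) : ℝ) := fun Q => by
    have := aeval_algebraMap_apply ℝ t Q
    simpa using this
  have h2 : ∀ i, ∀ Q : ℚ[X], aeval ((t : ℚ) : ℚ_[P i]) Q = ((Q.eval t : ℚ) : ℚ_[P i]) :=
    fun i Q => by
      have := aeval_algebraMap_apply ℚ_[P i] t Q
      simpa using this
  refine Prod.ext ?_ (funext fun i => ?_)
  · show aeval ((t : ℚ) : ℝ) F / aeval ((t : ℚ) : ℝ) G = ((F.eval t / G.eval t : ℚ) : ℝ)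
    rw [h1, h1, Rat.cast_div]
  · show aeval ((t : ℚ) : ℚ_[P i]) F / aeval ((t : ℚ) : ℚ_[P i]) G =
      ((F.eval t / G.eval t : ℚ) : ℚ_[P i])
    rw [h2, h2, Rat.cast_div]

/-- the denominator does not vanish -/
def NZ (G : ℚ[X]) (x : Pt P) : Prop := aeval x.1 G ≠ 0 ∧ ∀ i, aeval (x.2 i) G ≠ 0

lemma cont_app (F G : ℚ[X]) {x : Pt P} (hx : NZ G x) : ContinuousAt (app F G) x := by
  unfold app
  have h1 : ∀ Q : ℚ[X], Continuous fun y : Pt P => aeval y.1 Q := fun Q =>
    (Polynomial.continuous_aeval Q).comp continuous_fst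
  have h2 : ∀ i, ∀ Q : ℚ[X], Continuous fun y : Pt P => aeval (y.2 i) Q := fun i Q =>
    (Polynomial.continuous_aeval Q).comp ((continuous_apply i).comp continuous_snd)
  refine ContinuousAt.prodMk ?_ ?_
  · exact (h1 F).continuousAt.div (h1 G).continuousAt hx.1
  · rw [continuousAt_pi]
    intro i
    exact (h2 i F).continuousAt.div (h2 i G).continuousAt (hx.2 i)

theorem Good.pull (hI : IsTr I) {F G : ℚ[X]} {d : ℕ} (hB : Bel F G d) {x : Pt P} (hx : NZ G x)
    (h : Good I (app F G x)) : Good I x := by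
  obtain ⟨U, hU, h⟩ := h
  refine ⟨app F G ⁻¹' U, cont_app F G hx hU, hI.tr hB h fun t ht _ => ?_⟩
  rw [Set.mem_ofPred_eq, Set.mem_preimage, app_emb] at ht
  exact ht

theorem good_one_sub (hI : IsTr I) {x : Pt P} (h : Good I (1 - x)) : Good I x := by
  refine Good.pull hI bel_one_sub ⟨by simp, fun i => by simp⟩ ?_
  have : app (1 - X) 1 x = 1 - x := by
    unfold app
    refine Prod.ext ?_ (funext fun i => ?_)
    · simp
    · simp
  rwa [this]

theorem good_one_sub' (hI : IsTr I) {x : Pt P} (h : Good I x) : Good I (1 - x) :=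
  good_one_sub hI (by rwa [sub_sub_cancel])

theorem good_inv (hI : IsTr I) {x : Pt P} (h0 : x.1 ≠ 0) (hi : ∀ i, x.2 i ≠ 0) (h : Good I x⁻¹) : Good I x := by
  refine Good.pull hI bel_inv ⟨by simpa using h0, fun i => by simpa using hi i⟩ ?_
  have : app 1 X x = x⁻¹ := by
    unfold app
    refine Prod.ext ?_ (funext fun i => ?_)
    · simp
    · simp
  rwa [this]

theorem good_inv' (hI : IsTr I) {x : Pt P} (h0 : x.1 ≠ 0) (hi : ∀ i, x.2 i ≠ 0) (h : Good I x) : Good I x⁻¹ :=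
  good_inv hI (by simpa using h0) (fun i => by simpa using hi i) (by rwa [inv_inv])

theorem good_pow (hI : IsTr I) {x : Pt P} {m : ℕ} (hm : 1 ≤ m) (h : Good I (x ^ m)) : Good I x := by
  refine Good.pull hI (bel_pow hm) ⟨by simp, fun i => by simp⟩ ?_
  have : app (X ^ m) 1 x = x ^ m := by
    unfold app
    refine Prod.ext ?_ (funext fun i => ?_)
    · simp
    · simp
  rwa [this]

theorem good_four (hI : IsTr I) {x : Pt P} (h : Good I (4 * x * (1 - x))) : Good I x := by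
  refine Good.pull hI bel_four ⟨by simp, fun i => by simp⟩ ?_
  have : app (C 4 * X * (1 - X)) 1 x = 4 * x * (1 - x) := by
    unfold app
    refine Prod.ext ?_ (funext fun i => ?_)
    · simp
    · simp
  rwa [this]

theorem good_fr (hI : IsTr I) {x : Pt P} {p q : ℕ} (hp : 0 < p) (hpq : p < q)
    (h0 : x.1 ≠ (p : ℝ) / q) (hi : ∀ i, x.2 i ≠ (p : ℚ_[P i]) / q)
    (h : Good I ((x.1 ^ (q - p) * (x.1 - 1) ^ p / (x.1 - p / q) ^ q,
      fun i => x.2 i ^ (q - p) * (x.2 i - 1) ^ p / (x.2 i - p / q) ^ q) : Pt P)) : Good I x := by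
  refine Good.pull hI (bel_fr hp hpq) ⟨?_, fun i => ?_⟩ ?_
  · simp only [map_pow, map_sub, aeval_X, aeval_C, map_div₀, map_natCast]
    exact pow_ne_zero _ (sub_ne_zero.2 h0)
  · simp only [map_pow, map_sub, aeval_X, aeval_C, map_div₀, map_natCast]
    exact pow_ne_zero _ (sub_ne_zero.2 (hi i))
  · convert h using 1
    unfold app
    refine Prod.ext ?_ (funext fun i => ?_)
    · simp
    · simp

/-! ## General maps and filters -/

variable (I) in
/-- the inequality can be pulled back along `g` -/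
def Tra (g : ℚ → ℚ) : Prop := ∀ T' : Set ℚ, I T' → I (g ⁻¹' T')

lemma Tra.of_bel (hI : IsTr I) {F G : ℚ[X]} {d : ℕ} (hB : Bel F G d) :
    Tra I fun t => F.eval t / G.eval t := fun _ hT' => hI.tr hB hT' fun _ ht _ => ht

lemma Tra.comp {g g' : ℚ → ℚ} (h : Tra I g) (h' : Tra I g') : Tra I (g' ∘ g) :=
  fun T' hT' => h _ (h' T' hT')

lemma Tra.congr {g g' : ℚ → ℚ} (h : Tra I g) (h' : ∀ t, g t = g' t) : Tra I g' := by
  have : g = g' := funext h'
  rwa [this] at h

lemma tra_one_sub (hI : IsTr I) : Tra I fun t => 1 - t :=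
  (Tra.of_bel hI bel_one_sub).congr fun t => by simp

lemma tra_inv (hI : IsTr I) : Tra I fun t => t⁻¹ :=
  (Tra.of_bel hI bel_inv).congr fun t => by simp

lemma tra_pow (hI : IsTr I) {m : ℕ} (hm : 1 ≤ m) : Tra I fun t => t ^ m :=
  (Tra.of_bel hI (bel_pow hm)).congr fun t => by simp

lemma tra_four (hI : IsTr I) : Tra I fun t => 4 * t * (1 - t) :=
  (Tra.of_bel hI bel_four).congr fun t => by simp

lemma tra_fr (hI : IsTr I) {p q : ℕ} (hp : 0 < p) (hpq : p < q) :
    Tra I fun t => t ^ (q - p) * (t - 1) ^ p / (t - p / q) ^ q :=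
  (Tra.of_bel hI (bel_fr hp hpq)).congr fun t => by simp

variable (I) in
/-- the inequality holds near a point given by filters -/
def GoodF (L : Filter ℝ) (M : ∀ i, Filter ℚ_[P i]) : Prop :=
  ∃ U ∈ L ×ˢ Filter.pi M, I {t | emb P t ∈ U}

lemma Good.goodF {x : Pt P} (h : Good I x) : GoodF I (𝓝 x.1) fun i => 𝓝 (x.2 i) := by
  obtain ⟨U, hU, h⟩ := h
  refine ⟨U, ?_, h⟩
  rw [← nhds_pi, ← nhds_prod_eq]
  exact hU

theorem GoodF.pull {g : ℚ → ℚ} (hg : Tra I g) {gr : ℝ → ℝ} {gp : ∀ i, ℚ_[P i] → ℚ_[P i]}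
    (hcr : ∀ t : ℚ, gr t = g t) (hcp : ∀ i, ∀ t : ℚ, gp i t = g t) {L L' : Filter ℝ}
    {M M' : ∀ i, Filter ℚ_[P i]} (hr : Tendsto gr L L') (hp : ∀ i, Tendsto (gp i) (M i) (M' i))
    (h : GoodF I L' M') : GoodF I L M := by
  obtain ⟨U, hU, h⟩ := h
  obtain ⟨Φ, hΦ⟩ : ∃ Φ : Pt P → Pt P, Φ = fun x => (gr x.1, fun i => gp i (x.2 i)) := ⟨_, rfl⟩
  have ht : Tendsto Φ (L ×ˢ Filter.pi M) (L' ×ˢ Filter.pi M') := by
    rw [hΦ]
    refine (hr.comp tendsto_fst).prodMk ?_
    rw [tendsto_pi]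
    intro i
    exact (hp i).comp ((tendsto_eval_pi M i).comp tendsto_snd)
  refine ⟨Φ ⁻¹' U, ht hU, ?_⟩
  have e : {t | emb P t ∈ Φ ⁻¹' U} = g ⁻¹' {t | emb P t ∈ U} := by
    ext t
    rw [Set.mem_ofPred_eq, Set.mem_preimage, Set.mem_preimage, Set.mem_ofPred_eq]
    have : Φ (emb P t) = emb P (g t) := by
      rw [hΦ]
      exact Prod.ext (hcr t) (funext fun i => hcp i t)
    rw [this]
  rw [e]
  exact hg _ h

end Q265.LC
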