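import Mathlib

/-! # Powers of p-adic numbers and weak approximation -/

set_option autoImplicit false

open Finset Filter Topology

namespace Q265.LC

section one

variable {p : ℕ} [hp : Fact p.Prime]

lemma nadd {x y : ℚ_[p]} {r : ℝ} (hx : ‖x‖ ≤ r) (hy : ‖y‖ ≤ r) : ‖x + y‖ ≤ r :=
  (Padic.nonarchimedean x y).trans (max_le hx hy)

lemma nsub {x y : ℚ_[p]} {r : ℝ} (hx : ‖x‖ ≤ r) (hy : ‖y‖ ≤ r) : ‖x - y‖ ≤ r := by
  rw [sub_eq_add_neg]
  exact nadd hx (by rwa [norm_neg])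

lemma nat_le_one (n : ℕ) : ‖(n : ℚ_[p])‖ ≤ 1 := by
  have := Padic.norm_int_le_one (p := p) n
  simpa using this

lemma one_add_le {u : ℚ_[p]} (hu : ‖u‖ ≤ 1) : ‖1 + u‖ ≤ 1 := nadd norm_one.le hu

lemma one_add_eq {u : ℚ_[p]} (hu : ‖u‖ < 1) : ‖1 + u‖ = 1 := by
  have h := Padic.add_eq_max_of_ne (p := p) (q := 1) (r := u) (by rw [norm_one]; exact hu.ne')
  rw [h, norm_one, max_eq_left hu.le]

lemma pow_sub_lin {u : ℚ_[p]} (hu : ‖u‖ ≤ 1) (n : ℕ) : ‖(1 + u) ^ n - 1 - n * u‖ ≤ ‖u‖ ^ 2 := by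
  induction n with
  | zero => simp
  | succ n ih =>
    have e : (1 + u) ^ (n + 1) - 1 - ((n + 1 : ℕ) : ℚ_[p]) * u =
        ((1 + u) ^ n - 1 - n * u) * (1 + u) + n * u ^ 2 := by
      push_cast
      ring
    rw [e]
    refine nadd ?_ ?_
    · rw [norm_mul]
      calc _ ≤ ‖u‖ ^ 2 * 1 := mul_le_mul ih (one_add_le hu) (norm_nonneg _) (by positivity)
        _ = _ := mul_one _
    · rw [norm_mul, norm_pow]
      calc _ ≤ 1 * ‖u‖ ^ 2 := by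
            gcongr
            exact nat_le_one n
        _ = _ := one_mul _

lemma pow_sub_one_le {u : ℚ_[p]} (hu : ‖u‖ ≤ 1) (n : ℕ) : ‖(1 + u) ^ n - 1‖ ≤ ‖u‖ := by
  have e : (1 + u) ^ n - 1 = ((1 + u) ^ n - 1 - n * u) + n * u := by ring
  rw [e]
  refine nadd ((pow_sub_lin hu n).trans ?_) ?_
  · rw [sq]
    exact mul_le_of_le_one_left (norm_nonneg _) hu
  · rw [norm_mul]
    exact mul_le_of_le_one_left (norm_nonneg _) (nat_le_one n)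

lemma p_pos : (0 : ℝ) < p := by exact_mod_cast hp.out.pos

lemma two_le_p : (2 : ℝ) ≤ p := by exact_mod_cast hp.out.two_le

/-- the norm of a power minus one -/
lemma lin_norm {u : ℚ_[p]} {n : ℕ} (h : ‖u‖ ^ 2 < ‖(n : ℚ_[p])‖ * ‖u‖) (hu : ‖u‖ ≤ 1) :
    ‖(1 + u) ^ n - 1‖ = ‖(n : ℚ_[p])‖ * ‖u‖ := by
  have e : (1 + u) ^ n - 1 = ((1 + u) ^ n - 1 - n * u) + n * u := by ring
  have h1 := pow_sub_lin hu n
  have h2 : ‖(1 + u) ^ n - 1 - n * u‖ < ‖(n : ℚ_[p]) * u‖ := by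
    rw [norm_mul]
    exact h1.trans_lt h
  rw [e, Padic.add_eq_max_of_ne h2.ne, max_eq_right h2.le, norm_mul]

lemma unit_mult {u : ℚ_[p]} (hu0 : u ≠ 0) (hu : ‖u‖ < 1) {m : ℕ} (hm : ¬ p ∣ m) :
    ‖(1 + u) ^ m - 1‖ = ‖u‖ := by
  have h1 : ‖(m : ℚ_[p])‖ = 1 := by
    rw [Padic.norm_natCast_eq_one_iff]
    exact (Nat.Prime.coprime_iff_not_dvd hp.out).2 hm
  have h2 : 0 < ‖u‖ := norm_pos_iff.2 hu0
  rw [lin_norm (by rw [h1]; nlinarith) hu.le, h1, one_mul]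

lemma lte {u : ℚ_[p]} (hu0 : u ≠ 0) (hu : ‖u‖ ≤ ((p : ℝ) ^ 2)⁻¹) :
    ‖(1 + u) ^ p - 1‖ = ‖u‖ / p := by
  have h2 : 0 < ‖u‖ := norm_pos_iff.2 hu0
  have hp0 := p_pos (p := p)
  have hp2 := two_le_p (p := p)
  have h3 : ((p : ℝ) ^ 2)⁻¹ < (p : ℝ)⁻¹ := by
    rw [inv_lt_inv₀ (by positivity) hp0]
    nlinarith
  have h4 : ((p : ℝ))⁻¹ ≤ 1 := inv_le_one_of_one_le₀ (by linarith)
  have h5 : ‖u‖ ≤ 1 := by linarith
  rw [lin_norm ?_ h5, Padic.norm_p]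
  · field_simp
  · rw [Padic.norm_p]
    nlinarith

lemma lte_pow {u : ℚ_[p]} (hu0 : u ≠ 0) (hu : ‖u‖ ≤ ((p : ℝ) ^ 2)⁻¹) (j : ℕ) :
    ‖(1 + u) ^ (p ^ j) - 1‖ = ‖u‖ / p ^ j := by
  induction j with
  | zero => simp
  | succ j ih =>
    have hp0 := p_pos (p := p)
    have hp2 := two_le_p (p := p)
    have h2 : 0 < ‖u‖ := norm_pos_iff.2 hu0
    obtain ⟨v, hv⟩ : ∃ v, v = (1 + u) ^ (p ^ j) - 1 := ⟨_, rfl⟩
    rw [← hv] at ih
    have hv0 : v ≠ 0 := by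
      intro h
      rw [h, norm_zero] at ih
      have : 0 < ‖u‖ / p ^ j := by positivity
      linarith
    have hv1 : ‖v‖ ≤ ((p : ℝ) ^ 2)⁻¹ := by
      rw [ih]
      refine le_trans ?_ hu
      exact div_le_self h2.le (one_le_pow₀ (by linarith))
    have e : (1 + u) ^ (p ^ (j + 1)) = (1 + v) ^ p := by
      rw [hv, pow_succ, pow_mul]
      congr 1
      ring
    rw [e, lte hv0 hv1, ih, pow_succ]
    field_simp

lemma periodic {u : ℚ_[p]} (hu0 : u ≠ 0) (hu : ‖u‖ ≤ ((p : ℝ) ^ 2)⁻¹) (j n s : ℕ)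
    (hs : p ^ j ∣ s) : ‖(1 + u) ^ (n + s) - (1 + u) ^ n‖ ≤ ‖u‖ / p ^ j := by
  obtain ⟨k, rfl⟩ := hs
  have hp0 := p_pos (p := p)
  have hp2 := two_le_p (p := p)
  have hu1 : ‖u‖ ≤ 1 := by
    refine hu.trans (inv_le_one_of_one_le₀ ?_)
    exact one_le_pow₀ (by linarith)
  obtain ⟨v, hv⟩ : ∃ v, v = (1 + u) ^ (p ^ j) - 1 := ⟨_, rfl⟩
  have hv1 : ‖v‖ = ‖u‖ / p ^ j := by rw [hv]; exact lte_pow hu0 hu j
  have e : (1 + u) ^ (n + p ^ j * k) - (1 + u) ^ n = (1 + u) ^ n * ((1 + v) ^ k - 1) := by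
    have : (1 + v) = (1 + u) ^ (p ^ j) := by rw [hv]; ring
    rw [this, ← pow_mul, pow_add]
    ring
  have hv2 : ‖v‖ ≤ 1 := by
    rw [hv1]
    exact (div_le_self (norm_nonneg _) (one_le_pow₀ (by linarith))).trans hu1
  rw [e, norm_mul, norm_pow, ← hv1]
  calc ‖1 + u‖ ^ n * ‖(1 + v) ^ k - 1‖ ≤ 1 * ‖v‖ := by
        refine mul_le_mul (pow_le_one₀ (norm_nonneg _) (one_add_le hu1)) (pow_sub_one_le hv2 k)
          (norm_nonneg _) zero_le_one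
    _ = ‖v‖ := one_mul _

lemma nat_near {c : ℚ_[p]} (hc : ‖c‖ ≤ 1) {δ : ℝ} (hδ : 0 < δ) : ∃ k : ℕ, ‖c - k‖ < δ := by
  obtain ⟨x, hx⟩ : ∃ x : ℤ_[p], (x : ℚ_[p]) = c := ⟨⟨c, hc⟩, rfl⟩
  obtain ⟨n, hn⟩ := PadicInt.denseRange_natCast.exists_dist_lt x hδ
  refine ⟨n, ?_⟩
  rw [dist_eq_norm, PadicInt.norm_def] at hn
  rw [← hx]
  simpa using hn

/-- **the powers of `1 + u` are dense** -/
lemma dens {u β : ℚ_[p]} (hu0 : u ≠ 0) (hu : ‖u‖ ≤ ((p : ℝ) ^ 2)⁻¹) (hβ : ‖β - 1‖ ≤ ‖u‖) (j : ℕ) :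
    ∃ n : ℕ, ‖(1 + u) ^ n - β‖ ≤ ‖u‖ / p ^ j := by
  have hp0 := p_pos (p := p)
  have hp2 := two_le_p (p := p)
  have h2 : 0 < ‖u‖ := norm_pos_iff.2 hu0
  have hu1 : ‖u‖ < 1 := by
    refine hu.trans_lt (inv_lt_one_of_one_lt₀ ?_)
    nlinarith
  induction j with
  | zero =>
    refine ⟨0, ?_⟩
    rw [pow_zero, pow_zero, div_one, ← norm_neg, neg_sub]
    exact hβ
  | succ j ih =>
    obtain ⟨n, hn⟩ := ih
    obtain ⟨v, hv⟩ : ∃ v, v = (1 + u) ^ (p ^ j) - 1 := ⟨_, rfl⟩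
    have hv1 : ‖v‖ = ‖u‖ / p ^ j := by rw [hv]; exact lte_pow hu0 hu j
    have hv0 : 0 < ‖v‖ := by rw [hv1]; positivity
    have hv0' : v ≠ 0 := norm_pos_iff.1 hv0
    have hone : ‖1 + u‖ = 1 := one_add_eq hu1
    have hone' : (1 + u) ≠ 0 := by
      intro h
      rw [h, norm_zero] at hone
      exact zero_ne_one hone
    have hn0 : (1 + u) ^ n ≠ 0 := pow_ne_zero _ hone'
    obtain ⟨g, hg⟩ : ∃ g, g = (β - (1 + u) ^ n) / (1 + u) ^ n := ⟨_, rfl⟩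
    have hg1 : ‖g‖ ≤ ‖v‖ := by
      rw [hg, norm_div, norm_pow, hone, one_pow, div_one, ← norm_neg, neg_sub, hv1]
      exact hn
    have hc : ‖g / v‖ ≤ 1 := by
      rw [norm_div]
      exact div_le_one_of_le₀ hg1 hv0.le
    obtain ⟨k, hk⟩ := nat_near hc one_pos
    have hk' : ‖g / v - k‖ ≤ (p : ℝ)⁻¹ := by
      have := (Padic.norm_le_pow_iff_norm_lt_pow_add_one (g / v - (k : ℚ_[p])) (-1)).2
        (by simpa using hk)
      simpa using this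
    refine ⟨n + p ^ j * k, ?_⟩
    have e : (1 + u) ^ (n + p ^ j * k) - β =
        (1 + u) ^ n * (((1 + v) ^ k - 1 - k * v) - (g / v - k) * v) := by
      have e1 : (1 + v) = (1 + u) ^ (p ^ j) := by rw [hv]; ring
      have e2 : β = (1 + u) ^ n * (1 + g) := by
        rw [hg]
        field_simp
        ring
      rw [e1, ← pow_mul, pow_add]
      rw [e2]
      field_simp
      ring
    have hv2 : ‖v‖ ≤ ((p : ℝ) ^ 2)⁻¹ := by
      rw [hv1]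
      refine le_trans ?_ hu
      exact div_le_self h2.le (one_le_pow₀ (by linarith))
    have h3 : ((p : ℝ) ^ 2)⁻¹ ≤ (p : ℝ)⁻¹ := by
      rw [inv_le_inv₀ (by positivity) hp0]
      nlinarith
    have h4 : ((p : ℝ))⁻¹ ≤ 1 := inv_le_one_of_one_le₀ (by linarith)
    rw [e, norm_mul, norm_pow, hone, one_pow, one_mul]
    have e3 : ‖u‖ / (p : ℝ) ^ (j + 1) = (p : ℝ)⁻¹ * ‖v‖ := by
      rw [hv1, pow_succ]
      field_simp
    rw [e3]
    refine nsub ((pow_sub_lin (by linarith) k).trans ?_) ?_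
    · rw [sq]
      gcongr
      linarith
    · rw [norm_mul]
      gcongr

end one

section many

variable {ι : Type} [Fintype ι] {P : ι → ℕ} [∀ i, Fact (P i).Prime]

lemma crt (hP : Function.Injective P) (j : ℕ) (a : ι → ℕ) : ∃ n, n ≤ ∏ i, P i ^ j ∧
    ∀ i, n ≡ a i [MOD P i ^ j] := by
  classical
  have hs : ∀ i ∈ (univ : Finset ι), P i ^ j ≠ 0 := fun i _ =>
    pow_ne_zero _ (Fact.out (p := (P i).Prime)).ne_zero
  have pp : Set.Pairwise (univ : Finset ι) (Function.onFun Nat.Coprime fun i => P i ^ j) := by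
    intro i _ k _ hik
    refine Nat.Coprime.pow _ _ ?_
    exact (Nat.coprime_primes Fact.out Fact.out).2 fun h => hik (hP h)
  obtain ⟨k, hk⟩ : ∃ k, k = Nat.chineseRemainderOfFinset a (fun i => P i ^ j) univ hs pp := ⟨_, rfl⟩
  refine ⟨k, ?_, fun i => ?_⟩
  · rw [hk]
    exact (Nat.chineseRemainderOfFinset_lt_prod a (fun i => P i ^ j) hs pp).le
  · rw [hk]
    exact (Nat.chineseRemainderOfFinset a (fun i => P i ^ j) univ hs pp).2 i (mem_univ i)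

/-- simultaneous density of the powers -/
lemma simul (hP : Function.Injective P) (j : ℕ) (u β : ∀ i, ℚ_[P i]) (hu0 : ∀ i, u i ≠ 0)
    (hu : ∀ i, ‖u i‖ ≤ ((P i : ℝ) ^ 2)⁻¹) (hβ : ∀ i, ‖β i - 1‖ ≤ ‖u i‖) :
    ∃ n, n ≤ ∏ i, P i ^ j ∧ ∀ k, ∀ i,
      ‖(1 + u i) ^ (n + k * ∏ i, P i ^ j) - β i‖ ≤ ((2 : ℝ) ^ j)⁻¹ := by
  classical
  choose a ha using fun i => dens (hu0 i) (hu i) (hβ i) j
  obtain ⟨n, hn, hn'⟩ := crt hP j a
  refine ⟨n, hn, fun k i => ?_⟩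
  have hp0 := p_pos (p := P i)
  have hp2 := two_le_p (p := P i)
  have hu1 : ‖u i‖ ≤ 1 := (hu i).trans (inv_le_one_of_one_le₀ (one_le_pow₀ (by linarith)))
  have hb : ‖u i‖ / (P i : ℝ) ^ j ≤ ((2 : ℝ) ^ j)⁻¹ := by
    rw [div_eq_mul_inv]
    calc ‖u i‖ * ((P i : ℝ) ^ j)⁻¹ ≤ 1 * ((P i : ℝ) ^ j)⁻¹ := by gcongr
      _ = ((P i : ℝ) ^ j)⁻¹ := one_mul _
      _ ≤ ((2 : ℝ) ^ j)⁻¹ := by gcongr
  have hd : P i ^ j ∣ k * ∏ i, P i ^ j :=
    Dvd.dvd.mul_left (dvd_prod_of_mem (fun i => P i ^ j) (mem_univ i)) _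
  have hcong : n + k * ∏ i, P i ^ j ≡ a i [MOD P i ^ j] := by
    have h1 : k * ∏ i, P i ^ j ≡ 0 [MOD P i ^ j] := (Nat.modEq_zero_iff_dvd).2 hd
    have := (hn' i).add h1
    rwa [add_zero] at this
  obtain ⟨N, hN⟩ : ∃ N, N = n + k * ∏ i, P i ^ j := ⟨_, rfl⟩
  rw [← hN] at hcong ⊢
  have hclose : ‖(1 + u i) ^ N - (1 + u i) ^ a i‖ ≤ ‖u i‖ / (P i : ℝ) ^ j := by
    rcases le_total (a i) N with h | h
    · obtain ⟨s, rfl⟩ := Nat.exists_eq_add_of_le h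
      refine periodic (hu0 i) (hu i) j (a i) s ?_
      have h1 := (Nat.modEq_iff_dvd' h).1 hcong.symm
      rwa [Nat.add_sub_cancel_left] at h1
    · obtain ⟨s, hs⟩ := Nat.exists_eq_add_of_le h
      rw [← norm_neg, neg_sub, hs]
      refine periodic (hu0 i) (hu i) j N s ?_
      have h1 := (Nat.modEq_iff_dvd' h).1 hcong
      rwa [hs, Nat.add_sub_cancel_left] at h1
  have e : (1 + u i) ^ N - β i = ((1 + u i) ^ N - (1 + u i) ^ a i) + ((1 + u i) ^ a i - β i) := by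
    ring
  rw [e]
  exact (nadd hclose (ha i)).trans hb

/-- the choice of the exponent at the real place -/
lemma sel {A B : ℝ} (hA : 0 < A) (hAB : A < B) (hB : B < 1) {M : ℕ} (hM : 1 ≤ M) :
    ∃ η : ℝ, 0 < η ∧ η < 1 ∧ ∀ q : ℝ, 1 - η < q → q < 1 → ∀ n ≤ M, ∃ k : ℕ,
      A < q ^ (n + k * M) ∧ q ^ (n + k * M) < B := by
  have hB0 : 0 < B := hA.trans hAB
  obtain ⟨θ, hθ⟩ : ∃ θ, θ = max (A / B) B := ⟨_, rfl⟩
  have hθ1 : θ < 1 := by
    rw [hθ]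
    exact max_lt ((div_lt_one hB0).2 hAB) hB
  have hθA : A / B ≤ θ := by rw [hθ]; exact le_max_left _ _
  have hθB : B ≤ θ := by rw [hθ]; exact le_max_right _ _
  have hM0 : (0 : ℝ) < M := by exact_mod_cast hM
  obtain ⟨η, hη⟩ : ∃ η, η = (1 - θ) / (2 * M) := ⟨_, rfl⟩
  have hη0 : 0 < η := by
    rw [hη]
    have : 0 < 1 - θ := by linarith
    positivity
  have hMη : M * η = (1 - θ) / 2 := by
    rw [hη]
    field_simp
  have hM1 : (1 : ℝ) ≤ M := by exact_mod_cast hM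
  have hη1 : η < 1 := by
    have h1 : η ≤ M * η := le_mul_of_one_le_left hη0.le hM1
    linarith
  refine ⟨η, hη0, hη1, fun q hq1 hq2 n hn => ?_⟩
  have hq0 : 0 < q := by linarith
  have hqM : θ < q ^ M := by
    have h1 := one_add_mul_le_pow (a := -η) (by linarith) M
    have h2 : (1 + -η) ^ M ≤ q ^ M := by
      refine pow_le_pow_left₀ (by linarith) (by linarith) M
    have h3 : 1 + (M : ℝ) * -η = 1 - (1 - θ) / 2 := by rw [← hMη]; ring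
    linarith
  have hex : ∃ k : ℕ, q ^ (n + k * M) < B := by
    obtain ⟨k, hk⟩ := exists_pow_lt_of_lt_one hB0 hq2
    refine ⟨k, lt_of_le_of_lt ?_ hk⟩
    refine pow_le_pow_of_le_one hq0.le hq2.le ?_
    have : k ≤ k * M := Nat.le_mul_of_pos_right k (by omega)
    omega
  classical
  obtain ⟨k, hk⟩ : ∃ k, k = Nat.find hex := ⟨_, rfl⟩
  have hk1 : q ^ (n + k * M) < B := by rw [hk]; exact Nat.find_spec hex
  refine ⟨k, ?_, hk1⟩
  have hstart : B ≤ q ^ n := by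
    calc B ≤ θ := hθB
      _ ≤ q ^ M := hqM.le
      _ ≤ q ^ n := pow_le_pow_of_le_one hq0.le hq2.le hn
  have hk0 : k ≠ 0 := by
    intro h
    rw [h, Nat.zero_mul, add_zero] at hk1
    linarith
  obtain ⟨l, rfl⟩ : ∃ l, k = l + 1 := ⟨k - 1, by omega⟩
  have hl : B ≤ q ^ (n + l * M) := by
    by_contra hcon
    push Not at hcon
    have := Nat.find_min hex (m := l) (by omega)
    exact this hcon
  calc A = (A / B) * B := by field_simp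
    _ ≤ θ * B := by gcongr
    _ < q ^ M * B := by gcongr
    _ ≤ q ^ M * q ^ (n + l * M) := by gcongr
    _ = q ^ (n + (l + 1) * M) := by
      rw [← pow_add]
      congr 1
      ring

lemma norm_pr (hP : Function.Injective P) (k : ℕ) (i : ι) :
    ‖((∏ j, P j ^ k : ℕ) : ℚ_[P i])‖ = ((P i : ℝ) ^ k)⁻¹ := by
  classical
  rw [← mul_prod_erase univ (fun j => P j ^ k) (mem_univ i)]
  push_cast
  rw [norm_mul, norm_pow, Padic.norm_p, inv_pow, norm_prod]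
  have h1 : ∀ j ∈ univ.erase i, ‖((P j : ℕ) : ℚ_[P i]) ^ k‖ = 1 := by
    intro j hj
    rw [norm_pow, Padic.norm_natCast_eq_one_iff.2, one_pow]
    exact (Nat.coprime_primes Fact.out Fact.out).2 fun h => (mem_erase.1 hj).1 (hP h).symm
  rw [prod_congr rfl h1, prod_const_one, mul_one]

/-- **weak approximation** -/
lemma approx (hP : Function.Injective P) (x : ℝ × (∀ i, ℚ_[P i])) {ε : ℝ} (hε : 0 < ε) :
    ∃ r : ℚ, |x.1 - r| < ε ∧ ∀ i, ‖x.2 i - r‖ < ε := by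
  classical
  obtain ⟨k, hk⟩ : ∃ k : ℕ, ∑ i, ‖x.2 i‖ < 2 ^ k := pow_unbounded_of_one_lt _ one_lt_two
  have hk' : ∀ i, ‖x.2 i‖ ≤ 2 ^ k := fun i =>
    (single_le_sum (f := fun i => ‖x.2 i‖) (fun j _ => norm_nonneg _) (mem_univ i)).trans hk.le
  obtain ⟨L, hL⟩ : ∃ L : ℕ, ((1 : ℝ) / 2) ^ L < ε := exists_pow_lt_of_lt_one hε (by norm_num)
  obtain ⟨K, hK⟩ : ∃ K, K = k + (L + 1) := ⟨_, rfl⟩
  obtain ⟨D, hD⟩ : ∃ D, D = ∏ i, P i ^ k := ⟨_, rfl⟩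
  obtain ⟨Q, hQ⟩ : ∃ Q, Q = ∏ i, P i ^ K := ⟨_, rfl⟩
  have hppos : ∀ i, 0 < P i := fun i => (Fact.out (p := (P i).Prime)).pos
  have hDpos : 0 < D := by rw [hD]; exact prod_pos fun i _ => pow_pos (hppos i) _
  have hQpos : 0 < Q := by rw [hQ]; exact prod_pos fun i _ => pow_pos (hppos i) _
  have hDn : ∀ i, ‖(D : ℚ_[P i])‖ = ((P i : ℝ) ^ k)⁻¹ := fun i => by rw [hD]; exact norm_pr hP k i
  have hQn : ∀ i, ‖(Q : ℚ_[P i])‖ = ((P i : ℝ) ^ K)⁻¹ := fun i => by rw [hQ]; exact norm_pr hP K i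
  have hpr : ∀ i, (0 : ℝ) < P i := fun i => by exact_mod_cast hppos i
  have hsmall : ∀ i, ((P i : ℝ) ^ (L + 1))⁻¹ < ε := by
    intro i
    refine lt_of_le_of_lt ?_ hL
    rw [one_div, inv_pow]
    have h2 := two_le_p (p := P i)
    calc ((P i : ℝ) ^ (L + 1))⁻¹ ≤ ((2 : ℝ) ^ (L + 1))⁻¹ := by gcongr
      _ ≤ ((2 : ℝ) ^ L)⁻¹ := by
        gcongr
        · norm_num
        · omega
  have hc : ∀ i, ‖(D : ℚ_[P i]) * x.2 i‖ ≤ 1 := by
    intro i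
    rw [norm_mul, hDn]
    calc ((P i : ℝ) ^ k)⁻¹ * ‖x.2 i‖ ≤ ((2 : ℝ) ^ k)⁻¹ * 2 ^ k := by
          have h2 := two_le_p (p := P i)
          gcongr
          exact hk' i
      _ = 1 := by
        field_simp
  choose z hz using fun i => nat_near (hc i) (δ := ((P i : ℝ) ^ K)⁻¹) (by have := hpr i; positivity)
  obtain ⟨w, -, hw⟩ := crt hP K z
  have hwz : ∀ i, ‖((w : ℕ) : ℚ_[P i]) - (z i : ℕ)‖ ≤ ((P i : ℝ) ^ K)⁻¹ := by
    intro i
    have h1 : ((P i : ℕ) ^ K : ℤ) ∣ ((w : ℤ) - z i) := by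
      have := (Nat.modEq_iff_dvd.1 (hw i).symm)
      exact_mod_cast this
    have h2 := (Padic.norm_int_le_pow_iff_dvd (p := P i) ((w : ℤ) - z i) K).2 (by exact_mod_cast h1)
    rw [zpow_neg, zpow_natCast] at h2
    simpa using h2
  obtain ⟨y, hy⟩ : ∃ y : ℝ, y = x.1 - (w : ℝ) / D := ⟨_, rfl⟩
  obtain ⟨M, hM⟩ : ∃ M : ℕ, 1 / ε < M := exists_nat_gt _
  have hMpos : (0 : ℝ) < M := lt_trans (by positivity) hM
  obtain ⟨l, hl⟩ : ∃ l : ℕ, l = 1 + Q * M := ⟨_, rfl⟩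
  have hlpos : 0 < l := by omega
  obtain ⟨a, ha⟩ : ∃ a : ℤ, a = ⌊y * l / Q⌋ := ⟨_, rfl⟩
  have hQr : (0 : ℝ) < Q := by exact_mod_cast hQpos
  have hlr : (0 : ℝ) < l := by exact_mod_cast hlpos
  refine ⟨(w : ℚ) / D + Q * a / l, ?_, fun i => ?_⟩
  · push_cast
    have h1 : x.1 - ((w : ℝ) / D + Q * a / l) = Q / l * (y * l / Q - a) := by
      rw [show x.1 = y + (w : ℝ) / D by rw [hy]; ring]
      field_simp
      ring
    rw [h1, abs_mul, abs_of_pos (by positivity : (0 : ℝ) < Q / l)]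
    have h2 : |y * l / Q - a| < 1 := by
      rw [ha]
      have h0 := Int.floor_le (y * l / Q)
      have := Int.lt_floor_add_one (y * l / Q)
      rw [abs_of_nonneg (by linarith)]
      linarith
    have h3 : (Q : ℝ) / l ≤ 1 / M := by
      rw [div_le_div_iff₀ hlr hMpos, hl]
      push_cast
      linarith
    have h4 : 1 / (M : ℝ) < ε := by
      rw [div_lt_iff₀ hMpos]
      rw [div_lt_iff₀ hε] at hM
      linarith
    have h5 : 0 ≤ |y * l / Q - a| := abs_nonneg _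
    have h6 : (0 : ℝ) < Q / l := by positivity
    calc (Q : ℝ) / l * |y * l / Q - a| ≤ Q / l * 1 := by gcongr
      _ ≤ 1 / M := by rw [mul_one]; exact h3
      _ < ε := h4
  · have hDi : (D : ℚ_[P i]) ≠ 0 := by exact_mod_cast hDpos.ne'
    have hli : (l : ℚ_[P i]) ≠ 0 := by exact_mod_cast hlpos.ne'
    have e1 : x.2 i - (((w : ℚ) / D + Q * a / l : ℚ) : ℚ_[P i]) =
        ((D * x.2 i - z i) - (w - z i)) / D - Q * a / l := by
      push_cast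
      field_simp
      ring
    have hp0 := hpr i
    have hln : ‖(l : ℚ_[P i])‖ = 1 := by
      rw [Padic.norm_natCast_eq_one_iff, hl, Nat.Prime.coprime_iff_not_dvd Fact.out]
      intro h
      have h1 : P i ∣ Q * M := by
        refine Dvd.dvd.mul_right ?_ _
        rw [hQ]
        refine dvd_trans ?_ (dvd_prod_of_mem (fun j => P j ^ K) (mem_univ i))
        exact dvd_pow_self _ (by omega)
      have h2 := (Nat.dvd_add_left h1).1 h
      exact (Fact.out (p := (P i).Prime)).one_lt.ne' (Nat.dvd_one.1 h2)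
    rw [e1]
    have k1 : ‖((D * x.2 i - z i) - (w - z i)) / (D : ℚ_[P i])‖ ≤ ((P i : ℝ) ^ (L + 1))⁻¹ := by
      rw [norm_div, hDn, div_inv_eq_mul]
      calc ‖(D * x.2 i - z i) - (w - z i)‖ * (P i : ℝ) ^ k ≤ ((P i : ℝ) ^ K)⁻¹ * (P i : ℝ) ^ k := by
            gcongr
            exact nsub (hz i).le (hwz i)
        _ = ((P i : ℝ) ^ (L + 1))⁻¹ := by
          rw [hK, pow_add]
          field_simp
    have k2 : ‖((Q : ℚ_[P i]) * a / l)‖ ≤ ((P i : ℝ) ^ (L + 1))⁻¹ := by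
      rw [norm_div, norm_mul, hln, div_one, hQn]
      have h2 := two_le_p (p := P i)
      calc ((P i : ℝ) ^ K)⁻¹ * ‖(a : ℚ_[P i])‖ ≤ ((P i : ℝ) ^ K)⁻¹ * 1 := by
            gcongr
            exact Padic.norm_int_le_one a
        _ = ((P i : ℝ) ^ K)⁻¹ := mul_one _
        _ ≤ ((P i : ℝ) ^ (L + 1))⁻¹ := by
          gcongr
          · linarith
          · omega
    exact (nsub k1 k2).trans_lt (hsmall i)

end many

end Q265.LC
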