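import Pool.Agent.Q265.LC.B
import Pool.Agent.Q265.LC.C

/-! # Belyi maps act transitively -/

set_option autoImplicit false

open Finset Polynomial Filter Topology

namespace Q265.LC

variable {ι : Type} [Fintype ι] {P : ι → ℕ} [∀ i, Fact (P i).Prime] {I : Set ℚ → Prop}

lemma Good.nbhd {x : Pt P} (h : Good I x) : ∃ ε : ℝ, 0 < ε ∧ ∀ y : Pt P, |y.1 - x.1| < ε →
    (∀ i, ‖y.2 i - x.2 i‖ < ε) → Good I y := by
  obtain ⟨ε, hε, h⟩ := Metric.eventually_nhds_iff.1 h.eventually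
  refine ⟨ε, hε, fun y h1 h2 => h ?_⟩
  rw [Prod.dist_eq]
  refine max_lt ?_ ?_
  · rw [Real.dist_eq]
    exact h1
  · rw [dist_pi_lt_iff hε]
    intro i
    rw [dist_eq_norm]
    exact h2 i

lemma exists_pt (y1 : ℝ) (y2 : ∀ i, ℚ_[P i]) : ∃ y : Pt P, y.1 = y1 ∧ ∀ i, y.2 i = y2 i :=
  ⟨(y1, y2), rfl, fun _ => rfl⟩

/-- the target side: points near zero at the primes -/
lemma target (hI : IsTr I) (hP : Function.Injective P) {RC : Prop} {CC : ι → Prop} {w : Pt P}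
    (hw : Good I w) (hr0 : RC → w.1 = 0) (hr1 : ¬ RC → 0 < w.1) (hc0 : ∀ i, CC i → w.2 i = 0)
    (hc1 : ∀ i, ¬ CC i → w.2 i ≠ 0) (ρ : ι → ℝ) (hρ : ∀ i, 0 < ρ i) :
    ∃ v : Pt P, Good I v ∧ (RC → v.1 = 0) ∧ (¬ RC → 0 < v.1 ∧ v.1 < 1) ∧
      (∀ i, CC i → v.2 i = 0) ∧ ∀ i, ¬ CC i → v.2 i ≠ 0 ∧ ‖v.2 i‖ ≤ ρ i := by
  classical
  obtain ⟨ε, hε, hgood⟩ := hw.nbhd
  obtain ⟨W, hW⟩ : ∃ W : ℝ, W = ∑ i, ‖w.2 i‖ + 1 := ⟨_, rfl⟩
  have hW1 : 1 ≤ W := by
    rw [hW]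
    have : 0 ≤ ∑ i, ‖w.2 i‖ := sum_nonneg fun i _ => norm_nonneg _
    linarith
  have hWi : ∀ i, ‖w.2 i‖ ≤ W := fun i => by
    rw [hW]
    have := single_le_sum (f := fun i => ‖w.2 i‖) (fun j _ => norm_nonneg _) (mem_univ i)
    linarith
  obtain ⟨τ, hτ0, hτ1, hτ2, hτ3⟩ : ∃ τ : ℝ, 0 < τ ∧ τ ≤ 1 ∧ τ ≤ ε ∧ ∀ i, τ ≤ ρ i := by
    refine ⟨min (min 1 ε) (∏ i, min 1 (ρ i)), ?_, ?_, ?_, fun i => ?_⟩
    · refine lt_min (lt_min one_pos hε) (prod_pos fun i _ => lt_min one_pos (hρ i))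
    · exact (min_le_left _ _).trans (min_le_left _ _)
    · exact (min_le_left _ _).trans (min_le_right _ _)
    · refine (min_le_right _ _).trans ?_
      rw [← mul_prod_erase univ (fun i => min 1 (ρ i)) (mem_univ i)]
      have h1 : ∏ j ∈ univ.erase i, min 1 (ρ j) ≤ 1 :=
        prod_le_one (fun j _ => (lt_min one_pos (hρ j)).le) fun j _ => min_le_left _ _
      have h2 : 0 < min 1 (ρ i) := lt_min one_pos (hρ i)
      calc min 1 (ρ i) * ∏ j ∈ univ.erase i, min 1 (ρ j) ≤ min 1 (ρ i) * 1 := by gcongr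
        _ ≤ ρ i := by rw [mul_one]; exact min_le_right _ _
  obtain ⟨J, hJ⟩ : ∃ J : ℕ, ((1 : ℝ) / 2) ^ J < τ / (W * W) :=
    exists_pow_lt_of_lt_one (by positivity) (by norm_num)
  obtain ⟨b, hb⟩ : ∃ b : ℕ, b = 2 * ∏ i, P i ^ (J + 1) := ⟨_, rfl⟩
  have hppos : ∀ i, 0 < P i := fun i => (Fact.out (p := (P i).Prime)).pos
  have hbpos : 0 < b := by
    rw [hb]
    have : 0 < ∏ i, P i ^ (J + 1) := prod_pos fun i _ => pow_pos (hppos i) _
    omega
  have hbeven : Even b := ⟨∏ i, P i ^ (J + 1), by rw [hb]; ring⟩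
  have hbn : ∀ i, ‖(b : ℚ_[P i])‖ ≤ ((P i : ℝ) ^ (J + 1))⁻¹ := by
    intro i
    rw [hb]
    push_cast
    rw [norm_mul]
    have h2 := norm_pr hP (J + 1) i
    push_cast at h2
    rw [h2]
    have h3 : ‖(2 : ℚ_[P i])‖ ≤ 1 := by
      have := nat_le_one (p := P i) 2
      simpa using this
    have h4 : (0 : ℝ) < P i := by exact_mod_cast hppos i
    exact mul_le_of_le_one_left (by positivity) h3
  have hb1 : ∀ i, ‖((b : ℚ_[P i]) + 1)‖ = 1 := by
    intro i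
    rw [add_comm]
    refine one_add_eq ((hbn i).trans_lt ?_)
    have h4 := two_le_p (p := P i)
    exact inv_lt_one_of_one_lt₀ (one_lt_pow₀ (by linarith) (by omega))
  have hbq : ∀ i, (b : ℚ_[P i]) ≠ 0 := fun i => by exact_mod_cast hbpos.ne'
  have hb1q : ∀ i, (b : ℚ_[P i]) + 1 ≠ 0 := fun i => by
    intro h
    have := hb1 i
    rw [h, norm_zero] at this
    exact zero_ne_one this
  -- the number `r`
  obtain ⟨r, hr⟩ : ∃ r : ∀ i, ℚ_[P i], r = fun i => (b : ℚ_[P i]) / (b + 1) := ⟨_, rfl⟩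
  have hr0' : ∀ i, r i ≠ 0 := fun i => by rw [hr]; exact div_ne_zero (hbq i) (hb1q i)
  have hrn : ∀ i, ‖r i‖ ≤ ((1 : ℝ) / 2) ^ J := by
    intro i
    rw [hr]
    simp only
    rw [norm_div, hb1, div_one]
    refine (hbn i).trans ?_
    rw [one_div, inv_pow]
    have h2 := two_le_p (p := P i)
    calc ((P i : ℝ) ^ (J + 1))⁻¹ ≤ ((2 : ℝ) ^ (J + 1))⁻¹ := by gcongr
      _ ≤ ((2 : ℝ) ^ J)⁻¹ := by
        gcongr
        · norm_num
        · omega
  have hτW : τ / (W * W) ≤ 1 := by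
    rw [div_le_one (by positivity)]
    nlinarith
  have hr1' : ∀ i, ‖r i‖ ≤ 1 := fun i => (hrn i).trans (by linarith)
  have hrb : ∀ i, ‖r i‖ ^ b ≤ ((1 : ℝ) / 2) ^ J := by
    intro i
    refine le_trans ?_ (hrn i)
    calc ‖r i‖ ^ b ≤ ‖r i‖ ^ 1 := pow_le_pow_of_le_one (norm_nonneg _) (hr1' i) hbpos
      _ = ‖r i‖ := pow_one _
  have hs' : ∀ i, ‖w.2 i * r i ^ b‖ < 1 := by
    intro i
    rw [norm_mul, norm_pow]
    have h3 := norm_nonneg (w.2 i)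
    have h4 := hWi i
    calc ‖w.2 i‖ * ‖r i‖ ^ b ≤ W * ((1 : ℝ) / 2) ^ J := by
          gcongr
          exact hrb i
      _ < W * (τ / (W * W)) := by gcongr
      _ = τ / W := by field_simp
      _ ≤ 1 := by
        rw [div_le_one (by linarith)]
        linarith
  have hs : ∀ i, ‖w.2 i * r i ^ (b + 1)‖ ≤ ‖w.2 i * r i ^ b‖ := by
    intro i
    rw [norm_mul, norm_mul, norm_pow, norm_pow, pow_succ]
    have h3 := norm_nonneg (w.2 i)
    have h4 : ‖r i‖ ^ b * ‖r i‖ ≤ ‖r i‖ ^ b := mul_le_of_le_one_right (by positivity) (hr1' i)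
    gcongr
  -- the real place
  obtain ⟨R, hR⟩ : ∃ R : ℝ, R = (b : ℝ) / (b + 1) := ⟨_, rfl⟩
  have hbr : (0 : ℝ) < b := by exact_mod_cast hbpos
  have hR0 : 0 < R := by rw [hR]; positivity
  have hR1 : R < 1 := by
    rw [hR, div_lt_one (by linarith)]
    linarith
  obtain ⟨t, ht1, ht2, ht3, ht4⟩ : ∃ t : ℝ, t ≠ R ∧ (RC → t = 0) ∧ (¬ RC → 0 < t ∧ t < 1) ∧
      t * (1 - t) ^ b = w.1 * (t - R) ^ (b + 1) := by
    by_cases hRC : RC
    · refine ⟨0, hR0.ne, fun _ => rfl, fun h => absurd hRC h, ?_⟩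
      rw [hr0 hRC, zero_mul, zero_mul]
    have h0 := hr1 hRC
    have hcont : ContinuousOn (fun t : ℝ => t * (1 - t) ^ b - w.1 * (t - R) ^ (b + 1))
        (Set.Icc R 1) := by fun_prop
    have hL : 0 < R * (1 - R) ^ b - w.1 * (R - R) ^ (b + 1) := by
      rw [sub_self, zero_pow (by omega), mul_zero, sub_zero]
      have : 0 < 1 - R := by linarith
      positivity
    have hRt : 1 * (1 - 1) ^ b - w.1 * (1 - R) ^ (b + 1) < 0 := by
      rw [sub_self (1 : ℝ), zero_pow (by omega), mul_zero, zero_sub, neg_lt_zero]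
      have : 0 < 1 - R := by linarith
      positivity
    have := intermediate_value_Icc' hR1.le hcont
    obtain ⟨t, ⟨ha, hb'⟩, hv⟩ := this ⟨hRt.le, hL.le⟩
    simp only at hv
    have hRt1 : R < t := by
      refine lt_of_le_of_ne ha ?_
      rintro rfl
      linarith
    have hRt2 : t < 1 := by
      refine lt_of_le_of_ne hb' ?_
      rintro rfl
      linarith
    exact ⟨t, hRt1.ne', fun h => absurd h hRC, fun _ => ⟨by linarith, hRt2⟩, by linarith⟩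
  -- the point
  obtain ⟨v, hv1, hv2⟩ := exists_pt (P := P) t fun i => -(w.2 i) * r i ^ (b + 1)
  have hvn : ∀ i, ‖v.2 i‖ = ‖w.2 i * r i ^ (b + 1)‖ := fun i => by
    rw [hv2, neg_mul, norm_neg]
  refine ⟨v, ?_, by rw [hv1]; exact ht2, by rw [hv1]; exact ht3, fun i hi => ?_,
    fun i hi => ⟨?_, ?_⟩⟩
  · have hvr : ∀ i, v.2 i ≠ r i := by
      intro i h
      have h1 := hs' i
      have h2 := hvn i
      rw [h, pow_succ, ← mul_assoc, norm_mul] at h2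
      have h3 : 0 < ‖r i‖ := norm_pos_iff.2 (hr0' i)
      nlinarith
    refine good_fr hI (p := b) (q := b + 1) hbpos (by omega) ?_ (fun i => ?_)
      (hgood _ ?_ fun i => ?_)
    · rw [hv1]
      push_cast
      rw [← hR]
      exact ht1
    · push_cast
      have := hvr i
      rwa [hr] at this
    · simp only
      push_cast
      rw [← hR, hv1, show b + 1 - b = 1 by omega, pow_one]
      have h2 : (t - 1) ^ b = (1 - t) ^ b := by rw [← neg_sub, hbeven.neg_pow]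
      have h3 : t - R ≠ 0 := sub_ne_zero.2 ht1
      rw [h2, ht4, mul_div_assoc, div_self (pow_ne_zero _ h3), mul_one, sub_self, abs_zero]
      exact hε
    · simp only
      push_cast
      have hri : (b : ℚ_[P i]) / (b + 1) = r i := by rw [hr]
      rw [hri, show b + 1 - b = 1 by omega, pow_one, hv2]
      obtain ⟨s, hse⟩ : ∃ s, s = w.2 i * r i ^ (b + 1) := ⟨_, rfl⟩
      obtain ⟨s', hse'⟩ : ∃ s', s' = w.2 i * r i ^ b := ⟨_, rfl⟩
      have g1 : ‖s'‖ < 1 := by rw [hse']; exact hs' i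
      have g2 : ‖s‖ ≤ ‖s'‖ := by rw [hse, hse']; exact hs i
      have g3 : ‖1 + s'‖ = 1 := one_add_eq g1
      have g3' : (1 + s') ≠ 0 := by
        intro h
        rw [h, norm_zero] at g3
        exact zero_ne_one g3
      have e1 : -(w.2 i) * r i ^ (b + 1) - 1 = -(1 + s) := by rw [hse]; ring
      have e2 : -(w.2 i) * r i ^ (b + 1) - r i = -(r i) * (1 + s') := by rw [hse']; ring
      have e3 : -(w.2 i) * r i ^ (b + 1) * (-(w.2 i) * r i ^ (b + 1) - 1) ^ b /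
          (-(w.2 i) * r i ^ (b + 1) - r i) ^ (b + 1) - w.2 i =
          w.2 i * (((1 + s) ^ b - 1) - ((1 + s') ^ (b + 1) - 1)) / (1 + s') ^ (b + 1) := by
        have hr1'' : r i ^ (b + 1) ≠ 0 := pow_ne_zero _ (hr0' i)
        have hg : (1 + s') ^ (b + 1) ≠ 0 := pow_ne_zero _ g3'
        rw [e1, e2, hbeven.neg_pow, mul_pow, (hbeven.add_one).neg_pow]
        field_simp
        ring
      rw [e3, norm_div, norm_pow, g3, one_pow, div_one, norm_mul]
      have g4 : ‖((1 + s) ^ b - 1) - ((1 + s') ^ (b + 1) - 1)‖ ≤ ‖s'‖ :=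
        nsub ((pow_sub_one_le (g2.trans g1.le) b).trans g2) (pow_sub_one_le g1.le _)
      have g5 : ‖s'‖ ≤ W * ((1 : ℝ) / 2) ^ J := by
        rw [hse', norm_mul, norm_pow]
        have := hWi i
        gcongr
        exact hrb i
      calc ‖w.2 i‖ * ‖((1 + s) ^ b - 1) - ((1 + s') ^ (b + 1) - 1)‖
          ≤ W * (W * ((1 : ℝ) / 2) ^ J) := by
            have := hWi i
            gcongr
            exact g4.trans g5
        _ < W * (W * (τ / (W * W))) := by gcongr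
        _ = τ := by field_simp
        _ ≤ ε := hτ2
  · rw [hv2, hc0 i hi, neg_zero, zero_mul]
  · rw [hv2]
    exact mul_ne_zero (neg_ne_zero.2 (hc1 i hi)) (pow_ne_zero _ (hr0' i))
  · rw [hvn]
    refine (hs i).trans ?_
    rw [norm_mul, norm_pow]
    calc ‖w.2 i‖ * ‖r i‖ ^ b ≤ W * ((1 : ℝ) / 2) ^ J := by
          have := hWi i
          gcongr
          exact hrb i
      _ ≤ W * (τ / (W * W)) := by gcongr
      _ = τ / W := by field_simp
      _ ≤ τ := div_le_self hτ0.le hW1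
      _ ≤ ρ i := hτ3 i

/-- the core: points near zero at all places -/
lemma core (hI : IsTr I) (hP : Function.Injective P) {RC : Prop} {CC : ι → Prop}
    (H : ∀ ρ : ι → ℝ, (∀ i, 0 < ρ i) → ∃ v : Pt P, Good I v ∧ (RC → v.1 = 0) ∧
      (¬ RC → 0 < v.1 ∧ v.1 < 1) ∧ (∀ i, CC i → v.2 i = 0) ∧
      ∀ i, ¬ CC i → v.2 i ≠ 0 ∧ ‖v.2 i‖ ≤ ρ i)
    {y : Pt P} (hr0 : RC → y.1 = 0) (hr1 : ¬ RC → 0 < y.1 ∧ y.1 < 1)
    (hc0 : ∀ i, CC i → y.2 i = 0)
    (hc1 : ∀ i, ¬ CC i → y.2 i ≠ 0 ∧ ‖y.2 i‖ ≤ ((P i : ℝ) ^ 2)⁻¹) : Good I y := by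
  classical
  have h4 : ∀ i, (4 : ℚ_[P i]) ≠ 0 := fun i => by norm_num
  have h4n : ∀ i, ‖(4 : ℚ_[P i])‖ ≤ 1 := fun i => by
    have := nat_le_one (p := P i) 4
    simpa using this
  obtain ⟨v, hv, vr0, vr1, vc0, vc1⟩ := H (fun i => if CC i then 1 else ‖(4 : ℚ_[P i])‖ * ‖y.2 i‖)
    (fun i => by
      by_cases hi : CC i
      · rw [if_pos hi]
        exact one_pos
      · rw [if_neg hi]
        exact mul_pos (norm_pos_iff.2 (h4 i)) (norm_pos_iff.2 (hc1 i hi).1))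
  obtain ⟨ε, hε, hgood⟩ := hv.nbhd
  obtain ⟨j, hj⟩ : ∃ j : ℕ, ((1 : ℝ) / 2) ^ j < ε := exists_pow_lt_of_lt_one hε (by norm_num)
  obtain ⟨M, hM⟩ : ∃ M, M = ∏ i, P i ^ j := ⟨_, rfl⟩
  have hppos : ∀ i, 0 < P i := fun i => (Fact.out (p := (P i).Prime)).pos
  have hM1 : 1 ≤ M := by rw [hM]; exact prod_pos fun i _ => pow_pos (hppos i) _
  -- the real place
  obtain ⟨ℓ, hreal⟩ : ∃ ℓ : ℕ, ¬ RC → ∀ m, ℓ ≤ m → 1 ≤ m → ∀ n0 ≤ M, ∃ k : ℕ,
      1 ≤ n0 + k * M ∧ 0 < 4 * (1 - y.1) ^ m * (1 - (1 - y.1) ^ m) ∧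
      4 * (1 - y.1) ^ m * (1 - (1 - y.1) ^ m) < 1 ∧
      |(1 - (1 - 4 * (1 - y.1) ^ m * (1 - (1 - y.1) ^ m)) ^ (n0 + k * M)) - v.1| < ε := by
    by_cases hRC : RC
    · exact ⟨0, fun h => absurd hRC h⟩
    obtain ⟨h0, h1⟩ := hr1 hRC
    obtain ⟨v0, v1⟩ := vr1 hRC
    obtain ⟨σ, hσ⟩ : ∃ σ, σ = 1 - v.1 := ⟨_, rfl⟩
    have hσ0 : 0 < σ := by rw [hσ]; linarith
    have hσ1 : σ < 1 := by rw [hσ]; linarith
    obtain ⟨e, he⟩ : ∃ e, e = min ε (min σ (1 - σ)) / 2 := ⟨_, rfl⟩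
    have he0 : 0 < e := by
      rw [he]
      have : 0 < min ε (min σ (1 - σ)) := lt_min hε (lt_min hσ0 (by linarith))
      linarith
    have he1 : e < ε := by
      have : min ε (min σ (1 - σ)) ≤ ε := min_le_left _ _
      linarith
    have he2 : e < σ := by
      have : min ε (min σ (1 - σ)) ≤ σ := (min_le_right _ _).trans (min_le_left _ _)
      linarith
    have he3 : e < 1 - σ := by
      have : min ε (min σ (1 - σ)) ≤ 1 - σ := (min_le_right _ _).trans (min_le_right _ _)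
      linarith
    obtain ⟨η, hη0, hη1, hsel⟩ := sel (A := σ - e) (B := σ + e) (by linarith) (by linarith)
      (by linarith) hM1
    obtain ⟨ℓ, hℓ⟩ : ∃ ℓ : ℕ, (1 - y.1) ^ ℓ < η / 4 :=
      exists_pow_lt_of_lt_one (by linarith) (by linarith)
    refine ⟨ℓ, fun _ m hm hm1 n0 hn0 => ?_⟩
    obtain ⟨z, hz⟩ : ∃ z, z = (1 - y.1) ^ m := ⟨_, rfl⟩
    rw [← hz]
    have z3 : 0 < z := by rw [hz]; exact pow_pos (by linarith) _
    have z4 : z < 1 := by rw [hz]; exact pow_lt_one₀ (by linarith) (by linarith) (by omega)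
    have z5 : z < η / 4 := by
      rw [hz]
      exact (pow_le_pow_of_le_one (by linarith) (by linarith) hm).trans_lt hℓ
    obtain ⟨y', hy'⟩ : ∃ y', y' = 4 * z * (1 - z) := ⟨_, rfl⟩
    rw [← hy']
    have y3 : 0 < y' := by
      rw [hy']
      have : 0 < 1 - z := by linarith
      positivity
    have y4 : y' < η := by
      rw [hy']
      nlinarith
    obtain ⟨k, hk1, hk2⟩ := hsel (1 - y') (by linarith) (by linarith) n0 hn0
    refine ⟨k, ?_, y3, by linarith, ?_⟩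
    · by_contra hcon
      have h0 : n0 + k * M = 0 := by omega
      rw [h0, pow_zero] at hk2
      linarith
    · have e' : (1 - (1 - y') ^ (n0 + k * M)) - v.1 = σ - (1 - y') ^ (n0 + k * M) := by
        rw [hσ]
        ring
      rw [e', abs_lt]
      constructor <;> linarith
  obtain ⟨m, hm⟩ : ∃ m, m = 1 + ℓ * ∏ i, P i := ⟨_, rfl⟩
  have hPr : 1 ≤ ∏ i, P i := prod_pos fun i _ => hppos i
  have hmℓ : ℓ ≤ m := by
    rw [hm]
    have : ℓ ≤ ℓ * ∏ i, P i := Nat.le_mul_of_pos_right ℓ hPr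
    omega
  have hmp : ∀ i, ¬ P i ∣ m := by
    intro i h
    have h1 : P i ∣ ℓ * ∏ i, P i := Dvd.dvd.mul_left (dvd_prod_of_mem P (mem_univ i)) _
    rw [hm] at h
    have h2 := (Nat.dvd_add_left h1).1 h
    exact (Fact.out (p := (P i).Prime)).one_lt.ne' (Nat.dvd_one.1 h2)
  have hm1 : 1 ≤ m := by omega
  obtain ⟨z, hz⟩ : ∃ z : Pt P, z = (1 - y) ^ m := ⟨_, rfl⟩
  obtain ⟨y', hy'⟩ : ∃ y' : Pt P, y' = 4 * z * (1 - z) := ⟨_, rfl⟩
  have z1 : z.1 = (1 - y.1) ^ m := by rw [hz]; rfl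
  have z2 : ∀ i, z.2 i = (1 - y.2 i) ^ m := fun i => by rw [hz]; rfl
  have y1 : y'.1 = 4 * (1 - y.1) ^ m * (1 - (1 - y.1) ^ m) := by rw [hy', ← z1]; rfl
  have y2 : ∀ i, y'.2 i = 4 * z.2 i * (1 - z.2 i) := fun i => by rw [hy']; rfl
  have y3 : RC → y'.1 = 0 := fun h => by rw [y1, hr0 h]; simp
  have y4 : ∀ i, CC i → y'.2 i = 0 := fun i hi => by rw [y2, z2, hc0 i hi]; simp
  have y5 : ∀ i, ¬ CC i → ‖y'.2 i‖ = ‖(4 : ℚ_[P i])‖ * ‖y.2 i‖ := by
    intro i hi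
    obtain ⟨hy0, hy⟩ := hc1 i hi
    have g0 := two_le_p (p := P i)
    have g1 : ‖y.2 i‖ < 1 := by
      refine hy.trans_lt (inv_lt_one_of_one_lt₀ ?_)
      nlinarith
    have g2 : ‖-(y.2 i)‖ < 1 := by rwa [norm_neg]
    have g3 : ‖1 + -(y.2 i)‖ = 1 := one_add_eq g2
    have g4 : ‖(1 + -(y.2 i)) ^ m - 1‖ = ‖-(y.2 i)‖ :=
      unit_mult (neg_ne_zero.2 hy0) g2 (hmp i)
    rw [← sub_eq_add_neg] at g3 g4
    rw [y2, norm_mul, norm_mul, z2, norm_pow, g3, one_pow, mul_one, ← norm_neg (1 - _), neg_sub, g4,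
      norm_neg]
  have y6 : ∀ i, ¬ CC i → y'.2 i ≠ 0 := fun i hi => by
    rw [← norm_pos_iff, y5 i hi]
    exact mul_pos (norm_pos_iff.2 (h4 i)) (norm_pos_iff.2 (hc1 i hi).1)
  have y7 : ∀ i, ¬ CC i → ‖y'.2 i‖ ≤ ((P i : ℝ) ^ 2)⁻¹ := fun i hi => by
    rw [y5 i hi]
    exact (mul_le_of_le_one_left (norm_nonneg _) (h4n i)).trans (hc1 i hi).2
  obtain ⟨n0, hn0, hn⟩ := simul hP j (fun i => if CC i then (P i : ℚ_[P i]) ^ 2 else -(y'.2 i))
    (fun i => if CC i then 1 else 1 - v.2 i)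
    (fun i => by
      by_cases hi : CC i
      · rw [if_pos hi]
        exact pow_ne_zero _ (by exact_mod_cast (hppos i).ne')
      · rw [if_neg hi]
        exact neg_ne_zero.2 (y6 i hi))
    (fun i => by
      by_cases hi : CC i
      · rw [if_pos hi, norm_pow, Padic.norm_p, inv_pow]
      · rw [if_neg hi, norm_neg]
        exact y7 i hi)
    (fun i => by
      by_cases hi : CC i
      · rw [if_pos hi, if_pos hi, sub_self, norm_zero]
        exact norm_nonneg _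
      · rw [if_neg hi, if_neg hi]
        have e : 1 - v.2 i - 1 = -(v.2 i) := by ring
        rw [e, norm_neg, norm_neg, y5 i hi]
        have := (vc1 i hi).2
        rwa [if_neg hi] at this)
  rw [← hM] at hn0
  obtain ⟨k, hk1, hk2⟩ : ∃ k : ℕ, 1 ≤ n0 + k * M ∧
      |(1 - (1 - y'.1) ^ (n0 + k * M)) - v.1| < ε := by
    by_cases hRC : RC
    · refine ⟨1, by omega, ?_⟩
      rw [y3 hRC, vr0 hRC]
      simpa using hε
    · obtain ⟨k, k1, -, -, k4⟩ := hreal hRC m hmℓ hm1 n0 hn0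
      exact ⟨k, k1, by rw [y1]; exact k4⟩
  obtain ⟨n, hn'⟩ : ∃ n, n = n0 + k * M := ⟨_, rfl⟩
  rw [← hn'] at hk1 hk2
  have hfin : Good I (1 - (1 - y') ^ n) := by
    refine hgood _ hk2 fun i => ?_
    · show ‖(1 - (1 - y'.2 i) ^ n) - v.2 i‖ < ε
      by_cases hi : CC i
      · rw [y4 i hi, vc0 i hi]
        simpa using hε
      · have h1 := hn k i
        rw [← hM, ← hn', if_neg hi, if_neg hi] at h1
        have e : (1 - (1 - y'.2 i) ^ n) - v.2 i = -((1 + -(y'.2 i)) ^ n - (1 - v.2 i)) := by ring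
        rw [e, norm_neg]
        refine h1.trans_lt ?_
        rw [one_div, inv_pow] at hj
        exact hj
  have g1 : Good I ((1 - y') ^ n) := good_one_sub hI hfin
  have g2 : Good I (1 - y') := good_pow hI hk1 g1
  have g3 : Good I y' := good_one_sub hI g2
  rw [hy'] at g3
  have g4 : Good I z := good_four hI g3
  rw [hz] at g4
  exact good_one_sub hI (good_pow hI hm1 g4)

lemma big_quot {a b c δ : ℝ} {p q : ℕ} (hpq : p < q) (ha : δ ≤ a) (hb : δ ≤ b)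
    (hc0 : 0 < c) (hc : c < δ) : 1 < a ^ (q - p) * b ^ p / c ^ q := by
  have hδ : 0 < δ := hc0.trans hc
  have ha0 : 0 < a := hδ.trans_le ha
  rw [one_lt_div (by positivity)]
  calc c ^ q < δ ^ q := by
        refine pow_lt_pow_left₀ hc hc0.le (by omega)
    _ = δ ^ (q - p) * δ ^ p := by rw [← pow_add]; congr 1; omega
    _ ≤ a ^ (q - p) * b ^ p := by gcongr

end Q265.LC
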