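import Pool.Agent.Q265.LC.D

/-! # Localisation: the source side and the main theorem -/

set_option autoImplicit false

open Finset Polynomial Filter Topology

namespace Q265.LC

variable {ι : Type} [Fintype ι] {P : ι → ℕ} [∀ i, Fact (P i).Prime] {I : Set ℚ → Prop}

/-- the choice of the second kind of map -/
lemma pick (hP : Function.Injective P) {x : Pt P} (h0 : 0 < x.1) (h1 : x.1 < 1)
    (hx : ∀ i, x.2 i ≠ 0 ∧ x.2 i ≠ 1) : ∃ p q : ℕ, 0 < p ∧ p < q ∧ x.1 ≠ (p : ℝ) / q ∧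
      (∀ i, x.2 i ≠ (p : ℚ_[P i]) / q) ∧
      1 < |x.1 ^ (q - p) * (x.1 - 1) ^ p / (x.1 - p / q) ^ q| ∧
      ∀ i, 1 < ‖x.2 i ^ (q - p) * (x.2 i - 1) ^ p / (x.2 i - p / q) ^ q‖ := by
  classical
  obtain ⟨δ, hδ0, hδ1, hδ2, hδ3⟩ : ∃ δ : ℝ, 0 < δ ∧ δ ≤ x.1 ∧ δ ≤ 1 - x.1 ∧
      ∀ i, δ ≤ ‖x.2 i‖ ∧ δ ≤ ‖x.2 i - 1‖ := by
    have hpos : ∀ i, 0 < min 1 (min ‖x.2 i‖ ‖x.2 i - 1‖) := fun i =>
      lt_min one_pos (lt_min (norm_pos_iff.2 (hx i).1) (norm_pos_iff.2 (sub_ne_zero.2 (hx i).2)))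
    have hle : ∀ i, ∏ i, min 1 (min ‖x.2 i‖ ‖x.2 i - 1‖) ≤ min ‖x.2 i‖ ‖x.2 i - 1‖ := by
      intro i
      rw [← mul_prod_erase univ (fun i => min 1 (min ‖x.2 i‖ ‖x.2 i - 1‖)) (mem_univ i)]
      have h1 : ∏ j ∈ univ.erase i, min 1 (min ‖x.2 j‖ ‖x.2 j - 1‖) ≤ 1 :=
        prod_le_one (fun j _ => (hpos j).le) fun j _ => min_le_left _ _
      calc _ ≤ min 1 (min ‖x.2 i‖ ‖x.2 i - 1‖) * 1 := by
            have := (hpos i).le
            gcongr
        _ ≤ _ := by rw [mul_one]; exact min_le_right _ _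
    refine ⟨min (min x.1 (1 - x.1)) (∏ i, min 1 (min ‖x.2 i‖ ‖x.2 i - 1‖)), ?_, ?_, ?_,
      fun i => ⟨?_, ?_⟩⟩
    · exact lt_min (lt_min h0 (by linarith)) (prod_pos fun i _ => hpos i)
    · exact (min_le_left _ _).trans (min_le_left _ _)
    · exact (min_le_left _ _).trans (min_le_right _ _)
    · exact (min_le_right _ _).trans ((hle i).trans (min_le_left _ _))
    · exact (min_le_right _ _).trans ((hle i).trans (min_le_right _ _))
  obtain ⟨K, hK⟩ : ∃ K : ℕ, ((1 : ℝ) / 2) ^ K < δ := exists_pow_lt_of_lt_one hδ0 (by norm_num)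
  have hppos : ∀ i, 0 < P i := fun i => (Fact.out (p := (P i).Prime)).pos
  obtain ⟨Q, hQ⟩ : ∃ Q : ℕ, Q = ∏ i, P i ^ K := ⟨_, rfl⟩
  have hQpos : 0 < Q := by rw [hQ]; exact prod_pos fun i _ => pow_pos (hppos i) _
  have hQr : (0 : ℝ) < Q := by exact_mod_cast hQpos
  have hQ1 : (1 : ℝ) ≤ Q := by exact_mod_cast hQpos
  obtain ⟨ε, hε⟩ : ∃ ε : ℝ, ε = min (δ / 4) ((Q : ℝ)⁻¹ / 2) := ⟨_, rfl⟩
  have hε0 : 0 < ε := by rw [hε]; exact lt_min (by linarith) (by positivity)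
  have hε1 : ε ≤ δ / 4 := by rw [hε]; exact min_le_left _ _
  have hε2 : ∀ i, ε < ((P i : ℝ) ^ K)⁻¹ := by
    intro i
    have h2 : P i ^ K ≤ Q := by
      rw [hQ]
      exact Nat.le_of_dvd (by rw [← hQ]; exact hQpos) (dvd_prod_of_mem (fun i => P i ^ K) (mem_univ i))
    have h3 : (P i : ℝ) ^ K ≤ Q := by exact_mod_cast h2
    have h4 : (0 : ℝ) < P i := by exact_mod_cast hppos i
    calc ε ≤ (Q : ℝ)⁻¹ / 2 := by rw [hε]; exact min_le_right _ _
      _ < (Q : ℝ)⁻¹ := half_lt_self (by positivity)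
      _ ≤ ((P i : ℝ) ^ K)⁻¹ := by gcongr
  obtain ⟨x', hx1, hx2⟩ := exists_pt (P := P) (x.1 + δ / 2) fun i => x.2 i + (P i : ℚ_[P i]) ^ K
  obtain ⟨r, hr1, hr2⟩ := approx hP x' hε0
  rw [hx1] at hr1
  have hr3 := abs_lt.1 hr1
  have hrlow : x.1 < r := by linarith [hr3.2]
  have hrup : (r : ℝ) < x.1 + δ := by linarith [hr3.1]
  have hr0 : (0 : ℝ) < r := by linarith
  have hr1' : (r : ℝ) < 1 := by linarith
  have hrq0 : 0 < r := by exact_mod_cast hr0
  have hrq1 : r < 1 := by exact_mod_cast hr1'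
  obtain ⟨p, q, hp, hpq, hrpq⟩ : ∃ p q : ℕ, 0 < p ∧ p < q ∧ r = (p : ℚ) / q := by
    refine ⟨r.num.toNat, r.den, ?_, ?_, ?_⟩
    · have := Rat.num_pos.2 hrq0
      omega
    · have h2 : r.num < r.den := Rat.num_lt_denom_iff.2 hrq1
      have := Rat.num_pos.2 hrq0
      omega
    · have h2 := Rat.num_pos.2 hrq0
      have h3 : ((r.num.toNat : ℕ) : ℚ) = (r.num : ℚ) := by
        have : ((r.num.toNat : ℕ) : ℤ) = r.num := Int.toNat_of_nonneg h2.le
        exact_mod_cast this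
      rw [h3, Rat.num_div_den]
  have hrr : (r : ℝ) = (p : ℝ) / q := by rw [hrpq]; push_cast; rfl
  have hri : ∀ i, (r : ℚ_[P i]) = (p : ℚ_[P i]) / q := fun i => by rw [hrpq]; push_cast; rfl
  have hdist : ∀ i, ‖x.2 i - r‖ = ((P i : ℝ) ^ K)⁻¹ := by
    intro i
    have h2 := hr2 i
    rw [hx2] at h2
    have e : x.2 i - (r : ℚ_[P i]) = (x.2 i + (P i : ℚ_[P i]) ^ K - r) + -(P i : ℚ_[P i]) ^ K := by
      ring
    have h3 : ‖-(P i : ℚ_[P i]) ^ K‖ = ((P i : ℝ) ^ K)⁻¹ := by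
      rw [norm_neg, norm_pow, Padic.norm_p, inv_pow]
    have h4 : ‖x.2 i + (P i : ℚ_[P i]) ^ K - r‖ < ‖-(P i : ℚ_[P i]) ^ K‖ := by
      rw [h3]
      exact h2.trans (hε2 i)
    rw [e, Padic.add_eq_max_of_ne h4.ne, max_eq_right h4.le, h3]
  have hdist' : ∀ i, ‖x.2 i - r‖ < δ := by
    intro i
    rw [hdist]
    refine lt_of_le_of_lt ?_ hK
    rw [one_div, inv_pow]
    have h2 := two_le_p (p := P i)
    gcongr
  have hdpos : ∀ i, 0 < ‖x.2 i - r‖ := by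
    intro i
    rw [hdist]
    have h4 : (0 : ℝ) < P i := by exact_mod_cast hppos i
    positivity
  -- the values
  obtain ⟨f, hf⟩ : ∃ f : Pt P, f = (x.1 ^ (q - p) * (x.1 - 1) ^ p / (x.1 - p / q) ^ q,
      fun i => x.2 i ^ (q - p) * (x.2 i - 1) ^ p / (x.2 i - p / q) ^ q) := ⟨_, rfl⟩
  have f1 : 1 < |f.1| := by
    rw [hf]
    simp only
    rw [abs_div, abs_mul, abs_pow, abs_pow, abs_pow, ← hrr]
    refine big_quot (δ := δ) hpq ?_ ?_ ?_ ?_
    · rw [abs_of_pos h0]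
      exact hδ1
    · rw [abs_sub_comm, abs_of_pos (by linarith)]
      exact hδ2
    · rw [abs_pos]
      linarith
    · rw [abs_lt]
      constructor <;> linarith
  have f2 : ∀ i, 1 < ‖f.2 i‖ := by
    intro i
    rw [hf]
    simp only
    rw [norm_div, norm_mul, norm_pow, norm_pow, norm_pow, ← hri]
    exact big_quot hpq (hδ3 i).1 (hδ3 i).2 (hdpos i) (hdist' i)
  refine ⟨p, q, hp, hpq, ?_, fun i => ?_, ?_, fun i => ?_⟩
  · rw [← hrr]
    exact hrlow.ne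
  · rw [← hri]
    intro h
    have := hdpos i
    rw [h, sub_self, norm_zero] at this
    exact lt_irrefl _ this
  · rw [hf] at f1
    exact f1
  · have := f2 i
    rw [hf] at this
    exact this

section limits

variable {K : Type*} [NontriviallyNormedField K]

/-- the filters of the cusps -/
def CF (F : Filter K) : Prop := F = 𝓝[≠] 0 ∨ F = 𝓝[≠] 1 ∨ F = Bornology.cobounded K

lemma ne_one_nhds0 : ∀ᶠ t : K in 𝓝[≠] 0, t ≠ 1 :=
  mem_nhdsWithin_of_mem_nhds (isOpen_ne.mem_nhds zero_ne_one)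

lemma ne_zero_nhds1 : ∀ᶠ t : K in 𝓝[≠] 1, t ≠ 0 :=
  mem_nhdsWithin_of_mem_nhds (isOpen_ne.mem_nhds one_ne_zero)

lemma CF.one_sub {F : Filter K} (h : CF F) : ∃ F', CF F' ∧ Tendsto (fun t => 1 - t) F F' := by
  rcases h with rfl | rfl | rfl
  · refine ⟨𝓝[≠] 1, Or.inr (Or.inl rfl), ?_⟩
    refine tendsto_nhdsWithin_iff.2 ⟨?_, ?_⟩
    · have : Tendsto (fun t : K => 1 - t) (𝓝 0) (𝓝 (1 - 0)) := by
        exact (continuous_const.sub continuous_id).tendsto 0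
      rw [sub_zero] at this
      exact this.mono_left nhdsWithin_le_nhds
    · filter_upwards [self_mem_nhdsWithin] with t ht h
      exact ht (by simpa using h)
  · refine ⟨𝓝[≠] 0, Or.inl rfl, ?_⟩
    refine tendsto_nhdsWithin_iff.2 ⟨?_, ?_⟩
    · have : Tendsto (fun t : K => 1 - t) (𝓝 1) (𝓝 (1 - 1)) := by
        exact (continuous_const.sub continuous_id).tendsto 1
      rw [sub_self] at this
      exact this.mono_left nhdsWithin_le_nhds
    · filter_upwards [self_mem_nhdsWithin] with t ht h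
      exact ht (sub_eq_zero.1 h).symm
  · exact ⟨_, Or.inr (Or.inr rfl), tendsto_const_sub_cobounded 1⟩

lemma CF.inv {F : Filter K} (h : CF F) : ∃ F', CF F' ∧ Tendsto (fun t => t⁻¹) F F' := by
  rcases h with rfl | rfl | rfl
  · exact ⟨_, Or.inr (Or.inr rfl), tendsto_inv₀_nhdsNE_zero⟩
  · refine ⟨𝓝[≠] 1, Or.inr (Or.inl rfl), ?_⟩
    refine tendsto_nhdsWithin_iff.2 ⟨?_, ?_⟩
    · have : Tendsto (fun t : K => t⁻¹) (𝓝 1) (𝓝 1⁻¹) := tendsto_inv₀ one_ne_zero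
      rw [inv_one] at this
      exact this.mono_left nhdsWithin_le_nhds
    · filter_upwards [self_mem_nhdsWithin] with t ht h
      exact ht (inv_eq_one.1 h)
  · exact ⟨_, Or.inl rfl, tendsto_inv₀_cobounded'⟩

/-- the map which sends all cusps to zero -/
def hh (y : K) : K :=
  (4 * (1 - (1 - 4 * y * (1 - y))⁻¹) * (1 - (1 - (1 - 4 * y * (1 - y))⁻¹))) ^ 2

/-- the whole map -/
def phi (p q m : ℕ) (t : K) : K := hh (((t ^ (q - p) * (t - 1) ^ p / (t - p / q) ^ q)⁻¹) ^ m)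

lemma hh_cont {y : K} (h : 1 - 4 * y * (1 - y) ≠ 0) : ContinuousAt hh y := by
  unfold hh
  have h1 : ContinuousAt (fun y : K => (1 - 4 * y * (1 - y))⁻¹) y := by
    refine ContinuousAt.inv₀ ?_ h
    fun_prop
  fun_prop

lemma hh_zero : hh (0 : K) = 0 := by
  unfold hh
  simp

lemma hh_one : hh (1 : K) = 0 := by
  unfold hh
  simp

lemma hh_inf [CharZero K] : Tendsto (hh : K → K) (Bornology.cobounded K) (𝓝 0) := by
  have h1 : Tendsto (fun y : K => 1 - 2 * y) (Bornology.cobounded K) (Bornology.cobounded K) :=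
    (tendsto_const_sub_cobounded 1).comp (tendsto_mul_left_cobounded two_ne_zero)
  have h2 : Tendsto (fun y : K => ((1 - 2 * y)⁻¹) ^ 2) (Bornology.cobounded K) (𝓝 (0 ^ 2)) :=
    (tendsto_inv₀_cobounded.comp h1).pow 2
  have e : (fun y : K => ((1 - 2 * y)⁻¹) ^ 2) = fun y => (1 - 4 * y * (1 - y))⁻¹ := by
    funext y
    rw [inv_pow]
    congr 1
    ring
  rw [e, zero_pow two_ne_zero] at h2
  unfold hh
  have h3 : Tendsto (fun y : K => (4 * (1 - (1 - 4 * y * (1 - y))⁻¹) *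
      (1 - (1 - (1 - 4 * y * (1 - y))⁻¹))) ^ 2) (Bornology.cobounded K)
      (𝓝 ((4 * (1 - 0) * (1 - (1 - 0))) ^ 2)) :=
    ((tendsto_const_nhds.mul (tendsto_const_nhds.sub h2)).mul
      (tendsto_const_nhds.sub (tendsto_const_nhds.sub h2))).pow 2
  simpa using h3

lemma pow_cob {m : ℕ} (hm : 1 ≤ m) :
    Tendsto (fun y : K => y ^ m) (Bornology.cobounded K) (Bornology.cobounded K) := by
  rw [← tendsto_norm_atTop_iff_cobounded]
  simp only [norm_pow]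
  exact (tendsto_pow_atTop (by omega)).comp tendsto_norm_cobounded_atTop

lemma fr_zero {p q : ℕ} (hp : 0 < p) (hpq : p < q) {a : K} (ha : a = 0 ∨ a = 1)
    (hne : ∀ᶠ t : K in 𝓝[≠] a, t ≠ 0 ∧ t ≠ 1) (har : a ≠ (p : K) / q) :
    Tendsto (fun t : K => t ^ (q - p) * (t - 1) ^ p / (t - p / q) ^ q) (𝓝[≠] a) (𝓝[≠] 0) := by
  refine tendsto_nhdsWithin_iff.2 ⟨?_, ?_⟩
  · have h1 : ContinuousAt (fun t : K => t ^ (q - p) * (t - 1) ^ p / (t - p / q) ^ q) a := by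
      refine ContinuousAt.div ?_ ?_ (pow_ne_zero _ (sub_ne_zero.2 har))
      · fun_prop
      · fun_prop
    have h2 : a ^ (q - p) * (a - 1) ^ p / (a - p / q) ^ q = 0 := by
      rcases ha with rfl | rfl
      · rw [zero_pow (by omega), zero_mul, zero_div]
      · rw [sub_self, zero_pow (by omega), mul_zero, zero_div]
    have h3 := h1.tendsto
    rw [h2] at h3
    exact h3.mono_left nhdsWithin_le_nhds
  · have h2 : ∀ᶠ t : K in 𝓝[≠] a, t ≠ (p : K) / q :=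
      mem_nhdsWithin_of_mem_nhds (isOpen_ne.mem_nhds har)
    filter_upwards [hne, h2] with t ht ht'
    exact div_ne_zero (mul_ne_zero (pow_ne_zero _ ht.1) (pow_ne_zero _ (sub_ne_zero.2 ht.2)))
      (pow_ne_zero _ (sub_ne_zero.2 ht'))

lemma fr_inf {p q : ℕ} (hpq : p < q) :
    Tendsto (fun t : K => t ^ (q - p) * (t - 1) ^ p / (t - p / q) ^ q) (Bornology.cobounded K)
      (𝓝 1) := by
  have h1 : Tendsto (fun t : K => (1 - t⁻¹) ^ p / (1 - p / q * t⁻¹) ^ q) (Bornology.cobounded K)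
      (𝓝 ((1 - 0) ^ p / (1 - p / q * 0) ^ q)) := by
    refine Tendsto.div ?_ ?_ ?_
    · exact (tendsto_const_nhds.sub tendsto_inv₀_cobounded).pow p
    · exact (tendsto_const_nhds.sub (tendsto_const_nhds.mul tendsto_inv₀_cobounded)).pow q
    · simp
  have h2 : ((1 - 0 : K)) ^ p / (1 - p / q * 0) ^ q = 1 := by simp
  rw [h2] at h1
  refine h1.congr' ?_
  filter_upwards [Bornology.eventually_ne_cobounded (0 : K)] with t ht
  have e1 : (1 - t⁻¹) = (t - 1) / t := by rw [sub_div, div_self ht, one_div]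
  have e2 : (1 - (p : K) / q * t⁻¹) = (t - p / q) / t := by
    rw [sub_div, div_self ht, div_eq_mul_inv ((p : K) / q)]
  rw [e1, e2, div_pow, div_pow]
  have e3 : t ^ q = t ^ (q - p) * t ^ p := by
    rw [← pow_add]
    congr 1
    omega
  rw [e3]
  have h3 : t ^ p ≠ 0 := pow_ne_zero _ ht
  have e4 : (t - 1) ^ p * (t ^ (q - p) * t ^ p) = t ^ p * (t ^ (q - p) * (t - 1) ^ p) := by ring
  rw [div_div_div_eq, e4, mul_div_mul_left _ _ h3]

lemma phi_cusp [CharZero K] {p q m : ℕ} (hp : 0 < p) (hpq : p < q) (hm : 1 ≤ m) {F : Filter K}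
    (hF : CF F) : Tendsto (phi p q m) F (𝓝 0) := by
  have hq : (q : K) ≠ 0 := by
    have : q ≠ 0 := by omega
    exact_mod_cast this
  have h0 : (0 : K) ≠ (p : K) / q := by
    have : (p : K) ≠ 0 := by exact_mod_cast hp.ne'
    exact (div_ne_zero this hq).symm
  have h1 : (1 : K) ≠ (p : K) / q := by
    intro h
    rw [eq_comm, div_eq_one_iff_eq hq] at h
    have : p = q := by exact_mod_cast h
    omega
  have key : ∀ a : K, (a = 0 ∨ a = 1) → (∀ᶠ t : K in 𝓝[≠] a, t ≠ 0 ∧ t ≠ 1) → a ≠ (p : K) / q →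
      Tendsto (phi p q m) (𝓝[≠] a) (𝓝 0) := by
    intro a ha hne har
    exact hh_inf.comp ((pow_cob hm).comp (tendsto_inv₀_nhdsNE_zero.comp
      (fr_zero hp hpq ha hne har)))
  rcases hF with rfl | rfl | rfl
  · refine key 0 (Or.inl rfl) ?_ h0
    filter_upwards [ne_one_nhds0, self_mem_nhdsWithin] with t ht ht'
    exact ⟨ht', ht⟩
  · refine key 1 (Or.inr rfl) ?_ h1
    filter_upwards [ne_zero_nhds1, self_mem_nhdsWithin] with t ht ht'
    exact ⟨ht, ht'⟩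
  · have h3 : Tendsto (fun t : K => ((t ^ (q - p) * (t - 1) ^ p / (t - p / q) ^ q)⁻¹) ^ m)
        (Bornology.cobounded K) (𝓝 ((1⁻¹) ^ m)) :=
      ((fr_inf hpq).inv₀ one_ne_zero).pow m
    rw [inv_one, one_pow] at h3
    have h4 : Tendsto (hh : K → K) (𝓝 1) (𝓝 0) := by
      have := (hh_cont (y := (1 : K)) (by simp)).tendsto
      rwa [hh_one] at this
    exact h4.comp h3

lemma phi_cont {p q m : ℕ} {x : K} (h1 : x ≠ (p : K) / q)
    (h2 : x ^ (q - p) * (x - 1) ^ p / (x - p / q) ^ q ≠ 0)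
    (h3 : 1 - 4 * ((x ^ (q - p) * (x - 1) ^ p / (x - p / q) ^ q)⁻¹) ^ m *
      (1 - ((x ^ (q - p) * (x - 1) ^ p / (x - p / q) ^ q)⁻¹) ^ m) ≠ 0) :
    ContinuousAt (phi p q m) x := by
  have h5 : ContinuousAt (fun t : K => t ^ (q - p) * (t - 1) ^ p / (t - p / q) ^ q) x := by
    refine ContinuousAt.div ?_ ?_ (pow_ne_zero _ (sub_ne_zero.2 h1))
    · fun_prop
    · fun_prop
  have h4 : ContinuousAt (fun t : K => ((t ^ (q - p) * (t - 1) ^ p / (t - p / q) ^ q)⁻¹) ^ m) x :=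
    (h5.inv₀ h2).pow m
  exact ContinuousAt.comp (g := hh) (hh_cont h3) h4

end limits

lemma tra_phi (hI : IsTr I) {p q m : ℕ} (hp : 0 < p) (hpq : p < q) (hm : 1 ≤ m) :
    Tra I (phi p q m) :=
  ((((((((tra_fr hI hp hpq).comp (tra_inv hI)).comp (tra_pow hI hm)).comp (tra_four hI)).comp
    (tra_one_sub hI)).comp (tra_inv hI)).comp (tra_one_sub hI)).comp (tra_four hI)).comp
    (tra_pow hI (m := 2) (by norm_num))

lemma phi_real (p q m : ℕ) (t : ℚ) : phi p q m (t : ℝ) = ((phi p q m t : ℚ) : ℝ) := by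
  unfold phi hh
  push_cast
  rfl

omit [Fintype ι] in
lemma phi_padic (p q m : ℕ) (i : ι) (t : ℚ) :
    phi p q m (t : ℚ_[P i]) = ((phi p q m t : ℚ) : ℚ_[P i]) := by
  unfold phi hh
  push_cast
  rfl

end Q265.LC
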