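import Pool.Agent.Q265.LC.E

/-! # Localisation: the main theorem -/

set_option autoImplicit false

open Finset Polynomial Filter Topology

namespace Q265.LC

variable {ι : Type} [Fintype ι] {P : ι → ℕ} [∀ i, Fact (P i).Prime] {I : Set ℚ → Prop}

/-- small values of the whole map, at the real place -/
lemma phi_real_small {p q m : ℕ} (hm2 : Even m) {x : ℝ}
    (h1 : 1 < |x ^ (q - p) * (x - 1) ^ p / (x - p / q) ^ q|)
    (h2 : |x ^ (q - p) * (x - 1) ^ p / (x - p / q) ^ q|⁻¹ ^ m < 1 / 100) :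
    1 - 4 * ((x ^ (q - p) * (x - 1) ^ p / (x - p / q) ^ q)⁻¹) ^ m *
      (1 - ((x ^ (q - p) * (x - 1) ^ p / (x - p / q) ^ q)⁻¹) ^ m) ≠ 0 ∧
    0 < phi p q m x ∧ phi p q m x < 1 := by
  unfold phi hh
  obtain ⟨f, hf⟩ : ∃ f, f = x ^ (q - p) * (x - 1) ^ p / (x - p / q) ^ q := ⟨_, rfl⟩
  rw [← hf] at h1 h2 ⊢
  have hf0 : f ≠ 0 := by
    rintro rfl
    rw [abs_zero] at h1
    linarith
  obtain ⟨Y, hY⟩ : ∃ Y, Y = (f⁻¹) ^ m := ⟨_, rfl⟩
  rw [← hY]
  have hY1 : Y = |f|⁻¹ ^ m := by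
    rw [hY, ← abs_inv, hm2.pow_abs]
  have hY0 : 0 < Y := by
    rw [hY1]
    have : 0 < |f| := abs_pos.2 hf0
    positivity
  have hY2 : Y < 1 / 100 := by rw [hY1]; exact h2
  obtain ⟨s, hs⟩ : ∃ s, s = 4 * Y * (1 - Y) := ⟨_, rfl⟩
  have hs0 : 0 < s := by
    rw [hs]
    have : 0 < 1 - Y := by linarith
    positivity
  have hs1 : s < 1 / 25 := by
    rw [hs]
    nlinarith
  rw [← hs]
  have hs2 : 0 < 1 - s := by linarith
  obtain ⟨u, hu⟩ : ∃ u, u = 1 - (1 - s)⁻¹ := ⟨_, rfl⟩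
  rw [← hu]
  have hu' : u = -(s / (1 - s)) := by
    rw [hu]
    field_simp
    ring
  have hu0 : 0 < s / (1 - s) := by positivity
  have hu1 : s / (1 - s) < 1 / 20 := by
    rw [div_lt_iff₀ hs2]
    linarith
  refine ⟨by linarith, ?_, ?_⟩
  · have h3 : 4 * u * (1 - u) ≠ 0 := by
      refine mul_ne_zero (mul_ne_zero four_ne_zero ?_) ?_
      · rw [hu']
        linarith
      · rw [hu']
        linarith
    positivity
  · have h3 : |4 * u * (1 - u)| < 1 := by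
      rw [abs_lt]
      constructor <;> nlinarith
    rw [← sq_abs]
    exact pow_lt_one₀ (abs_nonneg _) h3 (by norm_num)

omit [Fintype ι] in
/-- small values of the whole map, at the primes -/
lemma phi_padic_small {p q m : ℕ} (hm : 2 ≤ m) (i : ι) {x : ℚ_[P i]}
    (h1 : 1 < ‖x ^ (q - p) * (x - 1) ^ p / (x - p / q) ^ q‖) :
    1 - 4 * ((x ^ (q - p) * (x - 1) ^ p / (x - p / q) ^ q)⁻¹) ^ m *
      (1 - ((x ^ (q - p) * (x - 1) ^ p / (x - p / q) ^ q)⁻¹) ^ m) ≠ 0 ∧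
    phi p q m x ≠ 0 ∧ ‖phi p q m x‖ ≤ ((P i : ℝ) ^ 2)⁻¹ := by
  unfold phi hh
  obtain ⟨f, hf⟩ : ∃ f, f = x ^ (q - p) * (x - 1) ^ p / (x - p / q) ^ q := ⟨_, rfl⟩
  rw [← hf] at h1 ⊢
  have hf0 : f ≠ 0 := by
    rintro rfl
    rw [norm_zero] at h1
    linarith
  obtain ⟨Y, hY⟩ : ∃ Y, Y = (f⁻¹) ^ m := ⟨_, rfl⟩
  rw [← hY]
  have hp2 := two_le_p (p := P i)
  have hYn : ‖Y‖ ≤ ((P i : ℝ) ^ 2)⁻¹ := by
    have h2 : ‖f⁻¹‖ < 1 := by
      rw [norm_inv]
      exact inv_lt_one_of_one_lt₀ h1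
    have h3 : ‖f⁻¹‖ ≤ (P i : ℝ)⁻¹ := by
      have := (Padic.norm_le_pow_iff_norm_lt_pow_add_one (f⁻¹) (-1)).2 (by simpa using h2)
      simpa using this
    rw [hY, norm_pow, ← inv_pow]
    calc ‖f⁻¹‖ ^ m ≤ ‖f⁻¹‖ ^ 2 := pow_le_pow_of_le_one (norm_nonneg _) h2.le hm
      _ ≤ ((P i : ℝ)⁻¹) ^ 2 := by gcongr
  have hY0 : Y ≠ 0 := by rw [hY]; exact pow_ne_zero _ (inv_ne_zero hf0)
  have hYpos : 0 < ‖Y‖ := norm_pos_iff.2 hY0
  have hP2 : ((P i : ℝ) ^ 2)⁻¹ < 1 := inv_lt_one_of_one_lt₀ (by nlinarith)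
  have hY1 : ‖Y‖ < 1 := hYn.trans_lt hP2
  have h4n : ‖(4 : ℚ_[P i])‖ ≤ 1 := by
    have := nat_le_one (p := P i) 4
    simpa using this
  have h4 : (4 : ℚ_[P i]) ≠ 0 := by norm_num
  have one_sub_n : ∀ a : ℚ_[P i], ‖a‖ < 1 → ‖1 - a‖ = 1 := by
    intro a ha
    rw [sub_eq_add_neg]
    exact one_add_eq (by rwa [norm_neg])
  obtain ⟨s, hs⟩ : ∃ s, s = 4 * Y * (1 - Y) := ⟨_, rfl⟩
  have hsn : ‖s‖ = ‖(4 : ℚ_[P i])‖ * ‖Y‖ := by
    rw [hs, norm_mul, norm_mul, one_sub_n Y hY1, mul_one]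
  have hs1 : ‖s‖ ≤ ‖Y‖ := by
    rw [hsn]
    exact mul_le_of_le_one_left hYpos.le h4n
  have hs0 : 0 < ‖s‖ := by
    rw [hsn]
    exact mul_pos (norm_pos_iff.2 h4) hYpos
  rw [← hs]
  have hs2 : ‖1 - s‖ = 1 := one_sub_n s (hs1.trans_lt hY1)
  have hs3 : 1 - s ≠ 0 := by
    intro h
    rw [h, norm_zero] at hs2
    exact zero_ne_one hs2
  obtain ⟨u, hu⟩ : ∃ u, u = 1 - (1 - s)⁻¹ := ⟨_, rfl⟩
  rw [← hu]
  have hun : ‖u‖ = ‖s‖ := by
    have : u = -(s / (1 - s)) := by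
      rw [hu]
      field_simp
      ring
    rw [this, norm_neg, norm_div, hs2, div_one]
  have hu1 : ‖1 - u‖ = 1 := one_sub_n u (by rw [hun]; exact hs1.trans_lt hY1)
  have hvn : ‖4 * u * (1 - u)‖ = ‖(4 : ℚ_[P i])‖ * ‖s‖ := by
    rw [norm_mul, norm_mul, hu1, mul_one, hun]
  refine ⟨hs3, ?_, ?_⟩
  · rw [← norm_pos_iff, norm_pow, hvn]
    exact pow_pos (mul_pos (norm_pos_iff.2 h4) hs0) _
  · rw [norm_pow, hvn]
    have h5 : ‖(4 : ℚ_[P i])‖ * ‖s‖ ≤ ‖Y‖ := by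
      calc _ ≤ 1 * ‖Y‖ := by gcongr
        _ = _ := one_mul _
    have h6 : 0 ≤ ‖(4 : ℚ_[P i])‖ * ‖s‖ := by positivity
    calc _ ≤ ‖Y‖ ^ 2 := by gcongr
      _ = ‖Y‖ * ‖Y‖ := sq _
      _ ≤ 1 * ‖Y‖ := by gcongr
      _ = ‖Y‖ := one_mul _
      _ ≤ _ := hYn

/-- **the source side, with filters** -/
theorem src (hI : IsTr I) (hP : Function.Injective P) {RC : Prop} {CC : ι → Prop}
    (Hc : ∀ y : Pt P, (RC → y.1 = 0) → (¬ RC → 0 < y.1 ∧ y.1 < 1) → (∀ i, CC i → y.2 i = 0) →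
      (∀ i, ¬ CC i → y.2 i ≠ 0 ∧ ‖y.2 i‖ ≤ ((P i : ℝ) ^ 2)⁻¹) → Good I y)
    {a : ℝ} {b : ∀ i, ℚ_[P i]} {L : Filter ℝ} {M : ∀ i, Filter ℚ_[P i]}
    (hL0 : RC → CF L) (hL1 : ¬ RC → L = 𝓝 a ∧ 0 < a ∧ a < 1) (hM0 : ∀ i, CC i → CF (M i))
    (hM1 : ∀ i, ¬ CC i → M i = 𝓝 (b i) ∧ b i ≠ 0 ∧ b i ≠ 1) : GoodF I L M := by
  classical
  obtain ⟨x, hx1, hx2⟩ := exists_pt (P := P) (if RC then 1 / 2 else a)
    (fun i => if CC i then 2 else b i)
  have h0 : 0 < x.1 ∧ x.1 < 1 := by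
    rw [hx1]
    by_cases hRC : RC
    · rw [if_pos hRC]
      constructor <;> norm_num
    · rw [if_neg hRC]
      exact (hL1 hRC).2
  have hx : ∀ i, x.2 i ≠ 0 ∧ x.2 i ≠ 1 := by
    intro i
    rw [hx2]
    by_cases hi : CC i
    · rw [if_pos hi]
      constructor <;> norm_num
    · rw [if_neg hi]
      exact (hM1 i hi).2
  obtain ⟨p, q, hp, hpq, k1, k2, k3, k4⟩ := pick hP h0.1 h0.2 hx
  obtain ⟨n, hn⟩ : ∃ n : ℕ, (|x.1 ^ (q - p) * (x.1 - 1) ^ p / (x.1 - p / q) ^ q|⁻¹) ^ n < 1 / 100 :=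
    exists_pow_lt_of_lt_one (by norm_num) (inv_lt_one_of_one_lt₀ k3)
  obtain ⟨m, hm⟩ : ∃ m, m = 2 * (n + 1) := ⟨_, rfl⟩
  have hm1 : 1 ≤ m := by omega
  have hm2 : 2 ≤ m := by omega
  have hme : Even m := ⟨n + 1, by omega⟩
  have hmn : |x.1 ^ (q - p) * (x.1 - 1) ^ p / (x.1 - p / q) ^ q|⁻¹ ^ m < 1 / 100 := by
    refine lt_of_le_of_lt ?_ hn
    exact pow_le_pow_of_le_one (by positivity) (inv_le_one_of_one_le₀ k3.le) (by omega)
  obtain ⟨r1, r2, r3⟩ := phi_real_small (p := p) (q := q) hme k3 hmn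
  obtain ⟨y, hy1, hy2⟩ := exists_pt (P := P) (if RC then 0 else phi p q m x.1)
    (fun i => if CC i then 0 else phi p q m (x.2 i))
  have hy : Good I y := by
    refine Hc y (fun h => ?_) (fun h => ?_) (fun i hi => ?_) (fun i hi => ?_)
    · rw [hy1, if_pos h]
    · rw [hy1, if_neg h]
      exact ⟨r2, r3⟩
    · rw [hy2, if_pos hi]
    · rw [hy2, if_neg hi]
      exact (phi_padic_small hm2 i (k4 i)).2
  refine GoodF.pull (tra_phi hI hp hpq hm1) (gr := phi p q m) (gp := fun i => phi p q m)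
    (phi_real p q m) (phi_padic p q m) ?_ (fun i => ?_) hy.goodF
  · by_cases hRC : RC
    · rw [hy1, if_pos hRC]
      exact phi_cusp hp hpq hm1 (hL0 hRC)
    · rw [hy1, if_neg hRC, (hL1 hRC).1]
      have e : x.1 = a := by rw [hx1, if_neg hRC]
      rw [← e]
      refine phi_cont k1 ?_ r1
      intro h
      rw [h, abs_zero] at k3
      linarith
  · by_cases hi : CC i
    · rw [hy2, if_pos hi]
      exact phi_cusp hp hpq hm1 (hM0 i hi)
    · rw [hy2, if_neg hi, (hM1 i hi).1]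
      have e : x.2 i = b i := by rw [hx2, if_neg hi]
      rw [← e]
      refine phi_cont (k2 i) ?_ (phi_padic_small hm2 i (k4 i)).1
      intro h
      have := k4 i
      rw [h, norm_zero] at this
      linarith

/-- the same for all real coordinates -/
theorem src' (hI : IsTr I) (hP : Function.Injective P) {RC : Prop} {CC : ι → Prop}
    (Hc : ∀ y : Pt P, (RC → y.1 = 0) → (¬ RC → 0 < y.1 ∧ y.1 < 1) → (∀ i, CC i → y.2 i = 0) →
      (∀ i, ¬ CC i → y.2 i ≠ 0 ∧ ‖y.2 i‖ ≤ ((P i : ℝ) ^ 2)⁻¹) → Good I y)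
    {a : ℝ} {b : ∀ i, ℚ_[P i]} {L : Filter ℝ} {M : ∀ i, Filter ℚ_[P i]}
    (hL0 : RC → CF L) (hL1 : ¬ RC → L = 𝓝 a ∧ a ≠ 0 ∧ a ≠ 1) (hM0 : ∀ i, CC i → CF (M i))
    (hM1 : ∀ i, ¬ CC i → M i = 𝓝 (b i) ∧ b i ≠ 0 ∧ b i ≠ 1) : GoodF I L M := by
  classical
  by_cases hRC : RC
  · exact src hI hP Hc (a := a) (b := b) hL0 (fun h => absurd hRC h) hM0 hM1
  obtain ⟨hLa, ha0, ha1⟩ := hL1 hRC
  -- the case `1 < a`
  have big : ∀ {a : ℝ} {b : ∀ i, ℚ_[P i]} {L : Filter ℝ} {M : ∀ i, Filter ℚ_[P i]}, L = 𝓝 a →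
      1 < a → (∀ i, CC i → CF (M i)) →
      (∀ i, ¬ CC i → M i = 𝓝 (b i) ∧ b i ≠ 0 ∧ b i ≠ 1) → GoodF I L M := by
    intro a b L M hL ha hM0 hM1
    have hex : ∀ i, ∃ F' : Filter ℚ_[P i], (CC i → CF F') ∧ (¬ CC i → F' = 𝓝 (b i)⁻¹) ∧
        Tendsto (fun t => t⁻¹) (M i) F' := by
      intro i
      by_cases hi : CC i
      · obtain ⟨F', h1, h2⟩ := (hM0 i hi).inv
        exact ⟨F', fun _ => h1, fun h => absurd hi h, h2⟩
      · refine ⟨𝓝 (b i)⁻¹, fun h => absurd h hi, fun _ => rfl, ?_⟩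
        rw [(hM1 i hi).1]
        exact tendsto_inv₀ (hM1 i hi).2.1
    choose M' g1 g2 g3 using hex
    have ha0 : a ≠ 0 := by linarith
    refine GoodF.pull (tra_inv hI) (gr := fun t => t⁻¹) (gp := fun i t => t⁻¹)
      (fun t => (Rat.cast_inv t).symm) (fun i t => (Rat.cast_inv t).symm) (L' := 𝓝 a⁻¹) (M' := M')
      (by rw [hL]; exact tendsto_inv₀ ha0) g3 ?_
    refine src hI hP Hc (a := a⁻¹) (b := fun i => (b i)⁻¹) (fun h => absurd h hRC)
      (fun _ => ⟨rfl, by positivity, inv_lt_one_of_one_lt₀ ha⟩) g1 fun i hi => ⟨g2 i hi, ?_, ?_⟩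
    · exact inv_ne_zero (hM1 i hi).2.1
    · exact fun h => (hM1 i hi).2.2 (inv_eq_one.1 h)
  rcases lt_trichotomy a 0 with h | h | h
  · have hex : ∀ i, ∃ F' : Filter ℚ_[P i], (CC i → CF F') ∧ (¬ CC i → F' = 𝓝 (1 - b i)) ∧
        Tendsto (fun t => 1 - t) (M i) F' := by
      intro i
      by_cases hi : CC i
      · obtain ⟨F', h1, h2⟩ := (hM0 i hi).one_sub
        exact ⟨F', fun _ => h1, fun h => absurd hi h, h2⟩
      · refine ⟨𝓝 (1 - b i), fun h => absurd h hi, fun _ => rfl, ?_⟩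
        rw [(hM1 i hi).1]
        have hc : Continuous fun t : ℚ_[P i] => 1 - t := by fun_prop
        exact hc.tendsto _
    choose M' g1 g2 g3 using hex
    refine GoodF.pull (tra_one_sub hI) (gr := fun t => 1 - t) (gp := fun i t => 1 - t)
      (fun t => by push_cast; rfl) (fun i t => by push_cast; rfl) (L' := 𝓝 (1 - a)) (M' := M')
      (by
        rw [hLa]
        have hc : Continuous fun t : ℝ => 1 - t := by fun_prop
        exact hc.tendsto _) g3 ?_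
    refine big (a := 1 - a) (b := fun i => 1 - b i) rfl (by linarith) g1
      fun i hi => ⟨g2 i hi, ?_, ?_⟩
    · exact sub_ne_zero.2 (Ne.symm (hM1 i hi).2.2)
    · intro h'
      exact (hM1 i hi).2.1 (by linear_combination -h')
  · exact absurd h ha0
  · rcases lt_trichotomy a 1 with h' | h' | h'
    · exact src hI hP Hc (fun h => absurd h hRC) (fun _ => ⟨hLa, h, h'⟩) hM0 hM1
    · exact absurd h' ha1
    · exact big hLa h' hM0 hM1

/-! ## Compactness -/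

section filt

open Classical in
/-- the filter of a point of the projective line -/
noncomputable def filt {K : Type*} [NontriviallyNormedField K] (x : OnePoint K) : Filter K :=
  x.elim (Bornology.cobounded K) fun a => if a = 0 ∨ a = 1 then 𝓝[≠] a else 𝓝 a

variable {K : Type*} [NontriviallyNormedField K]

lemma filt_infty : filt (OnePoint.infty : OnePoint K) = Bornology.cobounded K := rfl

lemma filt_cusp {a : K} (h : a = 0 ∨ a = 1) : filt (a : OnePoint K) = 𝓝[≠] a := by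
  classical
  exact if_pos h

lemma filt_coe {a : K} (h0 : a ≠ 0) (h1 : a ≠ 1) : filt (a : OnePoint K) = 𝓝 a := by
  classical
  exact if_neg (by tauto)

lemma filt_nhds [ProperSpace K] (x : OnePoint K) {A : Set K} (hA : A ∈ filt x) :
    ((↑) '' A ∪ {x} : Set (OnePoint K)) ∈ 𝓝 x := by
  induction x using OnePoint.rec with
  | infty =>
    rw [filt_infty] at hA
    rw [OnePoint.nhds_infty_eq, mem_sup, mem_pure]
    refine ⟨?_, Or.inr rfl⟩
    rw [Filter.mem_map]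
    have h2 : A ∈ coclosedCompact K := by
      rw [coclosedCompact_eq_cocompact, ← Metric.cobounded_eq_cocompact]
      exact hA
    filter_upwards [h2] with t ht
    exact Or.inl ⟨t, ht, rfl⟩
  | coe a =>
    have h1 : insert a A ∈ 𝓝 a := by
      by_cases h : a = 0 ∨ a = 1
      · rw [filt_cusp h] at hA
        exact insert_mem_nhds_iff.2 hA
      · push Not at h
        rw [filt_coe h.1 h.2] at hA
        exact mem_of_superset hA (Set.subset_insert _ _)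
    rw [OnePoint.nhds_coe_eq, Filter.mem_map]
    filter_upwards [h1] with t ht
    rcases ht with rfl | ht
    · exact Or.inr rfl
    · exact Or.inl ⟨t, ht, rfl⟩

lemma filt_self {a : K} (h0 : a ≠ 0) (h1 : a ≠ 1) {A : Set K} (hA : A ∈ filt (a : OnePoint K)) :
    a ∈ A := by
  rw [filt_coe h0 h1] at hA
  exact mem_of_mem_nhds hA

end filt

variable (P) in
/-- the points of the product of the projective lines -/
abbrev PX : Type := OnePoint ℝ × (∀ i, OnePoint ℚ_[P i])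

variable (P) in
/-- a rational number as a point -/
noncomputable def embX (t : ℚ) : PX P := (((t : ℝ) : OnePoint ℝ), fun i => ((t : ℚ_[P i]) : OnePoint _))

lemma goodX (hI : IsTr I) {x : PX P} (h : GoodF I (filt x.1) fun i => filt (x.2 i)) :
    ∃ U ∈ 𝓝 x, I {t | embX P t ∈ U} := by
  obtain ⟨U, hU, h⟩ := h
  obtain ⟨A, hA, B, hB, hAB⟩ := mem_prod_iff.1 hU
  rw [Filter.mem_pi'] at hB
  obtain ⟨S, V, hV, hVB⟩ := hB
  refine ⟨((↑) '' A ∪ {x.1}) ×ˢ Set.pi Set.univ (fun i => (↑) '' (V i) ∪ {x.2 i}), ?_, ?_⟩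
  · rw [nhds_prod_eq]
    refine prod_mem_prod (filt_nhds x.1 hA) ?_
    refine set_pi_mem_nhds Set.finite_univ fun i _ => filt_nhds (x.2 i) (hV i)
  · refine hI.mono (hI.union h (hI.fin (Set.toFinite {0, 1}))) fun t ht => ?_
    rw [Set.mem_ofPred_eq] at ht
    obtain ⟨h1, h2⟩ := ht
    by_cases h01 : t = 0 ∨ t = 1
    · right
      simpa using h01
    push Not at h01
    left
    refine hAB ⟨?_, hVB fun i _ => ?_⟩
    · show ((t : ℝ)) ∈ A
      rcases h1 with ⟨s, hs, hst⟩ | h1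
      · have : s = (t : ℝ) := OnePoint.coe_injective hst
        rwa [← this]
      · have h3 : x.1 = ((t : ℝ) : OnePoint ℝ) := h1.symm
        rw [h3] at hA
        exact filt_self (by exact_mod_cast h01.1) (by exact_mod_cast h01.2) hA
    · show ((t : ℚ_[P i])) ∈ V i
      rcases h2 i (Set.mem_univ i) with ⟨s, hs, hst⟩ | h1
      · have : s = (t : ℚ_[P i]) := OnePoint.coe_injective hst
        rwa [← this]
      · have h3 : x.2 i = ((t : ℚ_[P i]) : OnePoint _) := h1.symm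
        have h4 := hV i
        rw [h3] at h4
        exact filt_self (by exact_mod_cast h01.1) (by exact_mod_cast h01.2) h4

omit [Fintype ι] in
lemma compact_goodX (hI : IsTr I) {K : Set (PX P)} (hK : IsCompact K)
    (h : ∀ x ∈ K, ∃ U ∈ 𝓝 x, I {t | embX P t ∈ U}) : I {t | embX P t ∈ K} := by
  refine hK.induction_on (p := fun s => I {t | embX P t ∈ s}) ?_ ?_ ?_ ?_
  · exact hI.mono (hI.fin Set.finite_empty) fun t ht => ht.elim
  · intro s t hst ht
    exact hI.mono ht fun x hx => hst hx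
  · intro s t hs ht
    exact hI.mono (hI.union hs ht) fun x hx => hx
  · intro x hx
    obtain ⟨U, hU, hi⟩ := h x hx
    exact ⟨U, mem_nhdsWithin_of_mem_nhds hU, hi⟩

omit [Fintype ι] in
lemma small_padic (i : ι) {ε : ℝ} (hε : 0 < ε) : ∃ z : ℚ_[P i], z ≠ 0 ∧ z ≠ 1 ∧ ‖z‖ < ε := by
  obtain ⟨k, hk⟩ : ∃ k : ℕ, ((1 : ℝ) / 2) ^ k < ε := exists_pow_lt_of_lt_one hε (by norm_num)
  have hp2 := two_le_p (p := P i)
  have h1 : ‖(P i : ℚ_[P i]) ^ (k + 1)‖ = ((P i : ℝ) ^ (k + 1))⁻¹ := by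
    rw [norm_pow, Padic.norm_p, inv_pow]
  have h2 : ((P i : ℝ) ^ (k + 1))⁻¹ < 1 := inv_lt_one_of_one_lt₀ (one_lt_pow₀ (by linarith) (by omega))
  refine ⟨(P i : ℚ_[P i]) ^ (k + 1), ?_, ?_, ?_⟩
  · exact pow_ne_zero _ (by exact_mod_cast (Fact.out (p := (P i).Prime)).ne_zero)
  · intro h
    rw [h, norm_one] at h1
    linarith
  · rw [h1]
    refine lt_of_le_of_lt ?_ hk
    rw [one_div, inv_pow]
    calc ((P i : ℝ) ^ (k + 1))⁻¹ ≤ ((2 : ℝ) ^ (k + 1))⁻¹ := by gcongr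
      _ ≤ ((2 : ℝ) ^ k)⁻¹ := by
        gcongr
        · norm_num
        · omega

/-- **The main theorem.** Let the inequality hold near a point `w` whose coordinates at the places of
`C` are `0` and whose other coordinates are different from `0` and `1`. Then it holds for all
rational numbers in a compact set which does not contain `0` and `1`, at the places outside `C`
(without a condition at the places in `C`). -/
theorem main (hI : IsTr I) (hP : Function.Injective P) {RC : Prop} {CC : ι → Prop} {w : Pt P}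
    (hw : Good I w) (hr0 : RC → w.1 = 0) (hr1 : ¬ RC → w.1 ≠ 0 ∧ w.1 ≠ 1)
    (hc0 : ∀ i, CC i → w.2 i = 0) (hc1 : ∀ i, ¬ CC i → w.2 i ≠ 0 ∧ w.2 i ≠ 1)
    {K : Set ℝ} {J : ∀ i, Set ℚ_[P i]} (hK : ¬ RC → IsCompact K ∧ (0 : ℝ) ∉ K ∧ (1 : ℝ) ∉ K)
    (hJ : ∀ i, ¬ CC i → IsCompact (J i) ∧ (0 : ℚ_[P i]) ∉ J i ∧ (1 : ℚ_[P i]) ∉ J i) :
    I {t : ℚ | (¬ RC → (t : ℝ) ∈ K) ∧ ∀ i, ¬ CC i → (t : ℚ_[P i]) ∈ J i} := by
  classical
  obtain ⟨A, hA⟩ : ∃ A : Set (OnePoint ℝ), A = if RC then Set.univ else (↑) '' K := ⟨_, rfl⟩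
  obtain ⟨B, hB⟩ : ∃ B : ∀ i, Set (OnePoint ℚ_[P i]), B = fun i => if CC i then Set.univ else
    (↑) '' (J i) := ⟨_, rfl⟩
  have hAc : IsCompact A := by
    rw [hA]
    split_ifs with h
    · exact isCompact_univ
    · exact (hK h).1.image OnePoint.continuous_coe
  have hBc : ∀ i, IsCompact (B i) := by
    intro i
    rw [hB]
    simp only
    split_ifs with h
    · exact isCompact_univ
    · exact (hJ i h).1.image OnePoint.continuous_coe
  have hcomp : IsCompact (A ×ˢ Set.pi Set.univ B) := hAc.prod (isCompact_univ_pi hBc)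
  refine hI.mono (compact_goodX hI hcomp ?_) ?_
  swap
  · intro t ht
    refine ⟨?_, fun i _ => ?_⟩
    · show ((t : ℝ) : OnePoint ℝ) ∈ A
      rw [hA]
      split_ifs with h
      · exact Set.mem_univ _
      · exact ⟨_, ht.1 h, rfl⟩
    · show ((t : ℚ_[P i]) : OnePoint _) ∈ B i
      rw [hB]
      simp only
      split_ifs with h
      · exact Set.mem_univ _
      · exact ⟨_, ht.2 i h, rfl⟩
  -- a point
  rintro x ⟨hxA, hxB⟩
  apply goodX hI
  obtain ⟨RC', hRC'⟩ : ∃ R : Prop, R = (x.1 = OnePoint.infty ∨ x.1 = ((0 : ℝ) : OnePoint ℝ) ∨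
    x.1 = ((1 : ℝ) : OnePoint ℝ)) := ⟨_, rfl⟩
  obtain ⟨CC', hCC'⟩ : ∃ R : ι → Prop, R = fun i => (x.2 i = OnePoint.infty ∨
    x.2 i = ((0 : ℚ_[P i]) : OnePoint _) ∨ x.2 i = ((1 : ℚ_[P i]) : OnePoint _)) := ⟨_, rfl⟩
  have hsubR : RC' → RC := by
    intro h
    by_contra hRC
    rw [hA, if_neg hRC] at hxA
    obtain ⟨s, hs, hsx⟩ := hxA
    rw [hRC', ← hsx] at h
    rcases h with h | h | h
    · exact OnePoint.coe_ne_infty _ h
    · have := OnePoint.coe_injective h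
      rw [this] at hs
      exact (hK hRC).2.1 hs
    · have := OnePoint.coe_injective h
      rw [this] at hs
      exact (hK hRC).2.2 hs
  have hsubC : ∀ i, CC' i → CC i := by
    intro i h
    by_contra hi
    have hxi := hxB i (Set.mem_univ i)
    rw [hB] at hxi
    simp only at hxi
    rw [if_neg hi] at hxi
    obtain ⟨s, hs, hsx⟩ := hxi
    rw [hCC'] at h
    rw [← hsx] at h
    rcases h with h | h | h
    · exact OnePoint.coe_ne_infty _ h
    · have := OnePoint.coe_injective h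
      rw [this] at hs
      exact (hJ i hi).2.1 hs
    · have := OnePoint.coe_injective h
      rw [this] at hs
      exact (hJ i hi).2.2 hs
  -- the exact good point
  obtain ⟨w', hw', e1, e2, e3, e4⟩ : ∃ w' : Pt P, Good I w' ∧ (RC' → w'.1 = 0) ∧
      (¬ RC' → w'.1 ≠ 0 ∧ w'.1 ≠ 1) ∧ (∀ i, CC' i → w'.2 i = 0) ∧
      ∀ i, ¬ CC' i → w'.2 i ≠ 0 ∧ w'.2 i ≠ 1 := by
    obtain ⟨ε, hε, hgood⟩ := hw.nbhd
    choose z hz using fun i => small_padic (P := P) i hε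
    obtain ⟨w', h1, h2⟩ := exists_pt (P := P)
      (if RC' then 0 else if RC then min (ε / 2) (1 / 2) else w.1)
      (fun i => if CC' i then 0 else if CC i then z i else w.2 i)
    have hmin0 : 0 < min (ε / 2) (1 / 2) := lt_min (by linarith) (by norm_num)
    have hmin1 : min (ε / 2) (1 / 2) ≤ 1 / 2 := min_le_right _ _
    have hmin2 : min (ε / 2) (1 / 2) ≤ ε / 2 := min_le_left _ _
    refine ⟨w', hgood _ ?_ (fun i => ?_), fun h => ?_, fun h => ?_, fun i hi => ?_, fun i hi => ?_⟩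
    · rw [h1]
      by_cases c1 : RC'
      · rw [if_pos c1, hr0 (hsubR c1)]
        simpa using hε
      · rw [if_neg c1]
        by_cases c2 : RC
        · rw [if_pos c2, hr0 c2, sub_zero, abs_of_pos hmin0]
          linarith
        · rw [if_neg c2]
          simpa using hε
    · rw [h2]
      by_cases c1 : CC' i
      · rw [if_pos c1, hc0 i (hsubC i c1)]
        simpa using hε
      · rw [if_neg c1]
        by_cases c2 : CC i
        · rw [if_pos c2, hc0 i c2, sub_zero]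
          exact (hz i).2.2
        · rw [if_neg c2]
          simpa using hε
    · rw [h1, if_pos h]
    · rw [h1, if_neg h]
      by_cases c2 : RC
      · rw [if_pos c2]
        exact ⟨hmin0.ne', by linarith⟩
      · rw [if_neg c2]
        exact hr1 c2
    · rw [h2, if_pos hi]
    · rw [h2, if_neg hi]
      by_cases c2 : CC i
      · rw [if_pos c2]
        exact ⟨(hz i).1, (hz i).2.1⟩
      · rw [if_neg c2]
        exact hc1 i c2
  -- positive real coordinate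
  obtain ⟨w2, hw2, d1, d2, d3, d4⟩ : ∃ w' : Pt P, Good I w' ∧ (RC' → w'.1 = 0) ∧
      (¬ RC' → 0 < w'.1) ∧ (∀ i, CC' i → w'.2 i = 0) ∧ ∀ i, ¬ CC' i → w'.2 i ≠ 0 := by
    by_cases hcase : ¬ RC' ∧ w'.1 < 0
    · have g1 : Good I (1 - w') := good_one_sub' hI hw'
      have n1 : (1 - w').1 ≠ 0 := by
        show 1 - w'.1 ≠ 0
        have := hcase.2
        intro h
        linarith
      have n2 : ∀ i, (1 - w').2 i ≠ 0 := by
        intro i
        show 1 - w'.2 i ≠ 0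
        by_cases hi : CC' i
        · rw [e3 i hi, sub_zero]
          exact one_ne_zero
        · exact sub_ne_zero.2 (Ne.symm (e4 i hi).2)
      have g2 : Good I (1 - w')⁻¹ := good_inv' hI n1 n2 g1
      have g3 : Good I (1 - (1 - w')⁻¹) := good_one_sub' hI g2
      refine ⟨_, g3, fun h => absurd h hcase.1, fun _ => ?_, fun i hi => ?_, fun i hi => ?_⟩
      · show 0 < 1 - (1 - w'.1)⁻¹
        have h1 : 1 < 1 - w'.1 := by linarith [hcase.2]
        have := inv_lt_one_of_one_lt₀ h1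
        linarith
      · show 1 - (1 - w'.2 i)⁻¹ = 0
        rw [e3 i hi]
        simp
      · show 1 - (1 - w'.2 i)⁻¹ ≠ 0
        intro h
        have h1 : (1 - w'.2 i)⁻¹ = 1 := (sub_eq_zero.1 h).symm
        have h2 := inv_eq_one.1 h1
        exact (e4 i hi).1 (by linear_combination -h2)
    · refine ⟨w', hw', e1, fun h => ?_, e3, fun i hi => (e4 i hi).1⟩
      have h1 := (e2 h).1
      rcases lt_trichotomy w'.1 0 with h2 | h2 | h2
      · exact absurd ⟨h, h2⟩ hcase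
      · exact absurd h2 h1
      · exact h2
  have hcore : ∀ y : Pt P, (RC' → y.1 = 0) → (¬ RC' → 0 < y.1 ∧ y.1 < 1) →
      (∀ i, CC' i → y.2 i = 0) →
      (∀ i, ¬ CC' i → y.2 i ≠ 0 ∧ ‖y.2 i‖ ≤ ((P i : ℝ) ^ 2)⁻¹) → Good I y :=
    fun y a b c d => core hI hP (fun ρ hρ => target hI hP hw2 d1 d2 d3 d4 ρ hρ) a b c d
  -- the coordinates
  have hxr : ¬ RC' → ∃ a : ℝ, x.1 = (a : OnePoint ℝ) ∧ a ≠ 0 ∧ a ≠ 1 := by
    intro h
    rw [hRC'] at h
    push Not at h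
    obtain ⟨a, ha⟩ := OnePoint.ne_infty_iff_exists.1 h.1
    refine ⟨a, ha.symm, ?_, ?_⟩
    · rintro rfl
      exact h.2.1 ha.symm
    · rintro rfl
      exact h.2.2 ha.symm
  have hxi : ∀ i, ¬ CC' i → ∃ a : ℚ_[P i], x.2 i = (a : OnePoint _) ∧ a ≠ 0 ∧ a ≠ 1 := by
    intro i h
    rw [hCC'] at h
    push Not at h
    obtain ⟨a, ha⟩ := OnePoint.ne_infty_iff_exists.1 h.1
    refine ⟨a, ha.symm, ?_, ?_⟩
    · rintro rfl
      exact h.2.1 ha.symm
    · rintro rfl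
      exact h.2.2 ha.symm
  obtain ⟨a, ha⟩ : ∃ a : ℝ, ¬ RC' → x.1 = (a : OnePoint ℝ) ∧ a ≠ 0 ∧ a ≠ 1 := by
    by_cases h : RC'
    · exact ⟨0, fun h' => absurd h h'⟩
    · obtain ⟨a, ha⟩ := hxr h
      exact ⟨a, fun _ => ha⟩
  have hb : ∀ i, ∃ b : ℚ_[P i], ¬ CC' i → x.2 i = (b : OnePoint _) ∧ b ≠ 0 ∧ b ≠ 1 := by
    intro i
    by_cases h : CC' i
    · exact ⟨0, fun h' => absurd h h'⟩
    · obtain ⟨a, ha⟩ := hxi i h
      exact ⟨a, fun _ => ha⟩
  choose b hb using hb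
  refine src' hI hP hcore (a := a) (b := b) (fun h => ?_) (fun h => ?_) (fun i hi => ?_)
    (fun i hi => ?_)
  · rw [hRC'] at h
    rcases h with h | h | h
    · rw [h, filt_infty]
      exact Or.inr (Or.inr rfl)
    · rw [h, filt_cusp (Or.inl rfl)]
      exact Or.inl rfl
    · rw [h, filt_cusp (Or.inr rfl)]
      exact Or.inr (Or.inl rfl)
  · obtain ⟨h1, h2, h3⟩ := ha h
    rw [h1, filt_coe h2 h3]
    exact ⟨rfl, h2, h3⟩
  · rw [hCC'] at hi
    rcases hi with h | h | h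
    · rw [h, filt_infty]
      exact Or.inr (Or.inr rfl)
    · rw [h, filt_cusp (Or.inl rfl)]
      exact Or.inl rfl
    · rw [h, filt_cusp (Or.inr rfl)]
      exact Or.inr (Or.inl rfl)
  · obtain ⟨h1, h2, h3⟩ := hb i hi
    rw [h1, filt_coe h2 h3]
    exact ⟨rfl, h2, h3⟩

end Q265.LC
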