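import Pool.Agent.Q265.LC.G

/-! # Localisation: counting and the lower bound -/

set_option autoImplicit false

open Finset Polynomial Filter Topology

namespace Q265.LC

open Q241.AC (R)

/-- the number of rational numbers of bounded height -/
lemma count_rat {Y : ℝ} (hY : 1 ≤ Y) : {t : ℚ | H t ≤ Y}.Finite ∧
    ({t : ℚ | H t ≤ Y}.ncard : ℝ) ≤ 3 * Y ^ 2 := by
  classical
  obtain ⟨n, hn⟩ : ∃ n : ℕ, n = ⌊Y⌋₊ := ⟨_, rfl⟩
  obtain ⟨S, hS⟩ : ∃ S : Finset ℚ, S = ((Finset.Icc (-(n : ℤ)) n) ×ˢ (Finset.Icc 1 n)).image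
    (fun p : ℤ × ℕ => (p.1 : ℚ) / p.2) := ⟨_, rfl⟩
  have hsub : {t : ℚ | H t ≤ Y} ⊆ (S : Set ℚ) := by
    intro t ht
    rw [Set.mem_ofPred_eq] at ht
    rw [hS, coe_image]
    refine ⟨(t.num, t.den), ?_, Rat.num_div_den t⟩
    have h1 : (t.den : ℝ) ≤ Y := (le_max_right _ _).trans ht
    have h2 : |(t.num : ℝ)| ≤ Y := (le_max_left _ _).trans ht
    have h3 : t.den ≤ n := by rw [hn]; exact Nat.le_floor h1
    have h4 : t.num.natAbs ≤ n := by
      rw [hn]
      refine Nat.le_floor ?_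
      rw [Nat.cast_natAbs, Int.cast_abs]
      exact h2
    have := t.pos
    simp only [coe_product, coe_Icc, Set.mem_prod, Set.mem_Icc]
    omega
  refine ⟨S.finite_toSet.subset hsub, ?_⟩
  have hcard : (S.card : ℝ) ≤ 3 * Y ^ 2 := by
    have h1 : S.card ≤ (2 * n + 1) * n := by
      rw [hS]
      refine card_image_le.trans ?_
      rw [card_product, Int.card_Icc, Nat.card_Icc]
      have : ((n : ℤ) + 1 - -(n : ℤ)).toNat = 2 * n + 1 := by omega
      rw [this, Nat.add_sub_cancel]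
    have h2 : (n : ℝ) ≤ Y := by rw [hn]; exact Nat.floor_le (by linarith)
    have h3 : (0 : ℝ) ≤ n := Nat.cast_nonneg n
    calc (S.card : ℝ) ≤ (2 * n + 1) * n := by exact_mod_cast h1
      _ ≤ (2 * Y + Y) * Y := by gcongr
      _ = 3 * Y ^ 2 := by ring
  refine le_trans ?_ hcard
  have := Set.ncard_le_ncard hsub S.finite_toSet
  rw [Set.ncard_coe_finset] at this
  exact_mod_cast this

/-- **the number of the values of a map** -/
theorem count_values {F G : ℚ[X]} {d : ℕ} (hB : Bel F G d) : ∃ C : ℝ, ∀ X : ℝ, 1 ≤ X →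
    {s : ℚ | (∃ t : ℚ, G.eval t ≠ 0 ∧ s = F.eval t / G.eval t) ∧ H s ≤ X}.Finite ∧
    ({s : ℚ | (∃ t : ℚ, G.eval t ≠ 0 ∧ s = F.eval t / G.eval t) ∧ H s ≤ X}.ncard : ℝ) ≤
      C * X ^ (2 / (d : ℝ)) := by
  classical
  obtain ⟨C1, C2, hC1, hC2, C3, hC3, Δ, hΔ, Z, hZ, hv⟩ := values hB
  have hd : (1 : ℝ) ≤ d := by exact_mod_cast hB.hd
  have hd0 : (0 : ℝ) < d := by linarith
  obtain ⟨C, hC⟩ : ∃ C : ℝ, C = max C1 1 := ⟨_, rfl⟩
  have hC' : 1 ≤ C := by rw [hC]; exact le_max_right _ _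
  have hCC : C1 ≤ C := by rw [hC]; exact le_max_left _ _
  have hC0 : 0 < C := by linarith
  refine ⟨3 * C ^ (2 / (d : ℝ)) + Z.ncard, fun X hX => ?_⟩
  have hX0 : 0 < X := by linarith
  obtain ⟨Y, hY⟩ : ∃ Y : ℝ, Y = (C * X) ^ (1 / (d : ℝ)) := ⟨_, rfl⟩
  have hY1 : 1 ≤ Y := by
    rw [hY]
    exact Real.one_le_rpow (by nlinarith) (by positivity)
  obtain ⟨g1, g2⟩ := count_rat hY1
  obtain ⟨f, hf⟩ : ∃ f : ℚ → ℚ, f = fun t => F.eval t / G.eval t := ⟨_, rfl⟩
  have hsub : {s : ℚ | (∃ t : ℚ, G.eval t ≠ 0 ∧ s = F.eval t / G.eval t) ∧ H s ≤ X} ⊆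
      f '' ({t : ℚ | H t ≤ Y} ∪ Z) := by
    rintro s ⟨⟨t, hG, hs⟩, hsX⟩
    refine ⟨t, ?_, by rw [hf, hs]⟩
    by_cases htZ : t ∈ Z
    · exact Or.inr htZ
    left
    obtain ⟨-, -, -, hH, -, -, -⟩ := hv t htZ
    rw [← hs] at hH
    have h1 : H t ^ d ≤ C * X := by
      refine hH.trans ?_
      have := one_le_H s
      calc C1 * H s ≤ C * H s := by gcongr
        _ ≤ C * X := by gcongr
    rw [Set.mem_ofPred_eq]
    have h2 := one_le_H t
    calc H t = (H t ^ d) ^ (1 / (d : ℝ)) := by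
          rw [← Real.rpow_natCast, ← Real.rpow_mul (by linarith), mul_one_div_cancel hd0.ne',
            Real.rpow_one]
      _ ≤ (C * X) ^ (1 / (d : ℝ)) := Real.rpow_le_rpow (by positivity) h1 (by positivity)
      _ = Y := hY.symm
  have hfin : ({t : ℚ | H t ≤ Y} ∪ Z).Finite := g1.union hZ
  refine ⟨(hfin.image f).subset hsub, ?_⟩
  have h1 : {s : ℚ | (∃ t : ℚ, G.eval t ≠ 0 ∧ s = F.eval t / G.eval t) ∧ H s ≤ X}.ncard ≤
      {t : ℚ | H t ≤ Y}.ncard + Z.ncard :=
    (Set.ncard_le_ncard hsub (hfin.image f)).trans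
      ((Set.ncard_image_le hfin).trans (Set.ncard_union_le _ _))
  have h2 : (({s : ℚ | (∃ t : ℚ, G.eval t ≠ 0 ∧ s = F.eval t / G.eval t) ∧ H s ≤ X}.ncard : ℕ) : ℝ) ≤
      ({t : ℚ | H t ≤ Y}.ncard : ℝ) + Z.ncard := by exact_mod_cast h1
  have h3 : Y ^ 2 = C ^ (2 / (d : ℝ)) * X ^ (2 / (d : ℝ)) := by
    rw [hY, ← Real.rpow_natCast, ← Real.rpow_mul (by positivity), Real.mul_rpow hC0.le hX0.le]
    congr 1
    · congr 1
      push_cast
      ring
    · congr 1
      push_cast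
      ring
  have h4 : 1 ≤ X ^ (2 / (d : ℝ)) := Real.one_le_rpow hX (by positivity)
  have h5 : (0 : ℝ) ≤ Z.ncard := Nat.cast_nonneg _
  calc _ ≤ ({t : ℚ | H t ≤ Y}.ncard : ℝ) + Z.ncard := h2
    _ ≤ 3 * Y ^ 2 + Z.ncard * X ^ (2 / (d : ℝ)) := by
      gcongr
      exact le_mul_of_one_le_right h5 h4
    _ = (3 * C ^ (2 / (d : ℝ)) + Z.ncard) * X ^ (2 / (d : ℝ)) := by
      rw [h3]
      ring

/-! ## The lower bound -/

/-- the function in the exponent -/
noncomputable def psi (x : ℝ) : ℝ := √x / Real.log (x + 2)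

/-- the inequality which is known to fail -/
def Low (T : Set ℚ) : Prop := ∀ κ : ℝ, 0 < κ → ∃ C : ℝ, ∀ t ∈ T, t ≠ 0 → t ≠ 1 →
  Real.log (H t) ≤ Real.log (Rd t) + κ * psi (Real.log (H t)) + C

lemma psi_nonneg {x : ℝ} (hx : 0 ≤ x) : 0 ≤ psi x :=
  div_nonneg (Real.sqrt_nonneg _) (Real.log_nonneg (by linarith))

/-- the function at comparable arguments -/
lemma psi_comp {d c : ℝ} (hd : 1 ≤ d) (hc : 0 ≤ c) : ∃ K L : ℝ, 0 < K ∧ 0 ≤ L ∧ ∀ x y : ℝ,
    0 ≤ x → 0 ≤ y → d * x - c ≤ y → y ≤ d * x + c → psi y ≤ K * psi x + L := by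
  have hl2 : 0 < Real.log 2 := Real.log_pos one_lt_two
  obtain ⟨A, hA⟩ : ∃ A : ℝ, A = 1 + Real.log (1 + c) / Real.log 2 := ⟨_, rfl⟩
  have hlc : 0 ≤ Real.log (1 + c) := Real.log_nonneg (by linarith)
  have hA0 : 0 < A := by
    rw [hA]
    positivity
  refine ⟨A * √d, A * √c / Real.log 2, by positivity, by positivity, fun x y hx hy h1 h2 => ?_⟩
  have hx2 : 0 < Real.log (x + 2) := Real.log_pos (by linarith)
  have hy2 : 0 < Real.log (y + 2) := Real.log_pos (by linarith)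
  have hxl : Real.log 2 ≤ Real.log (x + 2) := Real.log_le_log (by norm_num) (by linarith)
  have hyl : Real.log 2 ≤ Real.log (y + 2) := Real.log_le_log (by norm_num) (by linarith)
  have h3 : x + 2 ≤ (1 + c) * (y + 2) := by nlinarith
  have h4 : Real.log (x + 2) ≤ A * Real.log (y + 2) := by
    have h5 := Real.log_le_log (by linarith) h3
    rw [Real.log_mul (by positivity) (by positivity)] at h5
    have h6 : Real.log (1 + c) ≤ Real.log (1 + c) / Real.log 2 * Real.log (y + 2) := by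
      rw [div_mul_eq_mul_div, le_div_iff₀ hl2]
      gcongr
    rw [hA, add_mul, one_mul]
    linarith
  have h5 : √y ≤ √d * √x + √c := by
    rw [← Real.sqrt_mul (by linarith)]
    refine (Real.sqrt_le_sqrt h2).trans ?_
    have hdx : 0 ≤ d * x := by positivity
    rw [Real.sqrt_le_iff]
    refine ⟨by positivity, ?_⟩
    have e1 := Real.sq_sqrt hdx
    have e2 := Real.sq_sqrt hc
    have e3 : 0 ≤ √(d * x) * √c := by positivity
    nlinarith
  unfold psi
  rw [div_le_iff₀ hy2]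
  have h6 : √d * √x + √c ≤ (√d * (√x / Real.log (x + 2)) + √c / Real.log 2) * Real.log (x + 2) := by
    have e1 : (√d * (√x / Real.log (x + 2)) + √c / Real.log 2) * Real.log (x + 2) =
        √d * √x + √c * (Real.log (x + 2) / Real.log 2) := by
      field_simp
    rw [e1]
    have h7 : 1 ≤ Real.log (x + 2) / Real.log 2 := (one_le_div hl2).2 hxl
    have h8 : 0 ≤ √c := Real.sqrt_nonneg _
    nlinarith
  have h7 : 0 ≤ √d * (√x / Real.log (x + 2)) + √c / Real.log 2 := by positivity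
  calc √y ≤ √d * √x + √c := h5
    _ ≤ (√d * (√x / Real.log (x + 2)) + √c / Real.log 2) * Real.log (x + 2) := h6
    _ ≤ (√d * (√x / Real.log (x + 2)) + √c / Real.log 2) * (A * Real.log (y + 2)) := by gcongr
    _ = (A * √d * (√x / Real.log (x + 2)) + A * √c / Real.log 2) * Real.log (y + 2) := by ring

theorem isTr_low : IsTr Low where
  mono := fun h hs κ hκ => by
    obtain ⟨C, hC⟩ := h κ hκ
    exact ⟨C, fun t ht => hC t (hs ht)⟩
  union := fun h h' κ hκ => by
    obtain ⟨C, hC⟩ := h κ hκ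
    obtain ⟨C', hC'⟩ := h' κ hκ
    refine ⟨max C C', fun t ht h0 h1 => ?_⟩
    rcases ht with ht | ht
    · exact (hC t ht h0 h1).trans (by gcongr; exact le_max_left _ _)
    · exact (hC' t ht h0 h1).trans (by gcongr; exact le_max_right _ _)
  fin := fun {T} h κ hκ => by
    refine ⟨∑ t ∈ h.toFinset, Real.log (H t), fun t ht _ _ => ?_⟩
    have h1 : Real.log (H t) ≤ ∑ t ∈ h.toFinset, Real.log (H t) :=
      single_le_sum (f := fun t => Real.log (H t)) (fun s _ => Real.log_nonneg (one_le_H s))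
        (h.mem_toFinset.2 ht)
    have h2 : 0 ≤ Real.log (Rd t) := Real.log_nonneg (one_le_Rd t)
    have h3 : 0 ≤ κ * psi (Real.log (H t)) :=
      mul_nonneg hκ.le (psi_nonneg (Real.log_nonneg (one_le_H t)))
    linarith
  tr := by
    intro F G d hB T T' hT' h κ hκ
    obtain ⟨C1, C2, hC1, hC2, C3, hC3, Δ, hΔ, Z, hZ, hv⟩ := values hB
    have hd : (1 : ℝ) ≤ d := by exact_mod_cast hB.hd
    obtain ⟨c, hc⟩ : ∃ c : ℝ, c = |Real.log C1| + |Real.log C3| := ⟨_, rfl⟩
    have hc0 : 0 ≤ c := by rw [hc]; positivity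
    obtain ⟨K, L, hK, hL, hcomp⟩ := psi_comp hd hc0
    obtain ⟨C, hC⟩ := hT' (κ / K) (by positivity)
    obtain ⟨M, hM⟩ : ∃ M : ℝ, M = ∑ t ∈ hZ.toFinset, Real.log (H t) := ⟨_, rfl⟩
    refine ⟨max M (Real.log C1 + Real.log C2 + κ / K * L + C), fun t ht ht0 ht1 => ?_⟩
    by_cases htZ : t ∈ Z
    · have h1 : Real.log (H t) ≤ M := by
        rw [hM]
        exact single_le_sum (f := fun t => Real.log (H t))
          (fun s _ => Real.log_nonneg (one_le_H s)) (hZ.mem_toFinset.2 htZ)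
      have h2 : 0 ≤ Real.log (Rd t) := Real.log_nonneg (one_le_Rd t)
      have h3 : 0 ≤ κ * psi (Real.log (H t)) :=
        mul_nonneg hκ.le (psi_nonneg (Real.log_nonneg (one_le_H t)))
      have h4 := le_max_left M (Real.log C1 + Real.log C2 + κ / K * L + C)
      linarith
    obtain ⟨hG, hy0, hy1, hH, hR, hU, -⟩ := hv t htZ
    have h1 := hC _ (h t ht hG) hy0 hy1
    obtain ⟨y, hy⟩ : ∃ y, y = F.eval t / G.eval t := ⟨_, rfl⟩
    rw [← hy] at h1 hH hR hU
    have hh := one_le_H t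
    have hyy := one_le_H y
    have hr := one_le_Rd t
    have hry := one_le_Rd y
    have k1 : d * Real.log (H t) ≤ Real.log C1 + Real.log (H y) := by
      rw [← Real.log_mul hC1.ne' (by positivity), ← Real.log_pow]
      exact Real.log_le_log (by positivity) hH
    have k1' : Real.log (H y) ≤ Real.log C3 + d * Real.log (H t) := by
      rw [← Real.log_pow, ← Real.log_mul hC3.ne' (by positivity)]
      exact Real.log_le_log (by positivity) hU
    have k2 : Real.log (Rd y) ≤ Real.log C2 + Real.log (Rd t) + (d - 1) * Real.log (H t) := by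
      have h2 := Real.log_le_log (by linarith) hR
      have h3 : Real.log (C2 * Rd t * H t ^ (d - 1)) =
          Real.log C2 + Real.log (Rd t) + (d - 1 : ℕ) * Real.log (H t) := by
        rw [Real.log_mul (by positivity) (by positivity), Real.log_mul hC2.ne' (by positivity),
          Real.log_pow]
      rw [h3, Nat.cast_sub hB.hd, Nat.cast_one] at h2
      exact h2
    have a1 := le_abs_self (Real.log C1)
    have a2 := abs_nonneg (Real.log C1)
    have a3 := le_abs_self (Real.log C3)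
    have a4 := abs_nonneg (Real.log C3)
    have k3 := hcomp (Real.log (H t)) (Real.log (H y)) (Real.log_nonneg hh) (Real.log_nonneg hyy)
      (by rw [hc]; linarith) (by rw [hc]; linarith)
    have k4 : κ / K * psi (Real.log (H y)) ≤ κ * psi (Real.log (H t)) + κ / K * L := by
      have h5 : 0 < κ / K := by positivity
      calc κ / K * psi (Real.log (H y)) ≤ κ / K * (K * psi (Real.log (H t)) + L) := by gcongr
        _ = κ * psi (Real.log (H t)) + κ / K * L := by field_simp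
    have h6 := le_max_right M (Real.log C1 + Real.log C2 + κ / K * L + C)
    linarith

theorem not_low : ¬ Low Set.univ := by
  intro h
  obtain ⟨κ, hκ, hlow⟩ := Q241.AC.lower one_pos
  obtain ⟨C, hC⟩ := h (κ / 2) (by positivity)
  obtain ⟨Y, hY⟩ := Q265.LO.grow (κ := κ / 2) (by positivity) (|C| + 1)
  obtain ⟨a, b, c, h1, h2, h3, h4, -, h6, h7⟩ := hlow (max 1 (Real.exp Y))
  have hc1 : (1 : ℝ) ≤ c := (le_max_left _ _).trans h6
  have hcY : Real.exp Y ≤ c := (le_max_right _ _).trans h6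
  have hcp : (0 : ℝ) < c := by linarith
  obtain ⟨y, hy⟩ : ∃ y : ℝ, y = Real.log c := ⟨_, rfl⟩
  have hyY : Y ≤ y := by
    rw [hy, Real.le_log_iff_exp_le hcp]
    exact hcY
  obtain ⟨hy1, hly, hgr⟩ := hY y hyY
  have hac : Nat.Coprime a c := by
    rw [← h4, add_comm]
    exact (Nat.coprime_add_self_right).2 h3
  have hcz : (c : ℤ) ≠ 0 := by omega
  obtain ⟨n1, n2, n3⟩ := num_den (a := a) (c := c) hcz (Nat.isCoprime_iff_coprime.2 hac)
  obtain ⟨t, ht⟩ : ∃ t : ℚ, t = ((a : ℤ) : ℚ) / ((c : ℤ) : ℚ) := ⟨_, rfl⟩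
  rw [← ht] at n1 n2 n3
  rw [Int.natAbs_natCast] at n1 n2
  have n3' : (t.num - t.den).natAbs = b := by rw [n3]; omega
  have hcq : ((c : ℤ) : ℚ) ≠ 0 := by exact_mod_cast hcz
  have ht0 : t ≠ 0 := by
    rw [ht]
    exact div_ne_zero (by exact_mod_cast h1.ne') hcq
  have ht1 : t ≠ 1 := by
    rw [ht]
    intro h1
    rw [div_eq_one_iff_eq hcq] at h1
    have : a = c := by exact_mod_cast h1
    omega
  have hHt : H t = c := by
    unfold H
    have e1 : |(t.num : ℝ)| = a := by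
      have : |(t.num : ℝ)| = ((t.num.natAbs : ℕ) : ℝ) := by rw [Nat.cast_natAbs, Int.cast_abs]
      rw [this, n1]
    rw [e1, n2]
    refine max_eq_right ?_
    have : a ≤ c := by omega
    exact_mod_cast this
  have hRt : Rd t = R (a * b * c) := by
    unfold Rd Tp
    rw [n3', n1, n2]
    congr 1
    ring
  have k1 := hC t (Set.mem_univ t) ht0 ht1
  rw [hHt, hRt, ← hy] at k1
  have hR1 : (1 : ℝ) ≤ R (a * b * c) := Q241.AC.R_one_le _
  have k2 := Real.log_lt_log (by positivity) h7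
  rw [Real.log_mul (by positivity) (Real.exp_pos _).ne', Real.log_exp, ← hy] at k2
  have k3 : psi y ≤ √y / Real.log y := by
    unfold psi
    have : Real.log y ≤ Real.log (y + 2) := Real.log_le_log (by linarith) (by linarith)
    have h0 : 0 < Real.log y := by linarith
    gcongr
  have k4 : κ / 2 * psi y ≤ κ / 2 * (√y / Real.log y) := by gcongr
  have k5 : κ * √y / Real.log y = κ / 2 * (√y / Real.log y) + κ / 2 * √y / Real.log y := by ring
  have k6 := le_abs_self C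
  linarith

end Q265.LC
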