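import Pool.Agent.Q265.LC.L
import Pool.Agent.Q272.AbcH.Main

/-! # Localisation of the inequality with `γ / (log γ) ^ ω` -/

set_option autoImplicit false

open Finset Polynomial Filter Topology

namespace Q265.LC

open Q241.AC (R)

/-- `γ(n) / (log γ(n)) ^ ω(n)` -/
noncomputable def Hf (n : ℕ) : ℝ := (R n : ℝ) / Real.log (R n : ℝ) ^ n.primeFactors.card

/-- its logarithm, for the triple of a rational number -/
noncomputable def Lam (t : ℚ) : ℝ := Real.log (Hf (Tp t))

lemma R_pos' (n : ℕ) : (1 : ℝ) ≤ R n := Q241.AC.R_one_le n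

lemma Tp_ne {t : ℚ} (h0 : t ≠ 0) (h1 : t ≠ 1) : Tp t ≠ 0 := by
  unfold Tp
  have k1 : t.num ≠ 0 := Rat.num_ne_zero.2 h0
  have k2 : t.num - t.den ≠ 0 := by
    intro h
    apply h1
    have : t.num = t.den := by omega
    rw [← Rat.num_div_den t, this]
    exact div_self (by exact_mod_cast t.pos.ne')
  exact Nat.mul_ne_zero (Nat.mul_ne_zero (Int.natAbs_ne_zero.2 k1) t.pos.ne')
    (Int.natAbs_ne_zero.2 k2)

lemma two_dvd_Tp (t : ℚ) : 2 ∣ Tp t := by
  unfold Tp
  by_cases h1 : 2 ∣ t.num.natAbs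
  · exact (h1.mul_right _).mul_right _
  by_cases h2 : 2 ∣ t.den
  · exact (h2.mul_left _).mul_right _
  refine Dvd.dvd.mul_left ?_ _
  omega

lemma two_le_R {n : ℕ} (hn : n ≠ 0) (h : 2 ∣ n) : (2 : ℝ) ≤ R n := by
  have h1 : 2 ∣ R n := by
    unfold R
    exact dvd_prod_of_mem _ (Nat.mem_primeFactors.2 ⟨Nat.prime_two, h, hn⟩)
  have h2 : 2 ≤ R n := Nat.le_of_dvd (Q241.AC.R_pos n) h1
  exact_mod_cast h2

lemma om_le (n : ℕ) : (n.primeFactors.card : ℝ) * Real.log 2 ≤ Real.log (R n) := by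
  have h1 : 2 ^ n.primeFactors.card ≤ R n := by
    unfold R
    rw [← prod_const]
    exact prod_le_prod' fun p hp => (Nat.prime_of_mem_primeFactors hp).two_le
  have h2 : ((2 : ℝ)) ^ n.primeFactors.card ≤ R n := by exact_mod_cast h1
  have h3 := Real.log_le_log (by positivity) h2
  rwa [Real.log_pow] at h3

lemma Lam_eq {t : ℚ} (h0 : t ≠ 0) (h1 : t ≠ 1) : Lam t =
    Real.log (Rd t) - (Tp t).primeFactors.card * Real.log (Real.log (Rd t)) := by
  have h2 : (2 : ℝ) ≤ R (Tp t) := two_le_R (Tp_ne h0 h1) (two_dvd_Tp t)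
  have h3 : 0 < Real.log (R (Tp t)) := Real.log_pos (by linarith)
  unfold Lam Hf Rd
  rw [Real.log_div (by linarith) (by positivity), Real.log_pow]

lemma logR_le (t : ℚ) (h0 : t ≠ 0) (h1 : t ≠ 1) : Real.log (Rd t) ≤ 3 * Real.log (H t) + Real.log 2 := by
  have hH := one_le_H t
  have h2 : R (Tp t) ≤ Tp t := Q241.AC.R_le (Tp_ne h0 h1)
  have a1 : ((t.num.natAbs : ℕ) : ℝ) ≤ H t := by
    rw [Nat.cast_natAbs, Int.cast_abs]
    exact le_max_left _ _
  have a2 : (t.den : ℝ) ≤ H t := le_max_right _ _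
  have a3 : (((t.num - t.den).natAbs : ℕ) : ℝ) ≤ 2 * H t := by
    rw [Nat.cast_natAbs, Int.cast_abs]
    push_cast
    have a4 : |(t.num : ℝ)| ≤ H t := le_max_left _ _
    calc |(t.num : ℝ) - t.den| ≤ |(t.num : ℝ)| + |(t.den : ℝ)| := abs_sub _ _
      _ ≤ H t + H t := by
        gcongr
        rwa [Nat.abs_cast]
      _ = 2 * H t := by ring
  have h3 : (Rd t : ℝ) ≤ H t ^ 3 * 2 := by
    calc (Rd t : ℝ) ≤ (Tp t : ℝ) := by exact_mod_cast h2
      _ = (t.num.natAbs : ℝ) * t.den * (t.num - t.den).natAbs := by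
        unfold Tp
        push_cast
        ring
      _ ≤ H t * H t * (2 * H t) := by gcongr
      _ = H t ^ 3 * 2 := by ring
  have h4 := one_le_Rd t
  have h5 := Real.log_le_log (by linarith) h3
  rw [Real.log_mul (by positivity) (by norm_num), Real.log_pow] at h5
  exact_mod_cast h5

/-- the comparison of the terms `ω log log γ` -/
lemma loglog {g g' D : ℝ} {ω ω' k : ℝ} (hg : Real.log 2 ≤ g) (hg' : Real.log 2 ≤ g') (hD : 0 ≤ D)
    (h1 : g ≤ g' + D) (hω : 0 ≤ ω) (hω' : 0 ≤ ω') (hk : 0 ≤ k) (h2 : ω ≤ ω' + k)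
    (h3 : ω' * Real.log 2 ≤ g') :
    ω * Real.log g - ω' * Real.log g' ≤ (1 + D) / Real.log 2 + k * max (Real.log g) 0 := by
  have hl2 : 0 < Real.log 2 := Real.log_pos one_lt_two
  have hg0 : 0 < g := by linarith
  have hg0' : 0 < g' := by linarith
  have h4 : ω' ≤ g' / Real.log 2 := by rwa [le_div_iff₀ hl2]
  rcases le_or_gt (Real.log g) 0 with h | h
  · have h5 : ω * Real.log g ≤ 0 := mul_nonpos_of_nonneg_of_nonpos hω h
    have h6 : -(ω' * Real.log g') ≤ 1 / Real.log 2 := by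
      rcases le_or_gt 0 (Real.log g') with h7 | h7
      · have : 0 ≤ ω' * Real.log g' := mul_nonneg hω' h7
        have : 0 ≤ 1 / Real.log 2 := by positivity
        linarith
      · have h8 : -Real.log g' ≤ 1 / g' := by
          have := Real.log_le_sub_one_of_pos (inv_pos.2 hg0')
          rw [Real.log_inv] at this
          rw [one_div]
          linarith
        calc -(ω' * Real.log g') = ω' * -Real.log g' := by ring
          _ ≤ (g' / Real.log 2) * (1 / g') := by
            have : 0 ≤ -Real.log g' := by linarith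
            gcongr
          _ = 1 / Real.log 2 := by field_simp
    have h7 : 0 ≤ D / Real.log 2 := by positivity
    have h8 : 0 ≤ k * max (Real.log g) 0 := mul_nonneg hk (le_max_right _ _)
    have h9 : (1 + D) / Real.log 2 = 1 / Real.log 2 + D / Real.log 2 := by rw [add_div]
    linarith
  · rw [max_eq_left h.le]
    have h5 : Real.log g ≤ Real.log g' + D / g' := by
      have h6 : g ≤ g' * (1 + D / g') := by
        have : g' * (1 + D / g') = g' + D := by field_simp
        rw [this]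
        exact h1
      have h7 := Real.log_le_log hg0 h6
      rw [Real.log_mul hg0'.ne' (by positivity)] at h7
      have h8 : Real.log (1 + D / g') ≤ D / g' := by
        have := Real.log_le_sub_one_of_pos (x := 1 + D / g') (by positivity)
        linarith
      linarith
    have h6 : ω * Real.log g ≤ (ω' + k) * Real.log g := by gcongr
    have h7 : ω' * Real.log g ≤ ω' * (Real.log g' + D / g') := by gcongr
    have h8 : ω' * (D / g') ≤ D / Real.log 2 := by
      calc ω' * (D / g') ≤ (g' / Real.log 2) * (D / g') := by gcongr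
        _ = D / Real.log 2 := by field_simp
    have h9 : 0 ≤ 1 / Real.log 2 := by positivity
    have h10 : (1 + D) / Real.log 2 = 1 / Real.log 2 + D / Real.log 2 := by rw [add_div]
    nlinarith

/-- the values of a Belyi map and the function `Lam` -/
theorem values_lam {F G : ℚ[X]} {d : ℕ} (hB : Bel F G d) : ∃ A k : ℝ, 0 ≤ A ∧ 0 ≤ k ∧
    ∃ Z : Set ℚ, Z.Finite ∧ ∀ t : ℚ, t ∉ Z → G.eval t ≠ 0 ∧ F.eval t / G.eval t ≠ 0 ∧
      F.eval t / G.eval t ≠ 1 ∧
      (d * Real.log (H t) ≤ Real.log (H (F.eval t / G.eval t)) + A) ∧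
      (Real.log (H (F.eval t / G.eval t)) ≤ d * Real.log (H t) + A) ∧
      Lam (F.eval t / G.eval t) ≤ Lam t + (d - 1) * Real.log (H t) +
        k * Real.log (3 * Real.log (H t) + 2) + A := by
  obtain ⟨C1, C2, hC1, hC2, C3, hC3, Δ, hΔ, Z, hZ, hv⟩ := values hB
  have hl2 : 0 < Real.log 2 := Real.log_pos one_lt_two
  obtain ⟨D, hD⟩ : ∃ D : ℝ, D = Real.log Δ := ⟨_, rfl⟩
  have hΔ1 : (1 : ℝ) ≤ Δ := by exact_mod_cast Nat.one_le_iff_ne_zero.2 hΔ
  have hD0 : 0 ≤ D := by rw [hD]; exact Real.log_nonneg hΔ1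
  obtain ⟨k, hk⟩ : ∃ k : ℝ, k = Δ.primeFactors.card := ⟨_, rfl⟩
  have hk0 : 0 ≤ k := by rw [hk]; exact Nat.cast_nonneg _
  obtain ⟨A, hA⟩ : ∃ A : ℝ, A = |Real.log C1| + |Real.log C2| + |Real.log C3| +
    (1 + D) / Real.log 2 := ⟨_, rfl⟩
  have a1 := le_abs_self (Real.log C1)
  have a2 := abs_nonneg (Real.log C1)
  have a3 := le_abs_self (Real.log C2)
  have a4 := abs_nonneg (Real.log C2)
  have a5 := le_abs_self (Real.log C3)
  have a6 := abs_nonneg (Real.log C3)
  have a7 : 0 ≤ (1 + D) / Real.log 2 := by positivity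
  have hA0 : 0 ≤ A := by rw [hA]; linarith
  refine ⟨A, k, hA0, hk0, Z ∪ {0, 1}, hZ.union (Set.toFinite _), fun t ht => ?_⟩
  have htZ : t ∉ Z := fun h => ht (Or.inl h)
  have ht0 : t ≠ 0 := fun h => ht (Or.inr (by rw [h]; exact Or.inl rfl))
  have ht1 : t ≠ 1 := fun h => ht (Or.inr (by rw [h]; exact Or.inr rfl))
  obtain ⟨hG, hy0, hy1, hH, hR, hU, hpr⟩ := hv t htZ
  refine ⟨hG, hy0, hy1, ?_⟩
  obtain ⟨y, hy⟩ : ∃ y, y = F.eval t / G.eval t := ⟨_, rfl⟩
  rw [← hy] at hy0 hy1 hH hR hU hpr ⊢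
  have hh := one_le_H t
  have hyy := one_le_H y
  have hr := one_le_Rd t
  have hry := one_le_Rd y
  have k1 : d * Real.log (H t) ≤ Real.log C1 + Real.log (H y) := by
    rw [← Real.log_mul hC1.ne' (by positivity), ← Real.log_pow]
    exact Real.log_le_log (by positivity) hH
  have k1' : Real.log (H y) ≤ Real.log C3 + d * Real.log (H t) := by
    rw [← Real.log_pow, ← Real.log_mul hC3.ne' (by positivity)]
    exact Real.log_le_log (by positivity) hU
  have k2 : Real.log (Rd y) ≤ Real.log C2 + Real.log (Rd t) + (d - 1) * Real.log (H t) := by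
    have h2 := Real.log_le_log (by linarith) hR
    have h3 : Real.log (C2 * Rd t * H t ^ (d - 1)) =
        Real.log C2 + Real.log (Rd t) + (d - 1 : ℕ) * Real.log (H t) := by
      rw [Real.log_mul (by positivity) (by positivity), Real.log_mul hC2.ne' (by positivity),
        Real.log_pow]
    rw [h3, Nat.cast_sub hB.hd, Nat.cast_one] at h2
    exact h2
  refine ⟨by rw [hA]; linarith, by rw [hA]; linarith, ?_⟩
  -- the radicals
  have nT := Tp_ne ht0 ht1
  have nY := Tp_ne hy0 hy1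
  have hsub : (Tp t).primeFactors ⊆ (Tp y).primeFactors ∪ Δ.primeFactors := by
    intro ℓ hℓ
    have hp := Nat.prime_of_mem_primeFactors hℓ
    rcases hpr ℓ hp (Nat.dvd_of_mem_primeFactors hℓ) with h | h
    · exact mem_union_left _ (Nat.mem_primeFactors.2 ⟨hp, h, nY⟩)
    · exact mem_union_right _ (Nat.mem_primeFactors.2 ⟨hp, h, hΔ⟩)
  have hcard : ((Tp t).primeFactors.card : ℝ) ≤ (Tp y).primeFactors.card + k := by
    rw [hk]
    exact_mod_cast (card_le_card hsub).trans (card_union_le _ _)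
  have hRR : Rd t ≤ Rd y * Δ := by
    refine R_le_mul nY hΔ nT fun ℓ hℓ hdv => ?_
    rcases hpr ℓ hℓ hdv with h | h
    · exact h.mul_right _
    · exact h.mul_left _
  have hgg : Real.log (Rd t) ≤ Real.log (Rd y) + D := by
    rw [hD, ← Real.log_mul (by positivity) (by positivity)]
    refine Real.log_le_log (by linarith) ?_
    exact_mod_cast hRR
  have g1 : Real.log 2 ≤ Real.log (Rd t) :=
    Real.log_le_log (by norm_num) (two_le_R nT (two_dvd_Tp t))
  have g2 : Real.log 2 ≤ Real.log (Rd y) :=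
    Real.log_le_log (by norm_num) (two_le_R nY (two_dvd_Tp y))
  have hll := loglog g1 g2 hD0 hgg (Nat.cast_nonneg _) (Nat.cast_nonneg _) hk0 hcard (om_le (Tp y))
  have hmax : max (Real.log (Real.log (Rd t))) 0 ≤ Real.log (3 * Real.log (H t) + 2) := by
    have h3 := logR_le t ht0 ht1
    have h4 : 0 ≤ Real.log (H t) := Real.log_nonneg hh
    have h5 : Real.log 2 ≤ 1 := by
      have := Real.log_le_sub_one_of_pos (x := 2) (by norm_num)
      linarith
    refine max_le ?_ (Real.log_nonneg (by linarith))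
    exact Real.log_le_log (by linarith) (by linarith)
  have hkm : k * max (Real.log (Real.log (Rd t))) 0 ≤ k * Real.log (3 * Real.log (H t) + 2) := by
    gcongr
  rw [Lam_eq ht0 ht1, Lam_eq hy0 hy1, hA]
  linarith

/-- the inequality with `γ / (log γ) ^ ω` -/
def HIneq (T : Set ℚ) : Prop := ∀ ε : ℝ, 0 < ε → ∃ C : ℝ, ∀ t ∈ T, t ≠ 0 → t ≠ 1 →
  Real.log (H t) ≤ (1 + ε) * Lam t + C

lemma log_small {η : ℝ} (hη : 0 < η) : ∃ M : ℝ, ∀ x : ℝ, 0 ≤ x → Real.log (3 * x + 2) ≤ η * x + M := by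
  refine ⟨2 * η / 3 - 1 - Real.log (η / 3), fun x hx => ?_⟩
  have h1 := Real.log_le_sub_one_of_pos (x := η / 3 * (3 * x + 2)) (by positivity)
  rw [Real.log_mul (by positivity) (by positivity)] at h1
  linarith

theorem isTr_H : IsTr HIneq := by
  have mono : ∀ {T T' : Set ℚ}, HIneq T' → T ⊆ T' → HIneq T := fun h hs ε hε => by
    obtain ⟨C, hC⟩ := h ε hε
    exact ⟨C, fun t ht => hC t (hs ht)⟩
  have union : ∀ {T T' : Set ℚ}, HIneq T → HIneq T' → HIneq (T ∪ T') := fun h h' ε hε => by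
    obtain ⟨C, hC⟩ := h ε hε
    obtain ⟨C', hC'⟩ := h' ε hε
    refine ⟨max C C', fun t ht h0 h1 => ?_⟩
    rcases ht with ht | ht
    · exact (hC t ht h0 h1).trans (by gcongr; exact le_max_left _ _)
    · exact (hC' t ht h0 h1).trans (by gcongr; exact le_max_right _ _)
  have fin : ∀ {T : Set ℚ}, T.Finite → HIneq T := fun {T} h ε hε => by
    refine ⟨∑ t ∈ h.toFinset, (Real.log (H t) + (1 + ε) * |Lam t|), fun t ht _ _ => ?_⟩
    have h1 : Real.log (H t) + (1 + ε) * |Lam t| ≤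
        ∑ t ∈ h.toFinset, (Real.log (H t) + (1 + ε) * |Lam t|) :=
      single_le_sum (f := fun t => Real.log (H t) + (1 + ε) * |Lam t|)
        (fun s _ => add_nonneg (Real.log_nonneg (one_le_H s)) (by positivity))
        (h.mem_toFinset.2 ht)
    have h2 := neg_abs_le (Lam t)
    have h3 : (1 + ε) * (-|Lam t|) ≤ (1 + ε) * Lam t := by gcongr
    linarith
  refine ⟨mono, union, fin, ?_⟩
  intro F G d hB T T' hT' h
  obtain ⟨A, k, hA, hk, Z, hZ, hv⟩ := values_lam hB
  have key : HIneq (T \ Z) := by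
    intro ε hε
    have hd : (1 : ℝ) ≤ d := by exact_mod_cast hB.hd
    obtain ⟨δ, hδ⟩ : ∃ δ : ℝ, δ = ε / ((1 + ε) * (d + 1) + 1) := ⟨_, rfl⟩
    have hden : 0 < (1 + ε) * (d + 1) + 1 := by positivity
    have hδ0 : 0 < δ := by rw [hδ]; positivity
    have hδ1 : δ * ((1 + ε) * (d + 1) + 1) = ε := by rw [hδ]; field_simp
    have hδ2 : δ ≤ 1 := by
      by_contra hcon
      push Not at hcon
      nlinarith
    obtain ⟨η, hη⟩ : ∃ η : ℝ, η = d - (1 + δ) * (d - 1 + δ) := ⟨_, rfl⟩
    have hη1 : 1 - δ * (d + 1) ≤ η := by rw [hη]; nlinarith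
    have hη2 : 0 < 1 - δ * (d + 1) := by
      by_contra hcon
      push Not at hcon
      nlinarith
    have hη0 : 0 < η := by linarith
    have hη3 : 1 + δ ≤ (1 + ε) * η := by
      calc 1 + δ = (1 + ε) * (1 - δ * (d + 1)) := by linarith
        _ ≤ (1 + ε) * η := by gcongr
    obtain ⟨M, hM⟩ := log_small (η := δ / (k + 1)) (by positivity)
    obtain ⟨C, hC⟩ := hT' δ hδ0
    obtain ⟨B, hB'⟩ : ∃ B : ℝ, B = |A + (1 + δ) * (k * M + A) + C| := ⟨_, rfl⟩
    have hB0 : 0 ≤ B := by rw [hB']; positivity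
    have hBge : A + (1 + δ) * (k * M + A) + C ≤ B := by rw [hB']; exact le_abs_self _
    refine ⟨B / η + ((1 + ε) - (1 + δ) / η) * (B / (1 + δ)), fun t ht ht0 ht1 => ?_⟩
    obtain ⟨hG, hy0, hy1, v1, v2, v3⟩ := hv t ht.2
    have h1 := hC _ (h t ht.1 hG) hy0 hy1
    obtain ⟨y, hy⟩ : ∃ y, y = F.eval t / G.eval t := ⟨_, rfl⟩
    rw [← hy] at h1 v1 v2 v3
    obtain ⟨x, hx⟩ : ∃ x, x = Real.log (H t) := ⟨_, rfl⟩
    have hx0 : 0 ≤ x := by rw [hx]; exact Real.log_nonneg (one_le_H t)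
    obtain ⟨L, hL⟩ : ∃ L, L = Lam t := ⟨_, rfl⟩
    rw [← hx] at v1 v2 v3 ⊢
    rw [← hL] at v3 ⊢
    have h2 := hM x hx0
    have h3 : k * Real.log (3 * x + 2) ≤ δ * x + k * M := by
      calc k * Real.log (3 * x + 2) ≤ k * (δ / (k + 1) * x + M) := by gcongr
        _ = (k / (k + 1)) * (δ * x) + k * M := by ring
        _ ≤ 1 * (δ * x) + k * M := by
          gcongr
          rw [div_le_one (by positivity)]
          linarith
        _ = δ * x + k * M := by ring
    have h4 : (1 + δ) * Lam y ≤ (1 + δ) * (L + (d - 1) * x + (δ * x + k * M) + A) := by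
      gcongr
      linarith
    have h5 : η * x ≤ (1 + δ) * L + B := by
      have h6 : d * x ≤ (1 + δ) * (L + (d - 1) * x + (δ * x + k * M) + A) + C + A := by linarith
      have h7 : η * x = d * x - (1 + δ) * (d - 1 + δ) * x := by rw [hη]; ring
      have h8 : (1 + δ) * (L + (d - 1) * x + (δ * x + k * M) + A) =
        (1 + δ) * L + (1 + δ) * (d - 1 + δ) * x + (1 + δ) * (k * M + A) := by ring
      linarith
    have h6 : x ≤ (1 + δ) / η * L + B / η := by
      have : x = η * x / η := by field_simp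
      rw [this]
      calc η * x / η ≤ ((1 + δ) * L + B) / η := by gcongr
        _ = (1 + δ) / η * L + B / η := by ring
    have h7 : (1 + δ) / η ≤ 1 + ε := by rwa [div_le_iff₀ hη0]
    have h8 : 0 ≤ (1 + ε) - (1 + δ) / η := by linarith
    rcases le_or_gt 0 L with h9 | h9
    · have h10 : (1 + δ) / η * L ≤ (1 + ε) * L := by gcongr
      have h11 : 0 ≤ ((1 + ε) - (1 + δ) / η) * (B / (1 + δ)) := by positivity
      linarith
    · -- `L` is bounded below
      have h10 : -L ≤ B / (1 + δ) := by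
        rw [le_div_iff₀ (by positivity)]
        have : 0 ≤ η * x := by positivity
        linarith
      have h11 : ((1 + ε) - (1 + δ) / η) * (-L) ≤ ((1 + ε) - (1 + δ) / η) * (B / (1 + δ)) := by
        gcongr
      linarith
  exact mono (union key (fin hZ)) fun t ht => by
    by_cases h : t ∈ Z
    · exact Or.inr h
    · exact Or.inl ⟨ht, h⟩

/-! ## The lower bound -/

/-- the function in the exponent -/
noncomputable def psi2 (x : ℝ) : ℝ := x / Real.log (x + 2)

/-- the inequality which is known to fail -/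
def LowH (T : Set ℚ) : Prop := ∀ κ : ℝ, 0 < κ → ∃ C : ℝ, ∀ t ∈ T, t ≠ 0 → t ≠ 1 →
  Real.log (H t) ≤ Lam t + κ * psi2 (Real.log (H t)) + C

lemma psi2_nonneg {x : ℝ} (hx : 0 ≤ x) : 0 ≤ psi2 x :=
  div_nonneg hx (Real.log_nonneg (by linarith))

lemma psi2_comp {d c : ℝ} (hd : 1 ≤ d) (hc : 0 ≤ c) : ∃ K L : ℝ, 0 < K ∧ 0 ≤ L ∧ ∀ x y : ℝ,
    0 ≤ x → 0 ≤ y → d * x - c ≤ y → y ≤ d * x + c → psi2 y ≤ K * psi2 x + L := by
  have hl2 : 0 < Real.log 2 := Real.log_pos one_lt_two
  obtain ⟨A, hA⟩ : ∃ A : ℝ, A = 1 + Real.log (1 + c) / Real.log 2 := ⟨_, rfl⟩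
  have hlc : 0 ≤ Real.log (1 + c) := Real.log_nonneg (by linarith)
  have hA0 : 0 < A := by
    rw [hA]
    positivity
  refine ⟨A * d, A * c / Real.log 2, by positivity, by positivity, fun x y hx hy h1 h2 => ?_⟩
  have hx2 : 0 < Real.log (x + 2) := Real.log_pos (by linarith)
  have hy2 : 0 < Real.log (y + 2) := Real.log_pos (by linarith)
  have hxl : Real.log 2 ≤ Real.log (x + 2) := Real.log_le_log (by norm_num) (by linarith)
  have hyl : Real.log 2 ≤ Real.log (y + 2) := Real.log_le_log (by norm_num) (by linarith)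
  have h3 : x + 2 ≤ (1 + c) * (y + 2) := by nlinarith
  have h4 : Real.log (x + 2) ≤ A * Real.log (y + 2) := by
    have h5 := Real.log_le_log (by linarith) h3
    rw [Real.log_mul (by positivity) (by positivity)] at h5
    have h6 : Real.log (1 + c) ≤ Real.log (1 + c) / Real.log 2 * Real.log (y + 2) := by
      rw [div_mul_eq_mul_div, le_div_iff₀ hl2]
      gcongr
    rw [hA, add_mul, one_mul]
    linarith
  unfold psi2
  rw [div_le_iff₀ hy2]
  have h6 : d * x + c ≤ (d * (x / Real.log (x + 2)) + c / Real.log 2) * Real.log (x + 2) := by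
    have e1 : (d * (x / Real.log (x + 2)) + c / Real.log 2) * Real.log (x + 2) =
        d * x + c * (Real.log (x + 2) / Real.log 2) := by
      field_simp
    rw [e1]
    have h7 : 1 ≤ Real.log (x + 2) / Real.log 2 := (one_le_div hl2).2 hxl
    nlinarith
  have h7 : 0 ≤ d * (x / Real.log (x + 2)) + c / Real.log 2 := by positivity
  calc y ≤ d * x + c := h2
    _ ≤ (d * (x / Real.log (x + 2)) + c / Real.log 2) * Real.log (x + 2) := h6
    _ ≤ (d * (x / Real.log (x + 2)) + c / Real.log 2) * (A * Real.log (y + 2)) := by gcongr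
    _ = (A * d * (x / Real.log (x + 2)) + A * c / Real.log 2) * Real.log (y + 2) := by ring

/-- `log` is small compared with `psi2` -/
lemma log_psi2 {η : ℝ} (hη : 0 < η) : ∃ M : ℝ, ∀ x : ℝ, 0 ≤ x →
    Real.log (3 * x + 2) ≤ η * psi2 x + M := by
  -- `log u ≤ 4 u ^ (1 / 4)`
  obtain ⟨q, hq⟩ : ∃ q : ℝ, q = (100 / η) ^ 2 + 2 := ⟨_, rfl⟩
  have hq0 : 0 < q := by rw [hq]; positivity
  refine ⟨Real.log (3 * q + 2), fun x hx => ?_⟩
  rcases le_or_gt x q with h | h
  · have h1 := Real.log_le_log (by linarith : (0 : ℝ) < 3 * x + 2) (by linarith : 3 * x + 2 ≤ 3 * q + 2)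
    have h2 : 0 ≤ η * psi2 x := mul_nonneg hη.le (psi2_nonneg hx)
    linarith
  · have hx0 : 0 < x := by linarith
    have hx2 : 2 ≤ x := by
      have : 2 ≤ q := by rw [hq]; nlinarith [sq_nonneg (100 / η)]
      linarith
    have hl : 0 < Real.log (x + 2) := Real.log_pos (by linarith)
    have k1 : Real.log (3 * x + 2) ≤ 8 * x ^ (1 / 4 : ℝ) := by
      have h1 : Real.log (3 * x + 2) ≤ Real.log (4 * x) := Real.log_le_log (by linarith) (by linarith)
      have h2 : Real.log (4 * x) ≤ (4 * x) ^ (1 / 4 : ℝ) / (1 / 4) :=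
        Real.log_le_rpow_div (by positivity) (by norm_num)
      have h3 : (4 * x) ^ (1 / 4 : ℝ) ≤ 2 * x ^ (1 / 4 : ℝ) := by
        rw [Real.mul_rpow (by norm_num) hx0.le]
        gcongr
        have : (4 : ℝ) ^ (1 / 4 : ℝ) ≤ (16 : ℝ) ^ (1 / 4 : ℝ) :=
          Real.rpow_le_rpow (by norm_num) (by norm_num) (by norm_num)
        refine this.trans ?_
        rw [show (16 : ℝ) = 2 ^ (4 : ℝ) by norm_num, ← Real.rpow_mul (by norm_num)]
        norm_num
      linarith
    have k2 : Real.log (x + 2) ≤ 8 * x ^ (1 / 4 : ℝ) :=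
      (Real.log_le_log (by linarith) (by linarith)).trans k1
    have k3 : 100 / η ≤ √x := by
      apply Real.le_sqrt_of_sq_le
      rw [hq] at h
      linarith
    have k4 : √x = x ^ (1 / 4 : ℝ) * x ^ (1 / 4 : ℝ) := by
      rw [← Real.rpow_add hx0, Real.sqrt_eq_rpow]
      norm_num
    have k5 : Real.log (3 * x + 2) * Real.log (x + 2) ≤ η * x := by
      have h0 : 0 ≤ Real.log (3 * x + 2) := Real.log_nonneg (by linarith)
      have hr : 0 ≤ x ^ (1 / 4 : ℝ) := by positivity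
      calc Real.log (3 * x + 2) * Real.log (x + 2)
          ≤ (8 * x ^ (1 / 4 : ℝ)) * (8 * x ^ (1 / 4 : ℝ)) := by gcongr
        _ = 64 * √x := by rw [k4]; ring
        _ ≤ 100 * √x := by
          have := Real.sqrt_nonneg x
          linarith
        _ = η * (100 / η) * √x := by field_simp
        _ ≤ η * √x * √x := by gcongr
        _ = η * x := by rw [mul_assoc, Real.mul_self_sqrt hx0.le]
    have k6 : Real.log (3 * x + 2) ≤ η * psi2 x := by
      unfold psi2
      rw [← mul_div_assoc, le_div_iff₀ hl]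
      exact k5
    have k7 : 0 ≤ Real.log (3 * q + 2) := Real.log_nonneg (by linarith)
    linarith

theorem isTr_lowH : IsTr LowH := by
  have mono : ∀ {T T' : Set ℚ}, LowH T' → T ⊆ T' → LowH T := fun h hs κ hκ => by
    obtain ⟨C, hC⟩ := h κ hκ
    exact ⟨C, fun t ht => hC t (hs ht)⟩
  have union : ∀ {T T' : Set ℚ}, LowH T → LowH T' → LowH (T ∪ T') := fun h h' κ hκ => by
    obtain ⟨C, hC⟩ := h κ hκ
    obtain ⟨C', hC'⟩ := h' κ hκ
    refine ⟨max C C', fun t ht h0 h1 => ?_⟩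
    rcases ht with ht | ht
    · exact (hC t ht h0 h1).trans (by gcongr; exact le_max_left _ _)
    · exact (hC' t ht h0 h1).trans (by gcongr; exact le_max_right _ _)
  have fin : ∀ {T : Set ℚ}, T.Finite → LowH T := fun {T} h κ hκ => by
    refine ⟨∑ t ∈ h.toFinset, (Real.log (H t) + |Lam t|), fun t ht _ _ => ?_⟩
    have h1 : Real.log (H t) + |Lam t| ≤ ∑ t ∈ h.toFinset, (Real.log (H t) + |Lam t|) :=
      single_le_sum (f := fun t => Real.log (H t) + |Lam t|)
        (fun s _ => add_nonneg (Real.log_nonneg (one_le_H s)) (by positivity))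
        (h.mem_toFinset.2 ht)
    have h2 := neg_abs_le (Lam t)
    have h3 : 0 ≤ κ * psi2 (Real.log (H t)) :=
      mul_nonneg hκ.le (psi2_nonneg (Real.log_nonneg (one_le_H t)))
    linarith
  refine ⟨mono, union, fin, ?_⟩
  intro F G d hB T T' hT' h
  obtain ⟨A, k, hA, hk, Z, hZ, hv⟩ := values_lam hB
  have key : LowH (T \ Z) := by
    intro κ hκ
    have hd : (1 : ℝ) ≤ d := by exact_mod_cast hB.hd
    obtain ⟨K, L, hK, hL, hcomp⟩ := psi2_comp hd hA
    obtain ⟨M, hM⟩ := log_psi2 (η := κ / 2 / (k + 1)) (by positivity)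
    obtain ⟨C, hC⟩ := hT' (κ / 2 / K) (by positivity)
    refine ⟨2 * A + k * M + κ / 2 / K * L + C, fun t ht ht0 ht1 => ?_⟩
    obtain ⟨hG, hy0, hy1, v1, v2, v3⟩ := hv t ht.2
    have h1 := hC _ (h t ht.1 hG) hy0 hy1
    obtain ⟨y, hy⟩ : ∃ y, y = F.eval t / G.eval t := ⟨_, rfl⟩
    rw [← hy] at h1 v1 v2 v3
    have hy0' : 0 ≤ Real.log (H y) := Real.log_nonneg (one_le_H y)
    obtain ⟨x, hx⟩ : ∃ x, x = Real.log (H t) := ⟨_, rfl⟩
    have hx0 : 0 ≤ x := by rw [hx]; exact Real.log_nonneg (one_le_H t)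
    rw [← hx] at v1 v2 v3 ⊢
    have h2 := hM x hx0
    have hψ := psi2_nonneg hx0
    have h3 : k * Real.log (3 * x + 2) ≤ κ / 2 * psi2 x + k * M := by
      calc k * Real.log (3 * x + 2) ≤ k * (κ / 2 / (k + 1) * psi2 x + M) := by gcongr
        _ = (k / (k + 1)) * (κ / 2 * psi2 x) + k * M := by ring
        _ ≤ 1 * (κ / 2 * psi2 x) + k * M := by
          gcongr
          rw [div_le_one (by positivity)]
          linarith
        _ = κ / 2 * psi2 x + k * M := by ring
    have h4 := hcomp x (Real.log (H y)) hx0 hy0' (by linarith) (by linarith)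
    have h5 : κ / 2 / K * psi2 (Real.log (H y)) ≤ κ / 2 * psi2 x + κ / 2 / K * L := by
      have h6 : 0 < κ / 2 / K := by positivity
      calc κ / 2 / K * psi2 (Real.log (H y)) ≤ κ / 2 / K * (K * psi2 x + L) := by gcongr
        _ = κ / 2 * psi2 x + κ / 2 / K * L := by field_simp
    linarith
  exact mono (union key (fin hZ)) fun t ht => by
    by_cases h : t ∈ Z
    · exact Or.inr h
    · exact Or.inl ⟨ht, h⟩

end Q265.LC
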