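import Pool.Agent.Q265.LC.M

/-! # Localisation of the inequality with `γ / (log γ) ^ ω`: final statements -/

set_option autoImplicit false

open Finset Polynomial Filter Topology

namespace Q265.LC

open Q241.AC (R)

lemma Hf_pos (n : ℕ) : 0 < Hf n := by
  unfold Hf
  have h1 := R_pos' n
  by_cases h : n.primeFactors = ∅
  · rw [h, card_empty, pow_zero, div_one]
    linarith
  · obtain ⟨p, hp⟩ := nonempty_iff_ne_empty.2 h
    have h2 : p ∣ R n := by
      unfold R
      exact dvd_prod_of_mem _ hp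
    have h3 : 2 ≤ R n := (Nat.prime_of_mem_primeFactors hp).two_le.trans
      (Nat.le_of_dvd (Q241.AC.R_pos n) h2)
    have h4 : (2 : ℝ) ≤ R n := by exact_mod_cast h3
    have h5 : 0 < Real.log (R n) := Real.log_pos (by linarith)
    positivity

theorem not_lowH : ¬ LowH Set.univ := by
  intro h
  obtain ⟨C, hC⟩ := h (1 / 2) (by norm_num)
  have hc0 := Q272.AbcH.c0_ge
  obtain ⟨a, b, c, hadm, hB, V, hH, hV⟩ := Q272.AbcH.main_aux 1 one_pos (by linarith)
    (16 * C ^ 2 + 3)
  obtain ⟨ha, hb, hc, habc, hg⟩ := hadm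
  have hcp : (0 : ℝ) < c := by exact_mod_cast hc
  obtain ⟨y, hy⟩ : ∃ y : ℝ, y = Real.log c := ⟨_, rfl⟩
  rw [← hy] at hB hH hV
  have hy3 : 3 ≤ y := by nlinarith [sq_nonneg C]
  have hac : Nat.Coprime a c := by
    have h1 : Nat.gcd a c ∣ Nat.gcd (Nat.gcd a b) c := by
      refine Nat.dvd_gcd (Nat.dvd_gcd (Nat.gcd_dvd_left _ _) ?_) (Nat.gcd_dvd_right _ _)
      have h2 : b = c - a := by omega
      rw [h2]
      exact Nat.dvd_sub (Nat.gcd_dvd_right _ _) (Nat.gcd_dvd_left _ _)
    rw [hg] at h1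
    exact Nat.dvd_one.1 h1
  have hcz : (c : ℤ) ≠ 0 := by omega
  obtain ⟨n1, n2, n3⟩ := num_den (a := a) (c := c) hcz (Nat.isCoprime_iff_coprime.2 hac)
  obtain ⟨t, ht⟩ : ∃ t : ℚ, t = ((a : ℤ) : ℚ) / ((c : ℤ) : ℚ) := ⟨_, rfl⟩
  rw [← ht] at n1 n2 n3
  rw [Int.natAbs_natCast] at n1 n2
  have n3' : (t.num - t.den).natAbs = b := by rw [n3]; omega
  have hcq : ((c : ℤ) : ℚ) ≠ 0 := by exact_mod_cast hcz
  have ht0 : t ≠ 0 := by
    rw [ht]
    exact div_ne_zero (by exact_mod_cast ha.ne') hcq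
  have ht1 : t ≠ 1 := by
    rw [ht]
    intro h1
    rw [div_eq_one_iff_eq hcq] at h1
    have : a = c := by exact_mod_cast h1
    omega
  have hHt : H t = c := by
    unfold H
    have e1 : |(t.num : ℝ)| = a := by
      have : |(t.num : ℝ)| = ((t.num.natAbs : ℕ) : ℝ) := by rw [Nat.cast_natAbs, Int.cast_abs]
      rw [this, n1]
    rw [e1, n2]
    refine max_eq_right ?_
    have : a ≤ c := by omega
    exact_mod_cast this
  have hTt : Tp t = a * b * c := by
    unfold Tp
    rw [n3', n1, n2]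
    ring
  have k1 := hC t (Set.mem_univ t) ht0 ht1
  rw [hHt, ← hy] at k1
  have k2 : Lam t ≤ y - V := by
    unfold Lam
    rw [hTt]
    have h1 := Real.log_le_log (Hf_pos _) (show Hf (a * b * c) ≤ _ from hH)
    rwa [Real.log_exp] at h1
  have hly : 0 < Real.log y := Real.log_pos (by linarith)
  have k3 : psi2 y ≤ y / Real.log y := by
    unfold psi2
    have : Real.log y ≤ Real.log (y + 2) := Real.log_le_log (by linarith) (by linarith)
    gcongr
  have k4 : √y / 2 ≤ y / Real.log y := by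
    have h1 : Real.log y ≤ 2 * √y := by
      have h2 : Real.log y = 2 * Real.log √y := by
        rw [Real.log_sqrt (by linarith)]
        ring
      have h3 := Real.log_le_sub_one_of_pos (Real.sqrt_pos.2 (by linarith : (0 : ℝ) < y))
      linarith
    rw [div_le_div_iff₀ (by norm_num) hly]
    have h2 := Real.sq_sqrt (by linarith : (0 : ℝ) ≤ y)
    have h3 : 0 ≤ √y := Real.sqrt_nonneg _
    calc √y * Real.log y ≤ √y * (2 * √y) := by gcongr
      _ = √y ^ 2 * 2 := by ring
      _ = y * 2 := by rw [h2]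
  have k5 : 4 * |C| ≤ √y := by
    refine Real.le_sqrt_of_sq_le ?_
    rw [mul_pow, sq_abs]
    linarith
  have k6 := le_abs_self C
  linarith

/-- an inequality for integers and for rational numbers -/
theorem gen_iff {f : ℕ → ℝ} (hf : ∀ n, 0 < f n) (T : Set ℚ) :
    (∀ ε : ℝ, 0 < ε → ∃ C : ℝ, ∀ t ∈ T, t ≠ 0 → t ≠ 1 →
      Real.log (H t) ≤ (1 + ε) * Real.log (f (Tp t)) + C) ↔
    ∀ ε : ℝ, 0 < ε → ∃ κ : ℝ, ∀ a b c : ℤ, a ≠ 0 → b ≠ 0 →
      c ≠ 0 → IsCoprime a b → a + b = c → (a : ℚ) / c ∈ T →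
        ((max |a| (max |b| |c|) : ℤ) : ℝ) < κ * f (a * b * c).natAbs ^ (1 + ε) := by
  constructor
  · intro h ε hε
    obtain ⟨C, hC⟩ := h ε hε
    refine ⟨2 * Real.exp C + 1, fun a b c ha hb hc hab habc hT => ?_⟩
    obtain ⟨t, ht⟩ : ∃ t, t = (a : ℚ) / c := ⟨_, rfl⟩
    have hac : IsCoprime a c := by
      rw [← habc]
      exact (IsCoprime.add_mul_left_right_iff (z := 1)).2 hab |> fun h => by simpa [add_comm] using h
    obtain ⟨n1, n2, n3⟩ := num_den hc hac
    rw [← ht] at n1 n2 n3 hT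
    have hcq : (c : ℚ) ≠ 0 := by exact_mod_cast hc
    have ht0 : t ≠ 0 := by
      rw [ht]
      exact div_ne_zero (by exact_mod_cast ha) hcq
    have ht1 : t ≠ 1 := by
      rw [ht]
      intro h1
      rw [div_eq_one_iff_eq hcq] at h1
      have : a = c := by exact_mod_cast h1
      omega
    have h1 := hC t hT ht0 ht1
    have hR : Tp t = (a * b * c).natAbs := by
      unfold Tp
      rw [n3, n1, n2, Int.natAbs_mul, Int.natAbs_mul]
      have : (a - c).natAbs = b.natAbs := by omega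
      rw [this]
      ring
    rw [hR] at h1
    obtain ⟨r, hr⟩ : ∃ r : ℝ, r = f (a * b * c).natAbs := ⟨_, rfl⟩
    have hr1 : 0 < r := by rw [hr]; exact hf _
    rw [← hr] at h1 ⊢
    have hH : H t ≤ Real.exp C * r ^ (1 + ε) := by
      have h2 : H t = Real.exp (Real.log (H t)) :=
        (Real.exp_log (lt_of_lt_of_le one_pos (one_le_H t))).symm
      rw [h2]
      calc Real.exp (Real.log (H t)) ≤ Real.exp ((1 + ε) * Real.log r + C) := Real.exp_le_exp.2 h1
        _ = Real.exp C * r ^ (1 + ε) := by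
          rw [Real.exp_add, mul_comm, Real.rpow_def_of_pos (by linarith), mul_comm (1 + ε)]
    have hHa : ((|a| : ℤ) : ℝ) ≤ H t := by
      have : ((|a| : ℤ) : ℝ) = |(t.num : ℝ)| := by
        have : |a| = |t.num| := by
          rw [Int.abs_eq_natAbs, Int.abs_eq_natAbs, n1]
        rw [this]
        push_cast
        rfl
      rw [this]
      exact le_max_left _ _
    have hHc : ((|c| : ℤ) : ℝ) ≤ H t := by
      have : ((|c| : ℤ) : ℝ) = (t.den : ℝ) := by
        rw [Int.abs_eq_natAbs, n2, Int.cast_natCast]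
      rw [this]
      exact le_max_right _ _
    have hb' : |b| ≤ |c| + |a| := by
      have : b = c - a := by omega
      rw [this]
      exact abs_sub c a
    have hb'' : ((|b| : ℤ) : ℝ) ≤ ((|c| : ℤ) : ℝ) + ((|a| : ℤ) : ℝ) := by exact_mod_cast hb'
    have h0 : 0 < H t := lt_of_lt_of_le one_pos (one_le_H t)
    have hmax : ((max |a| (max |b| |c|) : ℤ) : ℝ) ≤ 2 * H t := by
      rw [Int.cast_max, Int.cast_max]
      refine max_le (by linarith) (max_le (by linarith) (by linarith))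
    have hpos : 0 < r ^ (1 + ε) := by positivity
    calc _ ≤ 2 * H t := hmax
      _ ≤ 2 * (Real.exp C * r ^ (1 + ε)) := by gcongr
      _ < (2 * Real.exp C + 1) * r ^ (1 + ε) := by linarith
  · intro h ε hε
    obtain ⟨κ, hκ⟩ := h ε hε
    refine ⟨Real.log (max κ 1), fun t ht ht0 ht1 => ?_⟩
    have hden : (t.den : ℤ) ≠ 0 := by exact_mod_cast t.pos.ne'
    have hnum : t.num ≠ 0 := Rat.num_ne_zero.2 ht0
    have hb : (t.den : ℤ) - t.num ≠ 0 := by
      intro h0
      apply ht1
      have : t.num = t.den := by omega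
      rw [← Rat.num_div_den t, this]
      exact div_self (by exact_mod_cast t.pos.ne')
    have hcop : IsCoprime t.num ((t.den : ℤ) - t.num) := by
      have h1 : IsCoprime t.num (t.den : ℤ) := Int.isCoprime_iff_gcd_eq_one.2 (by
        have := t.reduced
        rwa [Int.gcd, Int.natAbs_natCast])
      have h2 : (t.den : ℤ) - t.num = t.den + t.num * (-1) := by ring
      rw [h2]
      exact (IsCoprime.add_mul_left_right_iff).2 h1
    have h1 := hκ t.num (t.den - t.num) t.den hnum hb hden hcop (by ring) (by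
      have : ((t.num : ℤ) : ℚ) / ((t.den : ℤ) : ℚ) = t := by
        exact_mod_cast Rat.num_div_den t
      rw [this]
      exact ht)
    have hR : Tp t = (t.num * (t.den - t.num) * t.den).natAbs := by
      unfold Tp
      rw [Int.natAbs_mul, Int.natAbs_mul, Int.natAbs_natCast]
      have : (t.num - (t.den : ℤ)).natAbs = ((t.den : ℤ) - t.num).natAbs := by omega
      rw [this]
      ring
    rw [← hR] at h1
    have hr1 := hf (Tp t)
    have hH : H t ≤ max κ 1 * f (Tp t) ^ (1 + ε) := by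
      have h2 : H t ≤ ((max |t.num| (max |(t.den : ℤ) - t.num| |(t.den : ℤ)|) : ℤ) : ℝ) := by
        unfold H
        rw [Int.cast_max, Int.cast_max]
        refine max_le ?_ ?_
        · refine le_trans ?_ (le_max_left _ _)
          push_cast
          exact le_rfl
        · refine le_trans ?_ ((le_max_right _ _).trans (le_max_right _ _))
          push_cast
          exact le_abs_self _
      refine h2.trans (h1.le.trans ?_)
      gcongr
      exact le_max_left _ _
    have h3 := Real.log_le_log (lt_of_lt_of_le one_pos (one_le_H t)) hH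
    rw [Real.log_mul (by positivity) (by positivity), Real.log_rpow (by linarith)] at h3
    linarith

theorem hineq_iff (T : Set ℚ) : HIneq T ↔ ∀ ε : ℝ, 0 < ε → ∃ κ : ℝ, ∀ a b c : ℤ, a ≠ 0 → b ≠ 0 →
    c ≠ 0 → IsCoprime a b → a + b = c → (a : ℚ) / c ∈ T →
      ((max |a| (max |b| |c|) : ℤ) : ℝ) < κ * Hf (a * b * c).natAbs ^ (1 + ε) :=
  gen_iff Hf_pos T

/-- an inequality for positive integers and for all integers -/
theorem gen_nat (f : ℕ → ℝ) :
    (∀ ε : ℝ, 0 < ε → ∃ κ : ℝ, ∀ a b c : ℤ, a ≠ 0 → b ≠ 0 →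
      c ≠ 0 → IsCoprime a b → a + b = c → (a : ℚ) / c ∈ (Set.univ : Set ℚ) →
        ((max |a| (max |b| |c|) : ℤ) : ℝ) < κ * f (a * b * c).natAbs ^ (1 + ε)) ↔
    ∀ ε : ℝ, 0 < ε → ∃ κ : ℝ, ∀ a b c : ℕ, 0 < a → 0 < b → a + b = c →
      Nat.gcd (Nat.gcd a b) c = 1 → (c : ℝ) < κ * f (a * b * c) ^ (1 + ε) := by
  constructor
  · intro h ε hε
    obtain ⟨κ, hκ⟩ := h ε hε
    refine ⟨κ, fun a b c ha hb hc hg => ?_⟩
    have hab : Nat.Coprime a b := by
      have h1 : Nat.gcd a b ∣ Nat.gcd (Nat.gcd a b) c := by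
        refine Nat.dvd_gcd dvd_rfl ?_
        rw [← hc]
        exact Nat.dvd_add (Nat.gcd_dvd_left _ _) (Nat.gcd_dvd_right _ _)
      rw [hg] at h1
      exact Nat.dvd_one.1 h1
    have h1 := hκ a b c (by omega) (by omega) (by omega) (Nat.isCoprime_iff_coprime.2 hab)
      (by exact_mod_cast hc) (Set.mem_univ _)
    have h2 : ((a : ℤ) * b * c).natAbs = a * b * c := by
      rw [← Nat.cast_mul, ← Nat.cast_mul, Int.natAbs_natCast]
    rw [h2] at h1
    refine lt_of_le_of_lt ?_ h1
    rw [Int.cast_max, Int.cast_max]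
    refine le_trans ?_ ((le_max_right _ _).trans (le_max_right _ _))
    push_cast
    exact le_abs_self _
  · intro h ε hε
    obtain ⟨κ, hκ⟩ := h ε hε
    refine ⟨κ, fun a b c ha hb hc hab habc _ => ?_⟩
    have key : ∀ x y z : ℕ, x + y = z → x * y * z = (a * b * c).natAbs → 0 < x → 0 < y →
        Nat.Coprime x y → (max |a| (max |b| |c|)) = z →
        ((max |a| (max |b| |c|) : ℤ) : ℝ) < κ * f (a * b * c).natAbs ^ (1 + ε) := by
      intro x y z h1 h2 h3 h4 h5 h6
      have hg : Nat.gcd (Nat.gcd x y) z = 1 := by rw [h5, Nat.gcd_one_left]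
      have h7 := hκ x y z h3 h4 h1 hg
      rw [h2] at h7
      rw [h6]
      exact_mod_cast h7
    have hcop1 : Nat.Coprime a.natAbs b.natAbs := Int.isCoprime_iff_gcd_eq_one.1 hab
    have hcop2 : Nat.Coprime a.natAbs c.natAbs := by
      refine Int.isCoprime_iff_gcd_eq_one.1 ?_
      rw [← habc]
      exact (IsCoprime.add_mul_left_right_iff (z := 1)).2 hab |> fun h => by simpa [add_comm] using h
    have hcop3 : Nat.Coprime b.natAbs c.natAbs := by
      refine Int.isCoprime_iff_gcd_eq_one.1 ?_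
      rw [← habc]
      exact (IsCoprime.add_mul_left_right_iff (z := 1)).2 hab.symm |> fun h => by simpa using h
    have ha' : 0 < a.natAbs := Int.natAbs_pos.2 ha
    have hb' : 0 < b.natAbs := Int.natAbs_pos.2 hb
    have hc' : 0 < c.natAbs := Int.natAbs_pos.2 hc
    rw [Int.natAbs_mul, Int.natAbs_mul] at key
    rw [Int.natAbs_mul, Int.natAbs_mul]
    rcases (by omega : a.natAbs + b.natAbs = c.natAbs ∨ a.natAbs + c.natAbs = b.natAbs ∨
      b.natAbs + c.natAbs = a.natAbs) with h1 | h1 | h1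
    · refine key _ _ _ h1 rfl ha' hb' hcop1 ?_
      rw [Int.abs_eq_natAbs, Int.abs_eq_natAbs, Int.abs_eq_natAbs]
      omega
    · refine key _ _ _ h1 (by ring) ha' hc' hcop2 ?_
      rw [Int.abs_eq_natAbs, Int.abs_eq_natAbs, Int.abs_eq_natAbs]
      omega
    · refine key _ _ _ h1 (by ring) hb' hc' hcop3 ?_
      rw [Int.abs_eq_natAbs, Int.abs_eq_natAbs, Int.abs_eq_natAbs]
      omega

theorem hineq_nat : HIneq Set.univ ↔ ∀ ε : ℝ, 0 < ε → ∃ κ : ℝ, ∀ a b c : ℕ, 0 < a → 0 < b →
    a + b = c → Nat.gcd (Nat.gcd a b) c = 1 → (c : ℝ) < κ * Hf (a * b * c) ^ (1 + ε) :=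
  (hineq_iff _).trans (gen_nat Hf)

end Q265.LC
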